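import Mathlib

set_option autoImplicit false

namespace Pool.Agent.HM

open FirstOrder

/-- The language of rings together with relation symbols `R n` of arity `n`. -/
abbrev Lg (R : ℕ → Type) : FirstOrder.Language.{0, 0} := ⟨ringFunc, R⟩

/-- An interpretation of the relation symbols `R` on `K`. -/
class Interp (R : ℕ → Type) (K : Type) where
  rel : ∀ n, R n → (Fin n → K) → Prop

/-- A field with an interpretation of the relation symbols is a structure for `Lg R`. -/
instance struc (R : ℕ → Type) (K : Type) [Field K] [Interp R K] : (Lg R).Structure K where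
  funMap := fun {n} (f : ringFunc n) =>
    match n, f with
    | _, ringFunc.add => fun v => v 0 + v 1
    | _, ringFunc.mul => fun v => v 0 * v 1
    | _, ringFunc.neg => fun v => - v 0
    | _, ringFunc.zero => fun _ => 0
    | _, ringFunc.one => fun _ => 1
  RelMap := fun {n} (r : R n) v => Interp.rel n r v

/-- The subset of `K` named by a unary symbol. -/
def pred {R : ℕ → Type} (O : R 1) (K : Type) [Interp R K] : Set K :=
  {x | Interp.rel 1 O (fun _ => x)}

section

variable {K : Type} [Field K]

/-- `|x| < |y|` for the valuation with valuation ring `V`: `x = z y` with `z` in the maximal ideal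
of `V`. -/
def vlt (V : Set K) (x y : K) : Prop := y ≠ 0 ∧ ∃ z ∈ V, x = z * y ∧ ∀ w ∈ V, z * w ≠ 1

/-- `|x| = |y|` for the valuation with valuation ring `V`: `x = z y` with a unit `z` of `V`. -/
def veq (V : Set K) (x y : K) : Prop := ∃ z ∈ V, x = z * y ∧ ∃ w ∈ V, z * w = 1

/-- `rv_λ(x) = rv_λ(y)` for `λ = |l|`. -/
def rvEq (V : Set K) (l x y : K) : Prop :=
  (x = 0 ∧ y = 0) ∨ (x ≠ 0 ∧ y ≠ 0 ∧ vlt V (x - y) (l * x))

/-- `C` `λ`-prepares `X` (`λ = |l|`): `X` is a union of fibres of `x ↦ (rv_λ(x - c))_{c ∈ C}`. -/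
def Prepares (V : Set K) (l : K) (C X : Set K) : Prop :=
  ∀ x y, (∀ c ∈ C, rvEq V l (x - c) (y - c)) → (x ∈ X ↔ y ∈ X)

end

section

variable {R : ℕ → Type} (O : R 1) {N : Type} [Field N] [Interp R N]

/-- `X` is definable over `A ∪ A'`, where `A'` consists of the elements `rv_λ(ξ i)` of `RV_λ`,
`λ = |l|`: some `A`-definable set `S` has fibre `X` over all representatives of `λ` and
of the elements of `A'`. -/
def DefOver (A : Set N) (l : N) {k : ℕ} (ξ : Fin k → N) (X : Set N) : Prop :=
  ∃ S : Set (Fin (k + 2) → N), A.Definable (Lg R) S ∧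
    ∀ (l' : N) (b : Fin k → N), veq (pred O N) l' l → (∀ i, rvEq (pred O N) l (ξ i) (b i)) →
      ∀ x, x ∈ X ↔ (Fin.cons x (Fin.cons l' b) : Fin (k + 2) → N) ∈ S

/-- The defining condition of `ω`-h-minimality in the model `N`. -/
def HMinModel (N : Type) [Field N] [Interp R N] : Prop :=
  ∀ l : N, l ≠ 0 → l ∈ pred O N → ∀ (A : Set N) (k : ℕ) (ξ : Fin k → N) (X : Set N),
    DefOver O A l ξ X →
      ∃ C : Set N, C.Finite ∧ A.Definable₁ (Lg R) C ∧ Prepares (pred O N) l C X

/-- `Th(K)` is `ω`-h-minimal with respect to the valuation whose ring is named by `O`. -/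
def OmegaHMinimal (K : Type) [Field K] [Interp R K] : Prop :=
  ∀ (N : Type) [Field N] [Interp R N], (Lg R).ElementarilyEquivalent K N → HMinModel O N

end

end Pool.Agent.HM
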