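import Mathlib
import Pool.Agent.W_MP_4ae68b_lc.Defs

set_option autoImplicit false

namespace Pool.Agent.HM

open FirstOrder FirstOrder.Language

/-- The residue field. -/
abbrev ResF {K : Type} [Field K] (V : ValuationSubring K) : Type := IsLocalRing.ResidueField V

/-- The preimage in `K^n` of a subset of the `n`-th power of the residue field of `V`. -/
def pull {K : Type} [Field K] (V : ValuationSubring K) {n : ℕ} (D : Set (Fin n → ResF V)) :
    Set (Fin n → K) :=
  {x | ∃ h : ∀ i, x i ∈ V, (fun i => IsLocalRing.residue V ⟨x i, h i⟩) ∈ D}

/-- The relation symbols of the structure induced on the residue field of `V`: one for every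
subset of a power of the residue field that is definable in `K` with parameters from `B`. For
`B = Set.univ` this is the full induced structure, with parameters allowed. -/
def IndRel (R : ℕ → Type) {K : Type} [Field K] [Interp R K] (V : ValuationSubring K) (B : Set K)
    (n : ℕ) : Type :=
  {D : Set (Fin n → ResF V) // B.Definable (Lg R) (pull V D)}

/-- The induced structure on the residue field. -/
instance indInterp (R : ℕ → Type) {K : Type} [Field K] [Interp R K] (V : ValuationSubring K)
    (B : Set K) : Interp (IndRel R V B) (ResF V) where
  rel _ D v := v ∈ D.1

end Pool.Agent.HM
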