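import Mathlib
import Pool.Agent.W_MP_4ae68b_lc.Defs

set_option autoImplicit false

namespace Pool.Agent.HM

open FirstOrder FirstOrder.Language

variable {R : ℕ → Type} {N : Type} [Field N] [Interp R N]

theorem term_mem (f : Subring (N × N)) {α : Type} (t : (Lg R).Term α) (v w : α → N)
    (h : ∀ i, (v i, w i) ∈ f) : (t.realize v, t.realize w) ∈ f := by
  induction t with
  | var i => exact h i
  | @func n F ts ih =>
    cases F with
    | add => exact f.add_mem (ih 0) (ih 1)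
    | mul => exact f.mul_mem (ih 0) (ih 1)
    | neg => exact f.neg_mem (ih 0)
    | zero => exact f.zero_mem
    | one => exact f.one_mem

/-- Back and forth. -/
theorem ef (S : Set (Subring (N × N))) (hinj : ∀ f ∈ S, ∀ p ∈ f, p.1 = 0 ↔ p.2 = 0)
    (hrel : ∀ f ∈ S, ∀ (n : ℕ) (r : R n) (v w : Fin n → N), (∀ i, (v i, w i) ∈ f) →
      (Interp.rel n r v ↔ Interp.rel n r w))
    (hforth : ∀ f ∈ S, ∀ a, ∃ g ∈ S, f ≤ g ∧ ∃ b, (a, b) ∈ g)
    (hback : ∀ f ∈ S, ∀ b, ∃ g ∈ S, f ≤ g ∧ ∃ a, (a, b) ∈ g)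
    {α : Type} {n : ℕ} (φ : (Lg R).BoundedFormula α n) :
    ∀ f ∈ S, ∀ (v w : α → N) (xs ys : Fin n → N), (∀ i, (v i, w i) ∈ f) →
      (∀ i, (xs i, ys i) ∈ f) → (φ.Realize v xs ↔ φ.Realize w ys) := by
  induction φ with
  | falsum => intros; exact Iff.rfl
  | @equal n t₁ t₂ =>
    intro f hf v w xs ys hv hx
    have hvx : ∀ i, (Sum.elim v xs i, Sum.elim w ys i) ∈ f := by
      rintro (i | i)
      · exact hv i
      · exact hx i
    have h1 := term_mem f t₁ _ _ hvx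
    have h2 := term_mem f t₂ _ _ hvx
    have h3 := hinj f hf _ (f.sub_mem h1 h2)
    simp only [Prod.fst_sub, Prod.snd_sub, sub_eq_zero] at h3
    exact h3
  | @rel n k r ts =>
    intro f hf v w xs ys hv hx
    have hvx : ∀ i, (Sum.elim v xs i, Sum.elim w ys i) ∈ f := by
      rintro (i | i)
      · exact hv i
      · exact hx i
    exact hrel f hf k r _ _ (fun i => term_mem f (ts i) _ _ hvx)
  | imp φ ψ ih1 ih2 =>
    intro f hf v w xs ys hv hx
    rw [BoundedFormula.realize_imp, BoundedFormula.realize_imp, ih1 f hf v w xs ys hv hx,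
      ih2 f hf v w xs ys hv hx]
  | @all n φ ih =>
    intro f hf v w xs ys hv hx
    rw [BoundedFormula.realize_all, BoundedFormula.realize_all]
    have snoc_mem : ∀ (g : Subring (N × N)) (a b : N), f ≤ g → (a, b) ∈ g →
        ∀ i, ((Fin.snoc xs a : Fin (n + 1) → N) i, (Fin.snoc ys b : Fin (n + 1) → N) i) ∈ g := by
      intro g a b hfg hab i
      refine Fin.lastCases ?_ (fun i => ?_) i
      · simpa using hab
      · simpa using hfg (hx i)
    constructor
    · intro h b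
      obtain ⟨g, hg, hfg, a, hab⟩ := hback f hf b
      exact (ih g hg v w _ _ (fun i => hfg (hv i)) (snoc_mem g a b hfg hab)).mp (h a)
    · intro h a
      obtain ⟨g, hg, hfg, b, hab⟩ := hforth f hf a
      exact (ih g hg v w _ _ (fun i => hfg (hv i)) (snoc_mem g a b hfg hab)).mpr (h b)

theorem ef_formula (S : Set (Subring (N × N))) (hinj : ∀ f ∈ S, ∀ p ∈ f, p.1 = 0 ↔ p.2 = 0)
    (hrel : ∀ f ∈ S, ∀ (n : ℕ) (r : R n) (v w : Fin n → N), (∀ i, (v i, w i) ∈ f) →
      (Interp.rel n r v ↔ Interp.rel n r w))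
    (hforth : ∀ f ∈ S, ∀ a, ∃ g ∈ S, f ≤ g ∧ ∃ b, (a, b) ∈ g)
    (hback : ∀ f ∈ S, ∀ b, ∃ g ∈ S, f ≤ g ∧ ∃ a, (a, b) ∈ g)
    {α : Type} (φ : (Lg R).Formula α) (f : Subring (N × N)) (hf : f ∈ S) (v w : α → N)
    (h : ∀ i, (v i, w i) ∈ f) : φ.Realize v ↔ φ.Realize w :=
  ef S hinj hrel hforth hback φ f hf v w _ _ h (fun i => i.elim0)

end Pool.Agent.HM
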