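import Mathlib
import Pool.Agent.W_MP_4ae68b_lc.Defs

set_option autoImplicit false
set_option linter.unusedSimpArgs false
set_option linter.unusedSectionVars false

namespace Pool.Agent.HM

open FirstOrder FirstOrder.Language

section

variable {R : ℕ → Type} {α β : Type}

def tadd (s t : (Lg R).Term α) : (Lg R).Term α := Functions.apply₂ (L := Lg R) ringFunc.add s t
def tmul (s t : (Lg R).Term α) : (Lg R).Term α := Functions.apply₂ (L := Lg R) ringFunc.mul s t
def tneg (s : (Lg R).Term α) : (Lg R).Term α := Functions.apply₁ (L := Lg R) ringFunc.neg s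
def tzero : (Lg R).Term α := Constants.term (L := Lg R) ringFunc.zero
def tone : (Lg R).Term α := Constants.term (L := Lg R) ringFunc.one
def tsub (s t : (Lg R).Term α) : (Lg R).Term α := tadd s (tneg t)

variable {M : Type} [Field M] [Interp R M]

@[simp] theorem realize_tadd (s t : (Lg R).Term α) (v : α → M) :
    (tadd s t).realize v = s.realize v + t.realize v := by
  unfold tadd; rw [Term.realize_functions_apply₂]; rfl
@[simp] theorem realize_tmul (s t : (Lg R).Term α) (v : α → M) :
    (tmul s t).realize v = s.realize v * t.realize v := by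
  unfold tmul; rw [Term.realize_functions_apply₂]; rfl
@[simp] theorem realize_tneg (s : (Lg R).Term α) (v : α → M) :
    (tneg s).realize v = - s.realize v := by
  unfold tneg; rw [Term.realize_functions_apply₁]; rfl
@[simp] theorem realize_tzero (v : α → M) : (tzero : (Lg R).Term α).realize v = 0 := by
  unfold tzero; rw [Term.realize_constants]; rfl
@[simp] theorem realize_tone (v : α → M) : (tone : (Lg R).Term α).realize v = 1 := by
  unfold tone; rw [Term.realize_constants]; rfl
@[simp] theorem realize_tsub (s t : (Lg R).Term α) (v : α → M) :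
    (tsub s t).realize v = s.realize v - t.realize v := by
  simp [tsub, sub_eq_add_neg]

def fpred (O : R 1) (t : (Lg R).Term α) : (Lg R).Formula α := Relations.formula₁ (L := Lg R) O t

@[simp] theorem realize_fpred (O : R 1) (t : (Lg R).Term α) (v : α → M) :
    (fpred O t).Realize v ↔ t.realize v ∈ pred O M := by
  unfold fpred
  rw [Formula.realize_rel₁]
  have : (![t.realize v] : Fin 1 → M) = fun _ => t.realize v := by
    ext i; fin_cases i; rfl
  rw [this]; rfl

def up (t : (Lg R).Term α) : (Lg R).Term (α ⊕ Unit) := t.relabel Sum.inl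
def last : (Lg R).Term (α ⊕ Unit) := Term.var (Sum.inr ())

@[simp] theorem realize_up (t : (Lg R).Term α) (v : α → M) (i : Unit → M) :
    (up t).realize (Sum.elim v i) = t.realize v := by
  unfold up; rw [Term.realize_relabel]; rfl

@[simp] theorem realize_up' (t : (Lg R).Term α) (v : α → M) (i : Unit → M) :
    (up t).realize (fun a => Sum.elim v i a) = t.realize v := realize_up t v i

@[simp] theorem realize_last (v : α → M) (i : Unit → M) :
    (last : (Lg R).Term (α ⊕ Unit)).realize (Sum.elim v i) = i () := rfl

@[simp] theorem realize_last' (v : α → M) (i : Unit → M) :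
    (last : (Lg R).Term (α ⊕ Unit)).realize (fun a => Sum.elim v i a) = i () := rfl

theorem exists_unit {p : (Unit → M) → Prop} : (∃ i : Unit → M, p i) ↔ ∃ x : M, p (fun _ => x) :=
  ⟨fun ⟨i, h⟩ => ⟨i (), by convert h⟩, fun ⟨x, h⟩ => ⟨_, h⟩⟩

theorem forall_unit {p : (Unit → M) → Prop} : (∀ i : Unit → M, p i) ↔ ∀ x : M, p (fun _ => x) :=
  ⟨fun h x => h _, fun h i => by convert h (i ())⟩

noncomputable def fvlt (O : R 1) (s t : (Lg R).Term α) : (Lg R).Formula α :=
  ∼(Term.equal t tzero) ⊓
    Formula.iExs Unit (fpred O last ⊓ (Term.equal (up s) (tmul last (up t)) ⊓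
      Formula.iAlls Unit ((fpred O last).imp (∼(Term.equal (tmul (up last) last) tone)))))

@[simp] theorem realize_fvlt (O : R 1) (s t : (Lg R).Term α) (v : α → M) :
    (fvlt O s t).Realize v ↔ vlt (pred O M) (s.realize v) (t.realize v) := by
  unfold fvlt vlt
  simp only [Formula.realize_inf, Formula.realize_not, Formula.realize_equal, realize_tzero,
    Formula.realize_iExs, Formula.realize_iAlls, Formula.realize_imp, realize_fpred, realize_tmul,
    realize_tone, realize_up, realize_last, realize_last', realize_up', exists_unit, forall_unit,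
    ne_eq]

noncomputable def fveq (O : R 1) (s t : (Lg R).Term α) : (Lg R).Formula α :=
    Formula.iExs Unit (fpred O last ⊓ (Term.equal (up s) (tmul last (up t)) ⊓
      Formula.iExs Unit ((fpred O last) ⊓ ((Term.equal (tmul (up last) last) tone)))))

@[simp] theorem realize_fveq (O : R 1) (s t : (Lg R).Term α) (v : α → M) :
    (fveq O s t).Realize v ↔ veq (pred O M) (s.realize v) (t.realize v) := by
  unfold fveq veq
  simp only [Formula.realize_inf, Formula.realize_not, Formula.realize_equal, realize_tzero,
    Formula.realize_iExs, Formula.realize_iAlls, Formula.realize_imp, realize_fpred, realize_tmul,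
    realize_tone, realize_up, realize_last, realize_last', realize_up', exists_unit, forall_unit,
    ne_eq]

noncomputable def frv (O : R 1) (l s t : (Lg R).Term α) : (Lg R).Formula α :=
  (Term.equal s tzero ⊓ Term.equal t tzero) ⊔
    (∼(Term.equal s tzero) ⊓ (∼(Term.equal t tzero) ⊓ fvlt O (tsub s t) (tmul l s)))

@[simp] theorem realize_frv (O : R 1) (l s t : (Lg R).Term α) (v : α → M) :
    (frv O l s t).Realize v ↔ rvEq (pred O M) (l.realize v) (s.realize v) (t.realize v) := by
  unfold frv rvEq
  simp only [Formula.realize_sup, Formula.realize_inf, Formula.realize_not, Formula.realize_equal,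
    realize_tzero, realize_fvlt, realize_tsub, realize_tmul, ne_eq]

end

/-- A formula valid in `K` for all assignments is valid in every elementarily equivalent structure. -/
theorem transfer_formula {R : ℕ → Type} {α : Type} [Finite α] (φ : (Lg R).Formula α)
    {K N : Type} [Field K] [Interp R K] [Field N] [Interp R N]
    (h : (Lg R).ElementarilyEquivalent K N) (hK : ∀ v : α → K, φ.Realize v) (v : α → N) :
    φ.Realize v := by
  let ψ : (Lg R).Sentence := Formula.iAlls α (φ.relabel (Sum.inr : α → Empty ⊕ α))
  have h1 : K ⊨ ψ := by
    show Formula.Realize ψ _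
    rw [Formula.realize_iAlls]
    intro i
    rw [Formula.realize_relabel]
    exact hK _
  have h2 : N ⊨ ψ := ((elementarilyEquivalent_iff.mp h) ψ).mp h1
  have h3 : Formula.Realize ψ (default : Empty → N) := h2
  rw [Formula.realize_iAlls] at h3
  have := h3 v
  rw [Formula.realize_relabel] at this
  exact this

end Pool.Agent.HM
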