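import Mathlib
import Pool.Agent.W_MP_4ae68b_lc.Forms

set_option autoImplicit false
set_option linter.unusedSimpArgs false
set_option linter.unusedSectionVars false

namespace Pool.Agent.HM

open FirstOrder FirstOrder.Language

section

variable {R : ℕ → Type} (O : R 1) {P : Type} {k : ℕ}

/-- The assignment of parameters `a`, element `x`, `l`, representatives `ξ`. -/
def asg {M : Type} (a : P → M) (x l : M) (ξ : Fin k → M) : P ⊕ Fin (k + 2) → M :=
  Sum.elim a (Fin.cons x (Fin.cons l ξ))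

theorem comp_asg {M γ : Type} (v : γ → M) (a : P → γ) (x l : γ) (ξ : Fin k → γ) :
    v ∘ asg a x l ξ = asg (v ∘ a) (v x) (v l) (v ∘ ξ) := by
  ext i
  rcases i with p | i
  · rfl
  · refine Fin.cases ?_ (fun i => ?_) i
    · rfl
    · refine Fin.cases ?_ (fun i => ?_) i
      · rfl
      · rfl

/-- The set defined by `φ` does not depend on the representatives. -/
def Inv {M : Type} [Field M] [Interp R M] (φ : (Lg R).Formula (P ⊕ Fin (k + 2)))
    (a : P → M) (l : M) (ξ : Fin k → M) : Prop :=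
  ∀ (l' : M) (b : Fin k → M), veq (pred O M) l' l → (∀ i, rvEq (pred O M) l (ξ i) (b i)) →
    ∀ x, φ.Realize (asg a x l ξ) ↔ φ.Realize (asg a x l' b)

abbrev Ctx (P : Type) (k : ℕ) : Type := P ⊕ (Unit ⊕ Fin k)

noncomputable def FInv (φ : (Lg R).Formula (P ⊕ Fin (k + 2))) : (Lg R).Formula (Ctx P k) :=
  Formula.iAlls (Unit ⊕ Fin k)
    ((fveq O (Term.var (Sum.inr (Sum.inl ()))) (Term.var (Sum.inl (Sum.inr (Sum.inl ()))))).imp
      ((Formula.iInf fun i : Fin k => frv O (Term.var (Sum.inl (Sum.inr (Sum.inl ()))))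
          (Term.var (Sum.inl (Sum.inr (Sum.inr i)))) (Term.var (Sum.inr (Sum.inr i)))).imp
        (Formula.iAlls Unit
          (Formula.iff (φ.relabel (asg (fun p => Sum.inl (Sum.inl (Sum.inl p))) (Sum.inr ())
              (Sum.inl (Sum.inl (Sum.inr (Sum.inl ()))))
              (fun i => Sum.inl (Sum.inl (Sum.inr (Sum.inr i))))))
            (φ.relabel (asg (fun p => Sum.inl (Sum.inl (Sum.inl p))) (Sum.inr ())
              (Sum.inl (Sum.inr (Sum.inl ())))
              (fun i => Sum.inl (Sum.inr (Sum.inr i)))))))))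

variable {M : Type} [Field M] [Interp R M]

theorem realize_FInv (φ : (Lg R).Formula (P ⊕ Fin (k + 2))) (a : P → M) (l : M) (ξ : Fin k → M) :
    (FInv O φ).Realize (Sum.elim a (Sum.elim (fun _ => l) ξ)) ↔ Inv O φ a l ξ := by
  unfold FInv Inv
  simp only [Formula.realize_iAlls, Formula.realize_imp, realize_fveq, Formula.realize_iInf,
    realize_frv, Formula.realize_iff, Formula.realize_relabel, Term.realize_var, Sum.elim_inl,
    Sum.elim_inr, forall_unit, comp_asg]
  constructor
  · intro h l' b hl hb x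
    have := h (Sum.elim (fun _ => l') b) hl hb x
    exact this
  · intro h i hl hb x
    exact h (i (Sum.inl ())) (fun j => i (Sum.inr j)) hl hb x

/-- `S` has at most `d` elements. -/
def FinLe (d : ℕ) (S : Set M) : Prop :=
  ∀ c : Fin (d + 1) → M, (∀ i, c i ∈ S) → ∃ i j, i ≠ j ∧ c i = c j

theorem FinLe.finite {d : ℕ} {S : Set M} (h : FinLe d S) : S.Finite := by
  by_contra hS
  obtain ⟨t, ht, hcard⟩ := Set.Infinite.exists_subset_card_eq hS (d + 1)
  let e := (Fintype.equivFinOfCardEq (α := t) (n := d + 1) (by simpa using hcard)).symm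
  obtain ⟨i, j, hij, he⟩ := h (fun i => (e i : M)) (fun i => ht (e i).2)
  exact hij (e.injective (Subtype.ext he))

noncomputable def FFin (d : ℕ) (δ : (Lg R).Formula (P ⊕ Unit)) : (Lg R).Formula P :=
  Formula.iAlls (Fin (d + 1))
    ((Formula.iInf fun i : Fin (d + 1) =>
      δ.relabel (Sum.elim (fun p => Sum.inl p) (fun _ => Sum.inr i) : P ⊕ Unit → P ⊕ Fin (d + 1))).imp
      (Formula.iSup fun p : {p : Fin (d + 1) × Fin (d + 1) // p.1 ≠ p.2} =>
        Term.equal (Term.var (Sum.inr p.1.1)) (Term.var (Sum.inr p.1.2))))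

theorem realize_FFin (d : ℕ) (δ : (Lg R).Formula (P ⊕ Unit)) (a : P → M) :
    (FFin d δ).Realize a ↔ FinLe d {c | δ.Realize (Sum.elim a fun _ => c)} := by
  unfold FFin FinLe
  simp only [Formula.realize_iAlls, Formula.realize_imp, Formula.realize_iInf,
    Formula.realize_iSup, Formula.realize_relabel, Formula.realize_equal, Term.realize_var,
    Sum.elim_inr]
  refine forall_congr' fun c => ?_
  have e1 : ∀ i : Fin (d + 1), ((fun x => Sum.elim a c x) ∘
      (Sum.elim (fun p => Sum.inl p) (fun _ => Sum.inr i) : P ⊕ Unit → P ⊕ Fin (d + 1))) =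
      Sum.elim a (fun _ => c i) := by
    intro i
    ext x
    rcases x with p | u <;> rfl
  simp only [e1]
  constructor
  · intro h hc
    obtain ⟨⟨⟨i, j⟩, hij⟩, he⟩ := h hc
    exact ⟨i, j, hij, he⟩
  · intro h hc
    obtain ⟨i, j, hij, he⟩ := h hc
    exact ⟨⟨⟨i, j⟩, hij⟩, he⟩

/-- The preparation statement. -/
def PrepS (φ : (Lg R).Formula (P ⊕ Fin (k + 2))) (δ : (Lg R).Formula (P ⊕ Unit)) (a : P → M)
    (l : M) (ξ : Fin k → M) (x y : M) : Prop :=
  l ≠ 0 → l ∈ pred O M → Inv O φ a l ξ →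
    (∀ c, δ.Realize (Sum.elim a fun _ => c) → rvEq (pred O M) l (x - c) (y - c)) →
    (φ.Realize (asg a x l ξ) ↔ φ.Realize (asg a y l ξ))

noncomputable def FPrep (φ : (Lg R).Formula (P ⊕ Fin (k + 2))) (δ : (Lg R).Formula (P ⊕ Unit)) :
    (Lg R).Formula (Ctx P k ⊕ Bool) :=
  (∼(Term.equal (Term.var (Sum.inl (Sum.inr (Sum.inl ())))) tzero)).imp
    ((fpred O (Term.var (Sum.inl (Sum.inr (Sum.inl ()))))).imp
      (((FInv O φ).relabel Sum.inl).imp
        ((Formula.iAlls Unit ((δ.relabel (Sum.elim (fun p => Sum.inl (Sum.inl (Sum.inl p)))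
            (fun _ => Sum.inr ()) : P ⊕ Unit → (Ctx P k ⊕ Bool) ⊕ Unit)).imp
          (frv O (Term.var (Sum.inl (Sum.inl (Sum.inr (Sum.inl ())))))
            (tsub (Term.var (Sum.inl (Sum.inr false))) (Term.var (Sum.inr ())))
            (tsub (Term.var (Sum.inl (Sum.inr true))) (Term.var (Sum.inr ())))))).imp
          (Formula.iff (φ.relabel (asg (fun p => Sum.inl (Sum.inl p)) (Sum.inr false)
              (Sum.inl (Sum.inr (Sum.inl ()))) (fun i => Sum.inl (Sum.inr (Sum.inr i)))))
            (φ.relabel (asg (fun p => Sum.inl (Sum.inl p)) (Sum.inr true)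
              (Sum.inl (Sum.inr (Sum.inl ()))) (fun i => Sum.inl (Sum.inr (Sum.inr i)))))))))

theorem realize_FPrep (φ : (Lg R).Formula (P ⊕ Fin (k + 2))) (δ : (Lg R).Formula (P ⊕ Unit))
    (a : P → M) (l : M) (ξ : Fin k → M) (x y : M) :
    (FPrep O φ δ).Realize (Sum.elim (Sum.elim a (Sum.elim (fun _ => l) ξ))
      (fun b => Bool.rec x y b)) ↔ PrepS O φ δ a l ξ x y := by
  unfold FPrep PrepS
  simp only [Formula.realize_iAlls, Formula.realize_imp, realize_fpred, realize_frv,
    Formula.realize_iff, Formula.realize_not, Formula.realize_equal, Formula.realize_relabel,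
    Term.realize_var, Sum.elim_inl, Sum.elim_inr, forall_unit, realize_tsub, realize_tzero, comp_asg]
  rw [← realize_FInv]
  have e1 : ∀ c : M, ((fun b => Sum.elim (Sum.elim (Sum.elim a (Sum.elim (fun _ => l) ξ))
      (fun b => Bool.rec x y b)) (fun _ : Unit => c) b) ∘
      (Sum.elim (fun p => Sum.inl (Sum.inl (Sum.inl p)))
            (fun _ => Sum.inr ()) : P ⊕ Unit → (Ctx P k ⊕ Bool) ⊕ Unit)) =
      Sum.elim a (fun _ => c) := by
    intro c
    ext u
    rcases u with p | u <;> rfl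
  simp only [e1]
  rfl

/-- Criterion for `ω`-h-minimality in terms of `K` only. -/
theorem omegaHMinimal_of (K : Type) [Field K] [Interp R K] (h0 : (0 : K) ∈ pred O K)
    (h1 : (1 : K) ∈ pred O K)
    (hK : ∀ (P : Type) [Finite P] (k : ℕ) (φ : (Lg R).Formula (P ⊕ Fin (k + 2))),
      ∃ (δ : (Lg R).Formula (P ⊕ Unit)) (d : ℕ),
        (∀ a : P → K, FinLe d {c | δ.Realize (Sum.elim a fun _ => c)}) ∧
        ∀ (a : P → K) (l : K) (ξ : Fin k → K) (x y : K), PrepS O φ δ a l ξ x y) :
    OmegaHMinimal O K := by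
  intro N _ _ hKN l hl hlO A k ξ X hX
  obtain ⟨S, hS, hSX⟩ := hX
  obtain ⟨A0, hA0, hS0⟩ := Set.definable_iff_finitely_definable.mp hS
  obtain ⟨φ, hφ⟩ := Set.definable_iff_exists_formula_sum.mp hS0
  obtain ⟨δ, d, hδ, hprep⟩ := hK (A0 : Set N) k φ
  have h0N : (0 : N) ∈ pred O N := by
    have := transfer_formula (α := Empty) (fpred O tzero : (Lg R).Formula Empty) hKN
      (fun v => by rw [realize_fpred, realize_tzero]; exact h0) (fun e => e.elim)
    rwa [realize_fpred, realize_tzero] at this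
  have h1N : (1 : N) ∈ pred O N := by
    have := transfer_formula (α := Empty) (fpred O tone : (Lg R).Formula Empty) hKN
      (fun v => by rw [realize_fpred, realize_tone]; exact h1) (fun e => e.elim)
    rwa [realize_fpred, realize_tone] at this
  set a : ↥(A0 : Set N) → N := fun x => x.1 with ha
  have hδN : FinLe d {c | δ.Realize (Sum.elim a fun _ => c)} := by
    rw [← realize_FFin]
    exact transfer_formula _ hKN (fun v => (realize_FFin d δ v).mpr (hδ v)) a
  have hprepN : ∀ x y, PrepS O φ δ a l ξ x y := by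
    intro x y
    rw [← realize_FPrep]
    apply transfer_formula _ hKN
    intro v
    have := (realize_FPrep O φ δ (fun p => v (Sum.inl (Sum.inl p))) (v (Sum.inl (Sum.inr (Sum.inl ()))))
      (fun i => v (Sum.inl (Sum.inr (Sum.inr i)))) (v (Sum.inr false)) (v (Sum.inr true))).mpr
      (hprep _ _ _ _ _)
    convert this using 1
    ext u
    rcases u with (p | (u | i)) | b
    · rfl
    · rfl
    · rfl
    · cases b <;> rfl
  have hmem : ∀ x l' b, (Fin.cons x (Fin.cons l' b) : Fin (k + 2) → N) ∈ S ↔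
      φ.Realize (asg a x l' b) := by
    intro x l' b
    rw [hφ]; rfl
  have hrefl : veq (pred O N) l l := ⟨1, h1N, by ring, 1, h1N, by ring⟩
  have hreflξ : ∀ i, rvEq (pred O N) l (ξ i) (ξ i) := by
    intro i
    by_cases h : ξ i = 0
    · exact Or.inl ⟨h, h⟩
    · exact Or.inr ⟨h, h, mul_ne_zero hl h, 0, h0N, by ring, fun w _ => by simp⟩
  have hXφ : ∀ x, x ∈ X ↔ φ.Realize (asg a x l ξ) := fun x => by
    rw [hSX l ξ hrefl hreflξ x, hmem]
  have hInv : Inv O φ a l ξ := by
    intro l' b hl' hb x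
    rw [← hXφ, hSX l' b hl' hb x, hmem]
  refine ⟨{c | δ.Realize (Sum.elim a fun _ => c)}, hδN.finite, ?_, ?_⟩
  · show A.Definable (Lg R) _
    rw [Set.definable_iff_exists_formula_sum]
    refine ⟨δ.relabel (Sum.map (fun p => ⟨p.1, hA0 p.2⟩) (fun _ => 0)), ?_⟩
    ext v
    simp only [Set.mem_ofPred_eq, Formula.realize_relabel]
    rw [iff_iff_eq]
    congr 1
    ext u
    rcases u with p | u <;> rfl
  · intro x y hxy
    rw [hXφ, hXφ]
    exact hprepN x y hl hlO hInv (fun c hc => hxy c hc)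

end

end Pool.Agent.HM
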