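import Mathlib
import Pool.Agent.W_MP_4ae68b_lc.Defs

set_option autoImplicit false

namespace Pool.Agent.HM

open FirstOrder FirstOrder.Language Filter

/-- a nonprincipal ultrafilter on `ℕ` -/
noncomputable abbrev UU : Ultrafilter ℕ := Filter.hyperfilter ℕ

/-- the ultrapower -/
abbrev UP (K : Type) : Type := Filter.Germ (UU : Filter ℕ) K

/-- a representative -/
noncomputable def rep {K : Type} (x : UP K) : ℕ → K := Quotient.out x

theorem coe_rep {K : Type} (x : UP K) : ((rep x : ℕ → K) : UP K) = x := Quotient.out_eq x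

theorem rep_coe {K : Type} (f : ℕ → K) : rep (f : UP K) =ᶠ[(UU : Filter ℕ)] f :=
  Filter.Germ.coe_eq.mp (coe_rep (f : UP K))

noncomputable instance interpUP (R : ℕ → Type) (K : Type) [Interp R K] : Interp R (UP K) where
  rel n r v := ∀ᶠ i in (UU : Filter ℕ), Interp.rel n r (fun j => rep (v j) i)

variable {R : ℕ → Type} {K : Type} [Field K] [Interp R K]

omit [Field K] in
theorem rel_coe {n : ℕ} (r : R n) (v : Fin n → ℕ → K) :
    Interp.rel n r (fun j => (v j : UP K)) ↔ ∀ᶠ i in (UU : Filter ℕ), Interp.rel n r (fun j => v j i) := by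
  show (∀ᶠ i in (UU : Filter ℕ), Interp.rel n r (fun j => rep ((v j : ℕ → K) : UP K) i)) ↔ _
  have h : ∀ᶠ i in (UU : Filter ℕ), ∀ j, rep ((v j : ℕ → K) : UP K) i = v j i := by
    rw [Filter.eventually_all]
    exact fun j => rep_coe (v j)
  constructor
  · intro h1
    filter_upwards [h, h1] with i hi h2
    simpa [hi] using h2
  · intro h1
    filter_upwards [h, h1] with i hi h2
    simpa [hi] using h2

theorem los_term {α : Type} (t : (Lg R).Term α) (v : α → ℕ → K) :
    t.realize (fun a => (v a : UP K)) = ((fun i => t.realize (fun a => v a i) : ℕ → K) : UP K) := by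
  induction t with
  | var i => rfl
  | @func n F ts ih =>
    cases F with
    | add =>
      show (ts 0).realize _ + (ts 1).realize _ = _
      rw [ih 0, ih 1]; rfl
    | mul =>
      show (ts 0).realize _ * (ts 1).realize _ = _
      rw [ih 0, ih 1]; rfl
    | neg =>
      show - (ts 0).realize _ = _
      rw [ih 0]; rfl
    | zero => rfl
    | one => rfl

theorem los {α : Type} {n : ℕ} (φ : (Lg R).BoundedFormula α n) :
    ∀ (v : α → ℕ → K) (xs : Fin n → ℕ → K),
      φ.Realize (fun a => (v a : UP K)) (fun j => (xs j : UP K)) ↔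
        ∀ᶠ i in (UU : Filter ℕ), φ.Realize (fun a => v a i) (fun j => xs j i) := by
  have hsum : ∀ {n : ℕ} (v : α → ℕ → K) (xs : Fin n → ℕ → K),
      (Sum.elim (fun a => (v a : UP K)) (fun j => (xs j : UP K)) : α ⊕ Fin n → UP K) =
      fun c => ((Sum.elim v xs c : ℕ → K) : UP K) := by
    intro n v xs
    ext c
    rcases c with a | j <;> rfl
  have hsum2 : ∀ {n : ℕ} (v : α → ℕ → K) (xs : Fin n → ℕ → K) (i : ℕ),
      (Sum.elim (fun a => v a i) (fun j => xs j i) : α ⊕ Fin n → K) =
      fun c => Sum.elim v xs c i := by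
    intro n v xs i
    ext c
    rcases c with a | j <;> rfl
  induction φ with
  | falsum =>
    intro v xs
    show False ↔ ∀ᶠ i in (UU : Filter ℕ), False
    rw [Filter.eventually_false_iff_eq_bot]
    exact ⟨fun h => h.elim, fun h => UU.neBot.ne h⟩
  | @equal n t₁ t₂ =>
    intro v xs
    show t₁.realize _ = t₂.realize _ ↔ ∀ᶠ i in (UU : Filter ℕ), t₁.realize _ = t₂.realize _
    rw [hsum, los_term, los_term, Filter.Germ.coe_eq]
    simp only [hsum2]
    rfl
  | @rel n k r ts =>
    intro v xs
    show Interp.rel k r (fun j => (ts j).realize _) ↔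
      ∀ᶠ i in (UU : Filter ℕ), Interp.rel k r (fun j => (ts j).realize _)
    simp only [hsum, los_term, hsum2]
    exact rel_coe r (fun j i => (ts j).realize (fun a => Sum.elim v xs a i))
  | imp φ ψ ih1 ih2 =>
    intro v xs
    simp only [BoundedFormula.realize_imp]
    rw [ih1, ih2, Ultrafilter.eventually_imp]
  | @all n φ ih =>
    intro v xs
    simp only [BoundedFormula.realize_all]
    have e1 : ∀ (f : ℕ → K), (Fin.snoc (fun j => (xs j : UP K)) (f : UP K) : Fin (n + 1) → UP K) =
        fun j => (((Fin.snoc xs f : Fin (n + 1) → ℕ → K) j : ℕ → K) : UP K) := by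
      intro f
      ext j
      refine Fin.lastCases ?_ (fun j => ?_) j
      · simp
      · simp
    have e2 : ∀ (f : ℕ → K) (i : ℕ), (Fin.snoc (fun j => xs j i) (f i) : Fin (n + 1) → K) =
        fun j => (Fin.snoc xs f : Fin (n + 1) → ℕ → K) j i := by
      intro f i
      ext j
      refine Fin.lastCases ?_ (fun j => ?_) j
      · simp
      · simp
    constructor
    · intro h
      by_contra hcon
      rw [← Ultrafilter.eventually_not] at hcon
      have : ∀ᶠ i in (UU : Filter ℕ), ∃ a : K,
          ¬ φ.Realize (fun a => v a i) (Fin.snoc (fun j => xs j i) a) := by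
        filter_upwards [hcon] with i hi
        push Not at hi
        exact hi
      classical
      let f : ℕ → K := fun i => if hi : ∃ a : K,
          ¬ φ.Realize (fun a => v a i) (Fin.snoc (fun j => xs j i) a) then hi.choose else 0
      have hf := h (f : UP K)
      rw [e1, ih] at hf
      have hbad : ∀ᶠ i in (UU : Filter ℕ), False := by
        filter_upwards [this, hf] with i hi hi2
        rw [← e2] at hi2
        have h3 : f i = hi.choose := by simp only [f]; rw [dif_pos hi]
        rw [h3] at hi2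
        exact hi.choose_spec hi2
      rw [Filter.eventually_false_iff_eq_bot] at hbad
      exact UU.neBot.ne hbad
    · intro h x
      rw [← coe_rep x, e1, ih]
      filter_upwards [h] with i hi
      rw [← e2]
      exact hi _

theorem los_formula {α : Type} (φ : (Lg R).Formula α) (v : α → ℕ → K) :
    φ.Realize (fun a => (v a : UP K)) ↔ ∀ᶠ i in (UU : Filter ℕ), φ.Realize (fun a => v a i) := by
  have := los φ v (fun j => j.elim0)
  have e1 : (fun j : Fin 0 => (((fun j => j.elim0 : Fin 0 → ℕ → K) j : ℕ → K) : UP K)) = default :=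
    Subsingleton.elim _ _
  have e2 : ∀ i, (fun j : Fin 0 => ((fun j => j.elim0 : Fin 0 → ℕ → K) j i)) = default :=
    fun i => Subsingleton.elim _ _
  rw [e1] at this
  simp only [e2] at this
  exact this

/-- Countable saturation for internal sets. -/
theorem saturation {K : Type} [Nonempty K] {ι : Type} [Countable ι] (D : ι → ℕ → Set K)
    (h : ∀ F : Finset ι, ∃ f : ℕ → K, ∀ p ∈ F, ∀ᶠ i in (UU : Filter ℕ), f i ∈ D p i) :
    ∃ f : ℕ → K, ∀ p, ∀ᶠ i in (UU : Filter ℕ), f i ∈ D p i := by
  classical
  rcases isEmpty_or_nonempty ι with he | hne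
  · exact ⟨fun _ => Classical.arbitrary K, fun p => he.elim p⟩
  obtain ⟨e, he⟩ := exists_surjective_nat ι
  let J : ℕ → Set ℕ := fun n => {i | n ≤ i ∧ ∃ y : K, ∀ m ≤ n, y ∈ D (e m) i}
  have hJ : ∀ n, ∀ᶠ i in (UU : Filter ℕ), i ∈ J n := by
    intro n
    obtain ⟨f, hf⟩ := h ((Finset.range (n + 1)).image e)
    have h1 : ∀ᶠ i in (UU : Filter ℕ), ∀ m ∈ Finset.range (n + 1), f i ∈ D (e m) i := by
      rw [Filter.eventually_all_finset]
      exact fun m hm => hf (e m) (Finset.mem_image_of_mem e hm)
    have h2 : ∀ᶠ i in (UU : Filter ℕ), n ≤ i := by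
      have h3 := Filter.eventually_ge_atTop n
      rw [← Nat.cofinite_eq_atTop] at h3
      exact Filter.hyperfilter_le_cofinite h3
    filter_upwards [h1, h2] with i hi1 hi2
    exact ⟨hi2, f i, fun m hm => hi1 m (Finset.mem_range.mpr (by omega))⟩
  have hex : ∀ i, ∃ y : K, ∀ n, i ∈ J n → ∀ m ≤ n, y ∈ D (e m) i := by
    intro i
    by_cases hi : ∃ n, i ∈ J n
    · let s := (Finset.range (i + 1)).filter (fun n => i ∈ J n)
      have hs : s.Nonempty := by
        obtain ⟨n, hn⟩ := hi
        exact ⟨n, Finset.mem_filter.mpr ⟨Finset.mem_range.mpr (by have := hn.1; omega), hn⟩⟩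
      have hmax := Finset.max'_mem s hs
      obtain ⟨_, y, hy⟩ := (Finset.mem_filter.mp hmax).2
      refine ⟨y, fun n hn m hm => hy m (hm.trans ?_)⟩
      exact Finset.le_max' s n (Finset.mem_filter.mpr ⟨Finset.mem_range.mpr (by have := hn.1; omega), hn⟩)
    · exact ⟨Classical.arbitrary K, fun n hn => (hi ⟨n, hn⟩).elim⟩
  choose f hf using hex
  refine ⟨f, fun p => ?_⟩
  obtain ⟨n, rfl⟩ := he p
  filter_upwards [hJ n] with i hi
  exact hf i n hi n le_rfl

end Pool.Agent.HM
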