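import Mathlib

set_option autoImplicit false

namespace Pool.Agent.HM

open Polynomial

variable {N : Type*} [Field N] {Γ : Type*} [LinearOrderedCommGroupWithZero Γ] (v : Valuation N Γ)

/-- If all roots of `Q` have value at least `s`, the coefficients of `Q` are bounded. -/
theorem coeff_bound [IsAlgClosed N] (s : Γ) : ∀ (n : ℕ) (Q : N[X]), Q.natDegree = n →
    Q.coeff 0 ≠ 0 → (∀ z, Q.eval z = 0 → s ≤ v z) → ∀ j, v (Q.coeff j) * s ^ j ≤ v (Q.coeff 0) := by
  intro n
  induction n with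
  | zero =>
    intro Q hn h0 hr j
    rcases Nat.eq_zero_or_pos j with rfl | hj
    · simp
    · rw [Q.coeff_eq_zero_of_natDegree_lt (by omega)]
      simp
  | succ n ih =>
    intro Q hn h0 hr j
    have hdeg : Q.degree ≠ 0 := by
      intro h
      have := natDegree_eq_of_degree_eq_some (n := 0) (by simpa using h)
      omega
    obtain ⟨z, hz⟩ := IsAlgClosed.exists_root Q hdeg
    obtain ⟨S, hS⟩ := dvd_iff_isRoot.mpr hz
    have hQ0 : Q ≠ 0 := by rintro rfl; simp at h0
    have hS0 : S ≠ 0 := by rintro rfl; simp at hS; exact hQ0 hS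
    have hSn : S.natDegree = n := by
      have := congrArg natDegree hS
      rw [natDegree_mul (X_sub_C_ne_zero z) hS0, natDegree_X_sub_C, hn] at this
      omega
    have hc0 : Q.coeff 0 = - (z * S.coeff 0) := by
      rw [hS, sub_mul, coeff_sub, coeff_C_mul, coeff_X_mul_zero]; ring
    have hSc : S.coeff 0 ≠ 0 := by
      intro h; rw [hc0, h] at h0; simp at h0
    have hSr : ∀ w, S.eval w = 0 → s ≤ v w := by
      intro w hw
      apply hr
      rw [hS, eval_mul, hw, mul_zero]
    have hI := ih S hSn hSc hSr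
    have hsz : s ≤ v z := hr z hz
    have hv0 : v (Q.coeff 0) = v z * v (S.coeff 0) := by rw [hc0, v.map_neg, v.map_mul]
    rcases Nat.eq_zero_or_pos j with rfl | hj
    · simp
    · obtain ⟨i, rfl⟩ : ∃ i, j = i + 1 := ⟨j - 1, by omega⟩
      have hcj : Q.coeff (i + 1) = S.coeff i - z * S.coeff (i + 1) := by
        rw [hS, sub_mul, coeff_sub, coeff_C_mul, coeff_X_mul]
      have h1 : v (S.coeff i) * s ^ (i + 1) ≤ v z * v (S.coeff 0) := by
        calc v (S.coeff i) * s ^ (i + 1) = s * (v (S.coeff i) * s ^ i) := by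
              rw [pow_succ, ← mul_assoc, mul_comm]
          _ ≤ v z * v (S.coeff 0) := mul_le_mul' hsz (hI i)
      have h2 : v (z * S.coeff (i + 1)) * s ^ (i + 1) ≤ v z * v (S.coeff 0) := by
        calc v (z * S.coeff (i + 1)) * s ^ (i + 1) = v z * (v (S.coeff (i + 1)) * s ^ (i + 1)) := by
              rw [v.map_mul, mul_assoc]
          _ ≤ v z * v (S.coeff 0) := mul_le_mul' le_rfl (hI (i + 1))
      rw [hcj, hv0]
      rcases le_total (v (S.coeff i)) (v (z * S.coeff (i + 1))) with h | h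
      · exact (mul_le_mul' (v.map_sub_le h le_rfl) le_rfl).trans h2
      · exact (mul_le_mul' (v.map_sub_le le_rfl h) le_rfl).trans h1

/-- Strict version. -/
theorem coeff_bound_lt [IsAlgClosed N] (s : Γ) : ∀ (n : ℕ) (Q : N[X]), Q.natDegree = n →
    Q.coeff 0 ≠ 0 → (∀ z, Q.eval z = 0 → s < v z) → ∀ j, 0 < j →
      v (Q.coeff j) * s ^ j < v (Q.coeff 0) := by
  intro n
  induction n with
  | zero =>
    intro Q hn h0 hr j hj
    rw [Q.coeff_eq_zero_of_natDegree_lt (by omega)]
    simpa using (zero_lt_iff.mpr ((map_ne_zero v).mpr h0))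
  | succ n ih =>
    intro Q hn h0 hr j hj
    have hdeg : Q.degree ≠ 0 := by
      intro h
      have := natDegree_eq_of_degree_eq_some (n := 0) (by simpa using h)
      omega
    obtain ⟨z, hz⟩ := IsAlgClosed.exists_root Q hdeg
    obtain ⟨S, hS⟩ := dvd_iff_isRoot.mpr hz
    have hQ0 : Q ≠ 0 := by rintro rfl; simp at h0
    have hS0 : S ≠ 0 := by rintro rfl; simp at hS; exact hQ0 hS
    have hSn : S.natDegree = n := by
      have := congrArg natDegree hS
      rw [natDegree_mul (X_sub_C_ne_zero z) hS0, natDegree_X_sub_C, hn] at this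
      omega
    have hc0 : Q.coeff 0 = - (z * S.coeff 0) := by
      rw [hS, sub_mul, coeff_sub, coeff_C_mul, coeff_X_mul_zero]; ring
    have hSc : S.coeff 0 ≠ 0 := by
      intro h; rw [hc0, h] at h0; simp at h0
    have hSr : ∀ w, S.eval w = 0 → s < v w := by
      intro w hw
      apply hr
      rw [hS, eval_mul, hw, mul_zero]
    have hI := ih S hSn hSc hSr
    have hI' := coeff_bound v s n S hSn hSc (fun w hw => (hSr w hw).le)
    have hsz : s < v z := hr z hz
    have hv0 : v (Q.coeff 0) = v z * v (S.coeff 0) := by rw [hc0, v.map_neg, v.map_mul]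
    have hvS : 0 < v (S.coeff 0) := zero_lt_iff.mpr ((map_ne_zero v).mpr hSc)
    have hvz : 0 < v z := lt_of_le_of_lt (zero_le) hsz
    obtain ⟨i, rfl⟩ : ∃ i, j = i + 1 := ⟨j - 1, by omega⟩
    have hcj : Q.coeff (i + 1) = S.coeff i - z * S.coeff (i + 1) := by
      rw [hS, sub_mul, coeff_sub, coeff_C_mul, coeff_X_mul]
    have h1 : v (S.coeff i) * s ^ (i + 1) < v z * v (S.coeff 0) := by
      calc v (S.coeff i) * s ^ (i + 1) = s * (v (S.coeff i) * s ^ i) := by
              rw [pow_succ, ← mul_assoc, mul_comm]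
        _ ≤ s * v (S.coeff 0) := mul_le_mul' le_rfl (hI' i)
        _ < v z * v (S.coeff 0) := mul_lt_mul_of_pos_right hsz hvS
    have h2 : v (z * S.coeff (i + 1)) * s ^ (i + 1) < v z * v (S.coeff 0) := by
      calc v (z * S.coeff (i + 1)) * s ^ (i + 1) = v z * (v (S.coeff (i + 1)) * s ^ (i + 1)) := by
            rw [v.map_mul, mul_assoc]
        _ < v z * v (S.coeff 0) := mul_lt_mul_of_pos_left (hI (i + 1) (by omega)) hvz
    rw [hcj, hv0]
    rcases le_total (v (S.coeff i)) (v (z * S.coeff (i + 1))) with h | h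
    · exact lt_of_le_of_lt (mul_le_mul' (v.map_sub_le h le_rfl) le_rfl) h2
    · exact lt_of_le_of_lt (mul_le_mul' (v.map_sub_le le_rfl h) le_rfl) h1


theorem eval_ne_zero_of (p : N[X]) (c : N) (h0 : p.coeff 0 ≠ 0)
    (h : ∀ j, 0 < j → v (p.coeff j) * v c ^ j < v (p.coeff 0)) : p.eval c ≠ 0 := by
  intro he
  rw [eval_eq_sum_range, Finset.sum_range_succ'] at he
  simp only [pow_zero, mul_one] at he
  have hne : v (p.coeff 0) ≠ 0 := (map_ne_zero v).mpr h0
  have h1 : v (∑ k ∈ Finset.range p.natDegree, p.coeff (k + 1) * c ^ (k + 1)) < v (p.coeff 0) := by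
    apply v.map_sum_lt hne
    intro i _
    rw [v.map_mul, v.map_pow]
    exact h (i + 1) (by omega)
  have h2 : p.coeff 0 = - ∑ k ∈ Finset.range p.natDegree, p.coeff (k + 1) * c ^ (k + 1) := by
    linear_combination he
  rw [h2, v.map_neg] at h1
  exact lt_irrefl _ h1

theorem exists_small_root [IsAlgClosed N] (Q : N[X]) (s : Γ)
    (h : v (Q.coeff 0) < v (Q.coeff 1) * s) : ∃ δ, Q.eval δ = 0 ∧ v δ < s := by
  by_cases h0 : Q.coeff 0 = 0
  · refine ⟨0, ?_, ?_⟩
    · rw [← coeff_zero_eq_eval_zero, h0]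
    · rw [v.map_zero]
      rw [h0, v.map_zero] at h
      exact pos_of_mul_pos_right h zero_le
  · by_contra hcon
    push Not at hcon
    have := coeff_bound v s _ Q rfl h0 hcon 1
    rw [pow_one] at this
    exact absurd h (not_lt.mpr this)


theorem pow_sub_pow_le (ρ : Γ) (x y : N) (hx : v x ≤ ρ) (hy : v y ≤ ρ) :
    ∀ j, v (x ^ (j + 1) - y ^ (j + 1)) ≤ v (x - y) * ρ ^ j := by
  intro j
  induction j with
  | zero => simp
  | succ j ih =>
    have e : x ^ (j + 1 + 1) - y ^ (j + 1 + 1) =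
        x * (x ^ (j + 1) - y ^ (j + 1)) + (x - y) * y ^ (j + 1) := by ring
    rw [e]
    apply v.map_add_le
    · rw [v.map_mul, pow_succ ρ, ← mul_assoc, mul_comm (v x)]
      exact mul_le_mul' ih hx
    · rw [v.map_mul, v.map_pow]
      exact mul_le_mul' le_rfl (pow_le_pow_left₀ zero_le hy _)

theorem unique_small_root (Q : N[X]) (ρ : Γ) (h1 : Q.coeff 1 ≠ 0)
    (hb : ∀ j, v (Q.coeff (j + 2)) * ρ ^ (j + 1) < v (Q.coeff 1)) (x y : N)
    (hx : v x ≤ ρ) (hy : v y ≤ ρ) (hQx : Q.eval x = 0) (hQy : Q.eval y = 0) : x = y := by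
  by_contra hne
  have hxy : x - y ≠ 0 := sub_ne_zero.mpr hne
  have hvxy : v (x - y) ≠ 0 := (map_ne_zero v).mpr hxy
  obtain ⟨n, hn⟩ : ∃ n, Q.natDegree < n + 2 := ⟨Q.natDegree, by omega⟩
  have ex : Q.eval x = ∑ k ∈ Finset.range (n + 2), Q.coeff k * x ^ k :=
    eval_eq_sum_range' hn x
  have ey : Q.eval y = ∑ k ∈ Finset.range (n + 2), Q.coeff k * y ^ k :=
    eval_eq_sum_range' hn y
  have hs : ∑ k ∈ Finset.range n, Q.coeff (k + 2) * (x ^ (k + 2) - y ^ (k + 2)) =
      - (Q.coeff 1 * (x - y)) := by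
    have e : ∑ k ∈ Finset.range (n + 2), Q.coeff k * x ^ k -
        ∑ k ∈ Finset.range (n + 2), Q.coeff k * y ^ k = 0 := by
      rw [← ex, ← ey, hQx, hQy, sub_zero]
    rw [← Finset.sum_sub_distrib, Finset.sum_range_succ', Finset.sum_range_succ'] at e
    simp only [zero_add, pow_one, pow_zero, mul_one, sub_self, add_zero] at e
    have e2 : ∑ k ∈ Finset.range n, Q.coeff (k + 2) * (x ^ (k + 2) - y ^ (k + 2)) =
        ∑ k ∈ Finset.range n,
          (Q.coeff (k + 1 + 1) * x ^ (k + 1 + 1) - Q.coeff (k + 1 + 1) * y ^ (k + 1 + 1)) := by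
      apply Finset.sum_congr rfl
      intro k _
      ring
    rw [e2]
    linear_combination e
  have hlt : v (∑ k ∈ Finset.range n, Q.coeff (k + 2) * (x ^ (k + 2) - y ^ (k + 2))) <
      v (Q.coeff 1) * v (x - y) := by
    apply v.map_sum_lt
    · exact mul_ne_zero ((map_ne_zero v).mpr h1) hvxy
    · intro k _
      rw [v.map_mul]
      calc v (Q.coeff (k + 2)) * v (x ^ (k + 2) - y ^ (k + 2))
          ≤ v (Q.coeff (k + 2)) * (v (x - y) * ρ ^ (k + 1)) :=
            mul_le_mul' le_rfl (pow_sub_pow_le v ρ x y hx hy (k + 1))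
        _ = (v (Q.coeff (k + 2)) * ρ ^ (k + 1)) * v (x - y) := by
            rw [mul_comm (v (x - y)), mul_assoc]
        _ < v (Q.coeff 1) * v (x - y) :=
            mul_lt_mul_of_pos_right (hb k) (zero_lt_iff.mpr hvxy)
  rw [hs, v.map_neg, v.map_mul] at hlt
  exact lt_irrefl _ hlt

/-- Rolle's theorem at the origin. -/
theorem rolle0 [IsAlgClosed N] (hchar : ∀ n : ℕ, n ≠ 0 → v (n : N) = 1) (Q : N[X])
    (h0 : Q.coeff 0 = 0) (h1 : Q.coeff 1 ≠ 0) (z₂ : N) (hz₂ : Q.eval z₂ = 0) (hne : z₂ ≠ 0)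
    (hmin : ∀ z, Q.eval z = 0 → z ≠ 0 → v z₂ ≤ v z) :
    ∃ c, Q.derivative.eval c = 0 ∧ v c = v z₂ := by
  set T := Q.divX with hT
  have hTc : ∀ j, T.coeff j = Q.coeff (j + 1) := fun j => by rw [hT, coeff_divX]
  have hQT : Q = T * X := by
    have := Q.divX_mul_X_add
    rw [h0, C_0, add_zero] at this
    exact this.symm
  have hQe : ∀ z, Q.eval z = T.eval z * z := fun z => by
    conv_lhs => rw [hQT]
    simp
  have hT0 : T.coeff 0 ≠ 0 := by rw [hTc]; exact h1
  have hTz : ∀ z, T.eval z = 0 → v z₂ ≤ v z := by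
    intro z hz
    apply hmin z (by rw [hQe, hz, zero_mul])
    rintro rfl
    rw [← coeff_zero_eq_eval_zero] at hz
    exact hT0 hz
  have hT2 : T.eval z₂ = 0 := by
    rw [hQe] at hz₂
    exact (mul_eq_zero.mp hz₂).resolve_right hne
  have hb := coeff_bound v (v z₂) _ T rfl hT0 hTz
  have hdc : ∀ j, v (Q.derivative.coeff j) = v (T.coeff j) := by
    intro j
    rw [coeff_derivative, v.map_mul, hTc]
    have := hchar (j + 1) (by omega)
    push_cast at this
    rw [this, mul_one]
  have hd0 : Q.derivative.coeff 0 ≠ 0 := by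
    intro h
    have := hdc 0
    rw [h, v.map_zero] at this
    exact hT0 ((map_eq_zero v).mp this.symm)
  have hvz : v z₂ ≠ 0 := (map_ne_zero v).mpr hne
  have hT0v : 0 < v (T.coeff 0) := zero_lt_iff.mpr ((map_ne_zero v).mpr hT0)
  -- every root of the derivative has value ≥ v z₂
  have hge : ∀ c, Q.derivative.eval c = 0 → v z₂ ≤ v c := by
    intro c hc
    by_contra hlt
    push Not at hlt
    refine eval_ne_zero_of v Q.derivative c hd0 ?_ hc
    intro j hj
    rw [hdc, hdc]
    rcases eq_or_ne (v (T.coeff j)) 0 with h | h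
    · rw [h, zero_mul]; exact hT0v
    · refine lt_of_lt_of_le ?_ (hb j)
      exact mul_lt_mul_of_pos_left (pow_lt_pow_left₀ hlt zero_le (by omega)) (zero_lt_iff.mpr h)
  by_contra hcon
  push Not at hcon
  have hgt : ∀ c, Q.derivative.eval c = 0 → v z₂ < v c := fun c hc =>
    lt_of_le_of_ne (hge c hc) (fun h => hcon c hc h.symm)
  have hb2 := coeff_bound_lt v (v z₂) _ Q.derivative rfl hd0 hgt
  refine eval_ne_zero_of v T z₂ hT0 ?_ hT2
  intro j hj
  have := hb2 j hj
  rwa [hdc, hdc] at this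

theorem coeff_comp_shift_zero (P : N[X]) (α : N) : (P.comp (X + C α)).coeff 0 = P.eval α := by
  rw [coeff_zero_eq_eval_zero, eval_comp]; simp

theorem coeff_comp_shift_one (P : N[X]) (α : N) :
    (P.comp (X + C α)).coeff 1 = P.derivative.eval α := by
  have h := coeff_derivative (P.comp (X + C α)) 0
  rw [derivative_comp] at h
  simp only [derivative_add, derivative_X, derivative_C, add_zero, one_mul, zero_add, Nat.cast_zero,
    mul_one] at h
  rw [← h, coeff_comp_shift_zero]

/-- Rolle's theorem for algebraically closed valued fields of residue characteristic zero. -/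
theorem rolle [IsAlgClosed N] (hchar : ∀ n : ℕ, n ≠ 0 → v (n : N) = 1) (P : N[X]) (α : N)
    (hα : P.eval α = 0) (hs : P.derivative.eval α ≠ 0) (α₂ : N) (h₂ : P.eval α₂ = 0)
    (hne : α₂ ≠ α) (hmin : ∀ z, P.eval z = 0 → z ≠ α → v (α₂ - α) ≤ v (z - α)) :
    ∃ c, P.derivative.eval c = 0 ∧ v (c - α) = v (α₂ - α) := by
  obtain ⟨c, hc, hvc⟩ := rolle0 v hchar (P.comp (X + C α)) (by rw [coeff_comp_shift_zero, hα])
    (by rw [coeff_comp_shift_one]; exact hs) (α₂ - α) (by rw [eval_comp]; simp [h₂])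
    (sub_ne_zero.mpr hne) (by
      intro z hz hz0
      have := hmin (z + α) (by rw [eval_comp] at hz; simpa using hz) (by simpa using hz0)
      simpa using this)
  refine ⟨c + α, ?_, by simpa using hvc⟩
  rw [derivative_comp, eval_mul] at hc
  simp only [derivative_add, derivative_X, derivative_C, add_zero, eval_one, one_mul, eval_comp,
    eval_add, eval_X, eval_C] at hc
  exact hc

end Pool.Agent.HM
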