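import Mathlib
import Pool.Agent.W_MP_4ae68b_lc.Alg1

set_option autoImplicit false

namespace Pool.Agent.HM

open Polynomial

variable {N : Type*} [Field N] {Γ : Type*} [LinearOrderedCommGroupWithZero Γ]

/-- An abstract (same leading term) relation between elements of a valued field. -/
structure Compat (v : Valuation N Γ) (R : N → N → Prop) (l : Γ) : Prop where
  zero : R 0 0
  one : R 1 1
  val : ∀ {x x'}, R x x' → v x = v x'
  mul : ∀ {x x' y y'}, R x x' → R y y' → R (x * y) (x' * y')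
  inv : ∀ {x x'}, R x x' → R x⁻¹ x'⁻¹
  add : ∃ A : N → AddSubgroup (N × N), ∀ m, m ≠ 0 →
    (∀ x x', R x x' → v x ≤ v m → (x, x') ∈ A m) ∧
    (∀ x x', (x, x') ∈ A m → v x = v m → R x x') ∧
    (∀ x', (0, x') ∈ A m → v x' < l * v m)
  right : ∀ {x x' x''}, R x x' → v (x' - x'') < l * v x' → R x x''
  uniq : ∀ {x x' x''}, R x x' → R x x'' → x ≠ 0 → v (x' - x'') < v x'
  l_le : l ≤ 1

namespace Compat

variable {v : Valuation N Γ} {R : N → N → Prop} {l : Γ}

theorem neg (h : Compat v R l) {x x' : N} (hx : R x x') : R (-x) (-x') := by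
  by_cases h0 : x = 0
  · have : x' = 0 := by
      have := h.val hx
      rw [h0, v.map_zero] at this
      exact (map_eq_zero v).mp this.symm
    rw [h0, this, neg_zero]; exact h.zero
  · obtain ⟨A, hA⟩ := h.add
    obtain ⟨h1, h2, _⟩ := hA x h0
    exact h2 _ _ (by simpa using (A x).neg_mem (h1 x x' hx le_rfl)) (v.map_neg x)

theorem natCast (h : Compat v R l) (hchar : ∀ n : ℕ, n ≠ 0 → v (n : N) = 1) (n : ℕ) :
    R (n : N) (n : N) := by
  rcases Nat.eq_zero_or_pos n with rfl | hn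
  · simpa using h.zero
  · obtain ⟨A, hA⟩ := h.add
    obtain ⟨h1, h2, _⟩ := hA 1 one_ne_zero
    have : ((n : N), (n : N)) ∈ A 1 := by
      have e : ((n : N), (n : N)) = n • ((1 : N), (1 : N)) := by simp
      rw [e]
      exact (A 1).nsmul_mem (h1 1 1 h.one le_rfl) n
    exact h2 _ _ this (by rw [hchar n (by omega), v.map_one])

/-- sums without cancellation. -/
theorem add₂ (h : Compat v R l) {x x' y y' : N} (hx : R x x') (hy : R y y')
    (hxy : v x ≤ v (x + y)) (hyx : v y ≤ v (x + y)) : R (x + y) (x' + y') := by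
  by_cases h0 : x + y = 0
  · rw [h0, v.map_zero] at hxy hyx
    have hx0 : x = 0 := (map_eq_zero v).mp (le_antisymm hxy zero_le)
    have hy0 : y = 0 := (map_eq_zero v).mp (le_antisymm hyx zero_le)
    have hx'0 : x' = 0 := (map_eq_zero v).mp (by rw [← h.val hx, hx0, v.map_zero])
    have hy'0 : y' = 0 := (map_eq_zero v).mp (by rw [← h.val hy, hy0, v.map_zero])
    rw [hx0, hy0, hx'0, hy'0, add_zero]; exact h.zero
  · obtain ⟨A, hA⟩ := h.add
    obtain ⟨h1, h2, _⟩ := hA (x + y) h0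
    exact h2 _ _ (by simpa using (A (x + y)).add_mem (h1 _ _ hx hxy) (h1 _ _ hy hyx)) rfl

theorem eq_zero_iff (h : Compat v R l) {x x' : N} (hx : R x x') : x = 0 ↔ x' = 0 := by
  rw [← map_eq_zero v, ← map_eq_zero v (a := x'), h.val hx]

end Compat

theorem val_nat_le (v : Valuation N Γ) (hchar : ∀ n : ℕ, n ≠ 0 → v (n : N) = 1) (n : ℕ) :
    v (n : N) ≤ 1 := by
  rcases Nat.eq_zero_or_pos n with rfl | hn
  · simp
  · exact (hchar n (by omega)).le

theorem shift_bound (v : Valuation N Γ) (hchar : ∀ n : ℕ, n ≠ 0 → v (n : N) = 1) (Q : N[X])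
    (r M : Γ) (hb : ∀ j, v (Q.coeff j) * r ^ j ≤ M) (α : N) (hα : v α ≤ r) (k : ℕ) :
    v ((Q.comp (X + C α)).coeff k) * r ^ k ≤ M := by
  rcases eq_or_ne (v ((Q.comp (X + C α)).coeff k) * r ^ k) 0 with h0 | h0
  · rw [h0]; exact zero_le
  have hr : r ^ k ≠ 0 := right_ne_zero_of_mul h0
  have e : (Q.comp (X + C α)).coeff k =
      ∑ j ∈ Q.support, Q.coeff j * (α ^ (j - k) * (j.choose k : N)) := by
    rw [comp_eq_sum_left, sum_def, finset_sum_coeff]
    apply Finset.sum_congr rfl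
    intro j _
    rw [coeff_C_mul, coeff_X_add_C_pow]
  have : v ((Q.comp (X + C α)).coeff k) ≤ M * (r ^ k)⁻¹ := by
    rw [e]
    apply v.map_sum_le
    intro j _
    rw [← div_eq_mul_inv, le_div_iff₀ (zero_lt_iff.mpr hr)]
    by_cases hkj : k ≤ j
    · calc v (Q.coeff j * (α ^ (j - k) * (j.choose k : N))) * r ^ k
          = v (Q.coeff j) * (v α ^ (j - k) * v (j.choose k : N)) * r ^ k := by
            rw [v.map_mul, v.map_mul, v.map_pow]
        _ ≤ v (Q.coeff j) * (r ^ (j - k) * 1) * r ^ k := by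
            refine mul_le_mul' (mul_le_mul' le_rfl (mul_le_mul' (pow_le_pow_left₀ zero_le hα _)
              (val_nat_le v hchar _))) le_rfl
        _ = v (Q.coeff j) * r ^ j := by
            rw [mul_one, mul_assoc, ← pow_add, Nat.sub_add_cancel hkj]
        _ ≤ M := hb j
    · rw [Nat.choose_eq_zero_of_lt (by omega)]
      simp
  calc v ((Q.comp (X + C α)).coeff k) * r ^ k ≤ M * (r ^ k)⁻¹ * r ^ k := mul_le_mul' this le_rfl
    _ = M := by rw [mul_assoc, inv_mul_cancel₀ hr, mul_one]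

theorem mul_derivative_eval (p : N[X]) (x : N) (n : ℕ) (hn : p.natDegree < n) :
    x * p.derivative.eval x = ∑ k ∈ Finset.range n, (k : N) * (p.coeff k * x ^ k) := by
  rw [derivative_eval, p.sum_over_range' _ n hn, Finset.mul_sum]
  · apply Finset.sum_congr rfl
    intro k _
    rcases Nat.eq_zero_or_pos k with rfl | hk
    · simp
    · obtain ⟨i, rfl⟩ : ∃ i, k = i + 1 := ⟨k - 1, by omega⟩
      rw [Nat.add_sub_cancel, pow_succ]; ring
  · intro k; simp

/-- The root lifting lemma. -/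
theorem lift_root [IsAlgClosed N] {v : Valuation N Γ} {R : N → N → Prop} {l : Γ}
    (hchar : ∀ n : ℕ, n ≠ 0 → v (n : N) = 1) (h : Compat v R l) (p p' : N[X])
    (hpp : ∀ k, R (p.coeff k) (p'.coeff k)) (α : N) (hα0 : α ≠ 0) (hα : p.eval α = 0)
    (hs : p.derivative.eval α ≠ 0)
    (hiso : ∀ z, p.eval z = 0 → z ≠ α → v α ≤ v (z - α)) (x₀ : N) (hx₀ : R α x₀) :
    ∃ β, p'.eval β = 0 ∧ R α β ∧ ∀ β', p'.eval β' = 0 → R α β' → β' = β := by
  have hvα : v α ≠ 0 := (map_ne_zero v).mpr hα0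
  have hvx : v x₀ = v α := (h.val hx₀).symm
  set Q := p.comp (X + C α) with hQ
  have hQ0 : Q.coeff 0 = 0 := by rw [hQ, coeff_comp_shift_zero, hα]
  have hQ1 : Q.coeff 1 = p.derivative.eval α := by rw [hQ, coeff_comp_shift_one]
  set m := α * p.derivative.eval α with hm
  have hm0 : m ≠ 0 := mul_ne_zero hα0 hs
  have hvm : v m = v (Q.coeff 1) * v α := by rw [hm, v.map_mul, hQ1, mul_comm]
  -- bound for the coefficients of Q
  have hQb : ∀ j, v (Q.coeff j) * v α ^ j ≤ v m := by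
    intro j
    rcases Nat.eq_zero_or_pos j with rfl | hj
    · rw [hQ0]; simp
    · obtain ⟨i, rfl⟩ : ∃ i, j = i + 1 := ⟨j - 1, by omega⟩
      have hTc : ∀ j, Q.divX.coeff j = Q.coeff (j + 1) := fun j => by rw [coeff_divX]
      have hQT : Q = Q.divX * X := by
        have := Q.divX_mul_X_add
        rw [hQ0, C_0, add_zero] at this
        exact this.symm
      have hT0 : Q.divX.coeff 0 ≠ 0 := by rw [hTc, hQ1]; exact hs
      have hb := coeff_bound v (v α) _ Q.divX rfl hT0 (by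
        intro z hz
        have hz0 : z ≠ 0 := by
          rintro rfl
          rw [← coeff_zero_eq_eval_zero] at hz
          exact hT0 hz
        have hQz : Q.eval z = 0 := by rw [hQT, eval_mul, hz, zero_mul]
        have := hiso (z + α) (by rw [hQ, eval_comp] at hQz; simpa using hQz) (by simpa using hz0)
        simpa using this) i
      rw [hTc, hTc] at hb
      rw [hvm, pow_succ, ← mul_assoc]
      exact mul_le_mul' hb le_rfl
  have hpQ : p = Q.comp (X + C (-α)) := by
    rw [hQ, comp_assoc]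
    simp
  have hpb : ∀ k, v (p.coeff k) * v α ^ k ≤ v m := by
    intro k
    rw [hpQ]
    exact shift_bound v hchar Q (v α) (v m) hQb (-α) (by rw [v.map_neg]) k
  have hpb' : ∀ k, v (p'.coeff k) * v α ^ k ≤ v m := by
    intro k
    rw [← h.val (hpp k)]
    exact hpb k
  obtain ⟨A, hA⟩ := h.add
  obtain ⟨hA1, hA2, hA3⟩ := hA m hm0
  have hpow : ∀ k, R (α ^ k) (x₀ ^ k) := by
    intro k
    induction k with
    | zero => simpa using h.one
    | succ k ih => rw [pow_succ, pow_succ]; exact h.mul ih hx₀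
  have hterm : ∀ k, (p.coeff k * α ^ k, p'.coeff k * x₀ ^ k) ∈ A m := fun k =>
    hA1 _ _ (h.mul (hpp k) (hpow k)) (by rw [v.map_mul, v.map_pow]; exact hpb k)
  obtain ⟨n, hn1, hn2⟩ : ∃ n, p.natDegree < n ∧ p'.natDegree < n :=
    ⟨max p.natDegree p'.natDegree + 1, by omega, by omega⟩
  have hx0s : v (p'.eval x₀) < l * v m := by
    apply hA3
    have e : ((0 : N), p'.eval x₀) =
        ∑ k ∈ Finset.range n, (p.coeff k * α ^ k, p'.coeff k * x₀ ^ k) := by
      rw [Prod.ext_iff, Prod.fst_sum, Prod.snd_sum]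
      exact ⟨by rw [← hα, eval_eq_sum_range' hn1], by rw [eval_eq_sum_range' hn2]⟩
    rw [e]
    exact (A m).sum_mem fun k _ => hterm k
  have hx1s : v (x₀ * p'.derivative.eval x₀) = v m := by
    have e : (m, x₀ * p'.derivative.eval x₀) =
        ∑ k ∈ Finset.range n, ((k : N) * (p.coeff k * α ^ k), (k : N) * (p'.coeff k * x₀ ^ k)) := by
      rw [Prod.ext_iff, Prod.fst_sum, Prod.snd_sum]
      exact ⟨mul_derivative_eval p α n hn1, mul_derivative_eval p' x₀ n hn2⟩
    have hmem : (m, x₀ * p'.derivative.eval x₀) ∈ A m := by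
      rw [e]
      refine (A m).sum_mem fun k _ => ?_
      have : ((k : N) * (p.coeff k * α ^ k), (k : N) * (p'.coeff k * x₀ ^ k)) =
          k • (p.coeff k * α ^ k, p'.coeff k * x₀ ^ k) := by
        simp
      rw [this]
      exact (A m).nsmul_mem (hterm k) k
    exact (h.val (hA2 _ _ hmem rfl)).symm
  set Q' := p'.comp (X + C x₀) with hQ'
  have hQ'0 : Q'.coeff 0 = p'.eval x₀ := by rw [hQ', coeff_comp_shift_zero]
  have hQ'1 : Q'.coeff 1 = p'.derivative.eval x₀ := by rw [hQ', coeff_comp_shift_one]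
  have hvm' : v m = v (Q'.coeff 1) * v α := by
    rw [← hx1s, v.map_mul, hQ'1, hvx, mul_comm]
  have hQ'b : ∀ j, v (Q'.coeff j) * v α ^ j ≤ v m := fun j =>
    shift_bound v hchar p' (v α) (v m) hpb' x₀ hvx.le j
  have hQ'1ne : Q'.coeff 1 ≠ 0 := by
    intro h0
    rw [h0, v.map_zero, zero_mul] at hvm'
    exact hm0 ((map_eq_zero v).mp hvm')
  obtain ⟨δ, hδ, hvδ⟩ := exists_small_root v Q' (l * v α) (by
    rw [hQ'0]
    calc v (p'.eval x₀) < l * v m := hx0s
      _ = v (Q'.coeff 1) * (l * v α) := by rw [hvm', ← mul_assoc, mul_comm l, mul_assoc])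
  have hβeval : ∀ z, Q'.eval z = 0 ↔ p'.eval (x₀ + z) = 0 := by
    intro z
    rw [hQ', eval_comp]
    simp [add_comm]
  have hRβ : R α (x₀ + δ) := by
    apply h.right hx₀
    rw [sub_add_cancel_left, v.map_neg, hvx]
    exact hvδ
  refine ⟨x₀ + δ, (hβeval δ).mp hδ, hRβ, ?_⟩
  intro β' hβ' hRβ'
  have hδα : v δ < v α := lt_of_lt_of_le hvδ (by
    calc l * v α ≤ 1 * v α := mul_le_mul' h.l_le le_rfl
      _ = v α := one_mul _)
  have hdiff : v (β' - (x₀ + δ)) < v α := by
    have := h.uniq hRβ' hRβ hα0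
    rwa [← h.val hRβ'] at this
  have hδ' : v (β' - x₀) < v α := by
    have e : β' - x₀ = (β' - (x₀ + δ)) + δ := by ring
    rw [e]
    exact v.map_add_lt hdiff hδα
  have key := unique_small_root v Q' (max (v δ) (v (β' - x₀))) hQ'1ne (by
    intro j
    have hρ : max (v δ) (v (β' - x₀)) < v α := max_lt hδα hδ'
    rcases eq_or_ne (v (Q'.coeff (j + 2))) 0 with h0 | h0
    · rw [h0, zero_mul]; exact zero_lt_iff.mpr ((map_ne_zero v).mpr hQ'1ne)
    · have h1 : v (Q'.coeff (j + 2)) * v α ^ (j + 1) ≤ v (Q'.coeff 1) := by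
        have := hQ'b (j + 2)
        rw [hvm', pow_succ, ← mul_assoc] at this
        exact le_of_mul_le_mul_right this (zero_lt_iff.mpr hvα)
      refine lt_of_lt_of_le ?_ h1
      exact mul_lt_mul_of_pos_left (pow_lt_pow_left₀ hρ zero_le (by omega)) (zero_lt_iff.mpr h0))
    δ (β' - x₀) (le_max_left _ _) (le_max_right _ _) hδ
    ((hβeval _).mpr (by rw [add_sub_cancel]; exact hβ'))
  rw [key]; ring

end Pool.Agent.HM
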