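import Mathlib
import Pool.Agent.W_MP_4ae68b_lc.Defs
import Pool.Agent.W_MP_4ae68b_lc.Compat

set_option autoImplicit false

namespace Pool.Agent.HM

open scoped Polynomial

section

variable {N : Type} [Field N] (V : ValuationSubring N)

theorem vlt_iff (x y : N) : vlt (V : Set N) x y ↔ V.valuation x < V.valuation y := by
  constructor
  · rintro ⟨hy, z, hz, rfl, hw⟩
    have hz1 : V.valuation z ≤ 1 := (V.valuation_le_one_iff z).mpr hz
    have hz2 : V.valuation z ≠ 1 := by
      intro h1
      have hz0 : z ≠ 0 := by rintro rfl; simp at h1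
      refine hw z⁻¹ ?_ (mul_inv_cancel₀ hz0)
      have : V.valuation z⁻¹ ≤ 1 := by rw [map_inv₀, h1, inv_one]
      exact (V.valuation_le_one_iff _).mp this
    rw [map_mul]
    have hy' : 0 < V.valuation y := zero_lt_iff.mpr ((map_ne_zero _).mpr hy)
    calc V.valuation z * V.valuation y < 1 * V.valuation y :=
          mul_lt_mul_of_pos_right (lt_of_le_of_ne hz1 hz2) hy'
      _ = V.valuation y := one_mul _
  · intro h
    have hy : y ≠ 0 := by
      rintro rfl
      rw [map_zero] at h
      exact absurd h (not_lt.mpr zero_le)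
    have hy' : 0 < V.valuation y := zero_lt_iff.mpr ((map_ne_zero _).mpr hy)
    have hz : V.valuation (x / y) < 1 := by
      rw [map_div₀, div_lt_one₀ hy']; exact h
    refine ⟨hy, x / y, (V.valuation_le_one_iff _).mp hz.le, (div_mul_cancel₀ x hy).symm, ?_⟩
    intro w hw hw1
    have h1 := congrArg V.valuation hw1
    rw [map_mul, map_one] at h1
    have hw2 : V.valuation w ≤ 1 := (V.valuation_le_one_iff w).mpr hw
    have : V.valuation (x / y) * V.valuation w < 1 :=
      mul_lt_one_of_lt_of_le hz hw2
    rw [h1] at this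
    exact lt_irrefl _ this

theorem veq_iff (x y : N) : veq (V : Set N) x y ↔ V.valuation x = V.valuation y := by
  constructor
  · rintro ⟨z, hz, rfl, w, hw, hzw⟩
    have hz1 : V.valuation z ≤ 1 := (V.valuation_le_one_iff z).mpr hz
    have hw1 : V.valuation w ≤ 1 := (V.valuation_le_one_iff w).mpr hw
    have h1 := congrArg V.valuation hzw
    rw [map_mul, map_one] at h1
    have : V.valuation z = 1 := by
      apply le_antisymm hz1
      by_contra hlt
      push Not at hlt
      have := mul_lt_one_of_lt_of_le hlt hw1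
      rw [h1] at this
      exact lt_irrefl _ this
    rw [map_mul, this, one_mul]
  · intro h
    by_cases hy : y = 0
    · subst hy
      rw [map_zero, map_eq_zero] at h
      exact ⟨1, V.one_mem, by rw [h]; ring, 1, V.one_mem, by ring⟩
    · have hvy : V.valuation y ≠ 0 := (map_ne_zero _).mpr hy
      have hx : x ≠ 0 := by
        rintro rfl
        rw [map_zero] at h
        exact hvy h.symm
      have hz : V.valuation (x / y) = 1 := by rw [map_div₀, h, div_self hvy]
      refine ⟨x / y, (V.valuation_le_one_iff _).mp hz.le, (div_mul_cancel₀ x hy).symm, (x / y)⁻¹,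
        (V.valuation_le_one_iff _).mp ?_, mul_inv_cancel₀ (div_ne_zero hx hy)⟩
      rw [map_inv₀, hz, inv_one]

theorem rvEq_iff (l x y : N) : rvEq (V : Set N) l x y ↔ (x = 0 ∧ y = 0) ∨
    (x ≠ 0 ∧ y ≠ 0 ∧ V.valuation (x - y) < V.valuation l * V.valuation x) := by
  unfold rvEq
  rw [vlt_iff, map_mul]

/-- The relation `rv_λ(x) = rv_λ(y)` is a compatible relation. -/
theorem compat_rv (l : N) (hl : l ≠ 0) (hlV : l ∈ V) :
    Compat V.valuation (rvEq (V : Set N) l) (V.valuation l) := by
  have hvl : 0 < V.valuation l := zero_lt_iff.mpr ((map_ne_zero _).mpr hl)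
  have hl1 : V.valuation l ≤ 1 := (V.valuation_le_one_iff l).mpr hlV
  have hpos : ∀ {x : N}, x ≠ 0 → 0 < V.valuation x := fun h =>
    zero_lt_iff.mpr ((map_ne_zero _).mpr h)
  have hlx : ∀ x : N, V.valuation l * V.valuation x ≤ V.valuation x := fun x => by
    calc V.valuation l * V.valuation x ≤ 1 * V.valuation x := mul_le_mul' hl1 le_rfl
      _ = _ := one_mul _
  have hval : ∀ {x x' : N}, rvEq (V : Set N) l x x' → V.valuation x = V.valuation x' := by
    intro x x' h
    rw [rvEq_iff] at h
    rcases h with ⟨rfl, rfl⟩ | ⟨_, _, h⟩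
    · rfl
    · have h2 : V.valuation (x - x') < V.valuation x := lt_of_lt_of_le h (hlx x)
      have e : x' = x - (x - x') := by ring
      rw [e]
      exact (Valuation.map_sub_eq_of_lt_left _ h2).symm
  refine ⟨Or.inl ⟨rfl, rfl⟩, ?_, hval, ?_, ?_, ?_, ?_, ?_, hl1⟩
  · rw [rvEq_iff]
    exact Or.inr ⟨one_ne_zero, one_ne_zero, by simpa using hvl⟩
  · intro x x' y y' hx hy
    have hvx := hval hx
    have hvy := hval hy
    rw [rvEq_iff] at hx hy ⊢
    rcases hx with ⟨rfl, rfl⟩ | ⟨hx0, hx'0, hx⟩
    · left; simp
    rcases hy with ⟨rfl, rfl⟩ | ⟨hy0, hy'0, hy⟩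
    · left; simp
    right
    refine ⟨mul_ne_zero hx0 hy0, mul_ne_zero hx'0 hy'0, ?_⟩
    have e : x * y - x' * y' = x * (y - y') + (x - x') * y' := by ring
    rw [e, map_mul V.valuation x y]
    apply Valuation.map_add_lt
    · rw [map_mul]
      calc V.valuation x * V.valuation (y - y') < V.valuation x * (V.valuation l * V.valuation y) :=
            mul_lt_mul_of_pos_left hy (hpos hx0)
        _ = _ := by rw [mul_left_comm]
    · rw [map_mul, ← hvy, ← mul_assoc]
      exact mul_lt_mul_of_pos_right hx (hpos hy0)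
  · intro x x' hx
    have hvx := hval hx
    rw [rvEq_iff] at hx ⊢
    rcases hx with ⟨rfl, rfl⟩ | ⟨hx0, hx'0, hx⟩
    · left; simp
    right
    refine ⟨inv_ne_zero hx0, inv_ne_zero hx'0, ?_⟩
    have e : x⁻¹ - x'⁻¹ = -((x - x') * (x⁻¹ * x'⁻¹)) := by field_simp; ring
    rw [e, Valuation.map_neg, map_mul, map_mul, map_inv₀, map_inv₀, ← hvx]
    calc V.valuation (x - x') * ((V.valuation x)⁻¹ * (V.valuation x)⁻¹)
        < (V.valuation l * V.valuation x) * ((V.valuation x)⁻¹ * (V.valuation x)⁻¹) := by
          apply mul_lt_mul_of_pos_right hx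
          have := hpos (inv_ne_zero hx0)
          rw [map_inv₀] at this
          exact mul_pos this this
      _ = V.valuation l * (V.valuation x)⁻¹ := by
          rw [mul_assoc, mul_inv_cancel_left₀ (hpos hx0).ne']
  · refine ⟨fun m =>
      { carrier := {p | m = 0 ∨ V.valuation (p.1 - p.2) < V.valuation l * V.valuation m}
        add_mem' := ?_
        zero_mem' := ?_
        neg_mem' := ?_ }, ?_⟩
    · rintro a b (ha | ha) hb
      · exact Or.inl ha
      · rcases hb with hb | hb
        · exact Or.inl hb
        · right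
          have e : (a + b).1 - (a + b).2 = (a.1 - a.2) + (b.1 - b.2) := by
            simp only [Prod.fst_add, Prod.snd_add]; ring
          rw [e]
          exact Valuation.map_add_lt _ ha hb
    · by_cases hm : m = 0
      · exact Or.inl hm
      · right
        simpa using mul_pos hvl (hpos hm)
    · rintro a (ha | ha)
      · exact Or.inl ha
      · right
        have e : (-a).1 - (-a).2 = -(a.1 - a.2) := by
          simp only [Prod.fst_neg, Prod.snd_neg]; ring
        rw [e, Valuation.map_neg]
        exact ha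
    · intro m hm
      refine ⟨?_, ?_, ?_⟩
      · intro x x' hx hxm
        right
        rw [rvEq_iff] at hx
        rcases hx with ⟨rfl, rfl⟩ | ⟨_, _, hx⟩
        · simpa using mul_pos hvl (hpos hm)
        · exact lt_of_lt_of_le hx (mul_le_mul' le_rfl hxm)
      · intro x x' hx hxm
        rcases hx with hx | hx
        · exact (hm hx).elim
        rw [← hxm] at hx
        simp only at hx
        have hx0 : x ≠ 0 := by
          rintro rfl
          rw [map_zero] at hxm
          exact (hpos hm).ne hxm
        rw [rvEq_iff]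
        refine Or.inr ⟨hx0, ?_, hx⟩
        rintro rfl
        rw [sub_zero] at hx
        exact absurd hx (not_lt.mpr (hlx x))
      · intro x' hx
        rcases hx with hx | hx
        · exact (hm hx).elim
        simpa using hx
  · intro x x' x'' hx h
    have hvx := hval hx
    rw [rvEq_iff] at hx ⊢
    rcases hx with ⟨rfl, rfl⟩ | ⟨hx0, hx'0, hx⟩
    · rw [map_zero, mul_zero] at h
      exact absurd h (not_lt.mpr zero_le)
    right
    refine ⟨hx0, ?_, ?_⟩
    · rintro rfl
      rw [sub_zero] at h
      exact absurd h (not_lt.mpr (hlx x'))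
    · have e : x - x'' = (x - x') + (x' - x'') := by ring
      rw [e]
      exact Valuation.map_add_lt _ hx (by rw [hvx]; exact h)
  · intro x x' x'' h1 h2 hx0
    have hv1 := hval h1
    rw [rvEq_iff] at h1 h2
    rcases h1 with ⟨h1, _⟩ | ⟨_, _, h1⟩
    · exact (hx0 h1).elim
    rcases h2 with ⟨h2, _⟩ | ⟨_, _, h2⟩
    · exact (hx0 h2).elim
    have e : x' - x'' = (x - x'') - (x - x') := by ring
    rw [e, ← hv1]
    exact Valuation.map_sub_lt _ (lt_of_lt_of_le h2 (hlx x)) (lt_of_lt_of_le h1 (hlx x))

theorem hchar_of [CharZero N] (h : ∀ n : ℕ, (n : N)⁻¹ ∈ V) (n : ℕ) (hn : n ≠ 0) :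
    V.valuation (n : N) = 1 := by
  have h1 : V.valuation (n : N) ≤ 1 := (V.valuation_le_one_iff _).mpr (natCast_mem V n)
  have h2 : V.valuation (n : N)⁻¹ ≤ 1 := (V.valuation_le_one_iff _).mpr (h n)
  have hn0 : (n : N) ≠ 0 := Nat.cast_ne_zero.mpr hn
  rw [map_inv₀, inv_le_one₀ (zero_lt_iff.mpr ((map_ne_zero _).mpr hn0))] at h2
  exact le_antisymm h1 h2

end

section algCl

variable {N : Type} [Field N]

/-- The relative algebraic closure of a set. -/
noncomputable def algCl (s : Set N) : Subfield N where
  carrier := {x | IsAlgebraic (Subring.closure s) x}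
  mul_mem' ha hb := IsAlgebraic.mul ha hb
  one_mem' := isAlgebraic_one
  add_mem' ha hb := IsAlgebraic.add ha hb
  zero_mem' := isAlgebraic_zero
  neg_mem' ha := IsAlgebraic.neg ha
  inv_mem' _ ha := IsAlgebraic.inv ha

theorem subset_algCl (s : Set N) : s ⊆ algCl s := fun x hx =>
  isAlgebraic_algebraMap (⟨x, Subring.subset_closure hx⟩ : Subring.closure s)

theorem algCl_root (s : Set N) (p : N[X]) (hp : p ≠ 0) (hc : ∀ k, p.coeff k ∈ algCl s) (z : N)
    (hz : p.eval z = 0) : z ∈ algCl s := by
  have h1 : IsAlgebraic (Subalgebra.algebraicClosure (Subring.closure s) N) z := by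
    have : p ∈ Polynomial.lifts (algebraMap (Subalgebra.algebraicClosure (Subring.closure s) N) N) := by
      rw [Polynomial.lifts_iff_coeff_lifts]
      intro n
      exact ⟨⟨p.coeff n, hc n⟩, rfl⟩
    obtain ⟨q, hq⟩ := (Polynomial.mem_lifts p).mp this
    refine ⟨q, ?_, ?_⟩
    · rintro rfl
      simp at hq
      exact hp hq.symm
    · rw [← Polynomial.eval_map_algebraMap, hq, hz]
  exact h1.restrictScalars (Subring.closure s)

theorem countable_algCl {s : Set N} (hs : s.Countable) : ((algCl s : Subfield N) : Set N).Countable := by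
  have : Countable (Subring.closure s) := by
    have h1 : Countable s := hs.to_subtype
    have h2 := Subfield.cardinalMk_closure_le_max s
    have h3 : Cardinal.mk (Subfield.closure s) ≤ Cardinal.aleph0 :=
      h2.trans (max_le (Cardinal.mk_le_aleph0_iff.mpr h1) le_rfl)
    have h4 : Countable (Subfield.closure s) := Cardinal.mk_le_aleph0_iff.mp h3
    have h5 : Subring.closure s ≤ (Subfield.closure s).toSubring :=
      Subring.closure_le.mpr Subfield.subset_closure
    exact Function.Injective.countable (f := fun x : Subring.closure s =>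
      (⟨x.1, h5 x.2⟩ : Subfield.closure s)) (fun x y hxy => by
        have := congrArg Subtype.val hxy
        exact Subtype.ext this)
  exact Algebraic.countable (Subring.closure s) N

end algCl

end Pool.Agent.HM
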