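import Mathlib
import Pool.Agent.W_MP_4ae68b_lc.Ultra
import Pool.Agent.W_MP_4ae68b_lc.Val

set_option autoImplicit false

namespace Pool.Agent.HM

open Filter
open scoped Polynomial

section

variable {K : Type} [Field K]

theorem coe_natCast' (n : ℕ) : ((fun _ => (n : K) : ℕ → K) : UP K) = (n : UP K) := rfl

theorem charZero_UP [CharZero K] : CharZero (UP K) := by
  refine ⟨fun m n h => ?_⟩
  rw [← coe_natCast', ← coe_natCast', Filter.Germ.coe_eq] at h
  obtain ⟨i, hi⟩ := h.exists
  exact Nat.cast_injective hi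

/-- the ultrapower of a valuation ring -/
def upV (V : ValuationSubring K) : ValuationSubring (UP K) where
  carrier := {x | Filter.Germ.LiftPred (· ∈ V) x}
  mul_mem' {a b} ha hb := by
    induction a, b using Filter.Germ.inductionOn₂ with
    | h f g =>
      filter_upwards [Filter.Germ.liftPred_coe.mp ha, Filter.Germ.liftPred_coe.mp hb] with i h1 h2
      exact V.mul_mem _ _ h1 h2
  one_mem' := Filter.Eventually.of_forall fun _ => V.one_mem
  add_mem' {a b} ha hb := by
    induction a, b using Filter.Germ.inductionOn₂ with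
    | h f g =>
      filter_upwards [Filter.Germ.liftPred_coe.mp ha, Filter.Germ.liftPred_coe.mp hb] with i h1 h2
      exact V.add_mem _ _ h1 h2
  zero_mem' := Filter.Eventually.of_forall fun _ => V.zero_mem
  neg_mem' {a} ha := by
    induction a using Filter.Germ.inductionOn with
    | h f =>
      filter_upwards [Filter.Germ.liftPred_coe.mp ha] with i h1
      exact V.neg_mem _ h1
  mem_or_inv_mem' a := by
    induction a using Filter.Germ.inductionOn with
    | h f =>
      have : ∀ᶠ i in (UU : Filter ℕ), f i ∈ V ∨ (f i)⁻¹ ∈ V :=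
        Filter.Eventually.of_forall fun i => V.mem_or_inv_mem (f i)
      rw [Ultrafilter.eventually_or] at this
      exact this

theorem mem_upV (V : ValuationSubring K) (f : ℕ → K) :
    (f : UP K) ∈ upV V ↔ ∀ᶠ i in (UU : Filter ℕ), f i ∈ V := Iff.rfl

end

theorem val_le_iff {N : Type} [Field N] (V : ValuationSubring N) (x y : N) :
    V.valuation x ≤ V.valuation y ↔ (y = 0 → x = 0) ∧ x / y ∈ V := by
  by_cases hy : y = 0
  · subst hy
    rw [map_zero, div_zero]
    constructor
    · intro h
      exact ⟨fun _ => (map_eq_zero _).mp (le_antisymm h zero_le), V.zero_mem⟩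
    · rintro ⟨h, _⟩
      rw [h rfl, map_zero]
  · rw [← V.valuation_le_one_iff, map_div₀,
      div_le_one₀ (zero_lt_iff.mpr ((map_ne_zero _).mpr hy))]
    exact ⟨fun h => ⟨fun h0 => (hy h0).elim, h⟩, fun h => h.2⟩

section

variable {K : Type} [Field K] (V : ValuationSubring K)

theorem coe_eq_zero (f : ℕ → K) : (f : UP K) = 0 ↔ ∀ᶠ i in (UU : Filter ℕ), f i = 0 := by
  rw [← Filter.Germ.coe_zero, Filter.Germ.coe_eq]; rfl

theorem up_le (f g : ℕ → K) : (upV V).valuation (f : UP K) ≤ (upV V).valuation (g : UP K) ↔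
    ∀ᶠ i in (UU : Filter ℕ), V.valuation (f i) ≤ V.valuation (g i) := by
  simp only [val_le_iff]
  rw [Filter.eventually_and, Ultrafilter.eventually_imp, coe_eq_zero, coe_eq_zero]
  rfl

theorem up_lt (f g : ℕ → K) : (upV V).valuation (f : UP K) < (upV V).valuation (g : UP K) ↔
    ∀ᶠ i in (UU : Filter ℕ), V.valuation (f i) < V.valuation (g i) := by
  rw [← not_le, up_le, ← Ultrafilter.eventually_not]
  simp only [not_le]

theorem up_eq (f g : ℕ → K) : (upV V).valuation (f : UP K) = (upV V).valuation (g : UP K) ↔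
    ∀ᶠ i in (UU : Filter ℕ), V.valuation (f i) = V.valuation (g i) := by
  rw [le_antisymm_iff, up_le, up_le, ← Filter.eventually_and]
  simp only [← le_antisymm_iff]

theorem up_rv (l f g : ℕ → K) : rvEq ((upV V : ValuationSubring (UP K)) : Set (UP K)) l f g ↔
    ∀ᶠ i in (UU : Filter ℕ), rvEq (V : Set K) (l i) (f i) (g i) := by
  simp only [rvEq_iff, ne_eq, coe_eq_zero]
  rw [Ultrafilter.eventually_or, Filter.eventually_and, Filter.eventually_and,
    Filter.eventually_and, Ultrafilter.eventually_not, Ultrafilter.eventually_not]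
  simp only [← map_mul]
  rw [← up_lt]
  rfl

/-- saturation for `rv` conditions -/
theorem sat_rv (l x : UP K) (g : Set (UP K × UP K)) (hg : g.Countable)
    (h : ∀ F : Finset (UP K × UP K), (F : Set (UP K × UP K)) ⊆ g →
      ∃ y, ∀ p ∈ F, rvEq ((upV V : ValuationSubring (UP K)) : Set (UP K)) l (x - p.1) (y - p.2)) :
    ∃ y, ∀ p ∈ g, rvEq ((upV V : ValuationSubring (UP K)) : Set (UP K)) l (x - p.1) (y - p.2) := by
  classical
  have : Countable g := hg.to_subtype
  have key : ∀ (p : UP K × UP K) (f : ℕ → K),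
      rvEq ((upV V : ValuationSubring (UP K)) : Set (UP K)) l (x - p.1) ((f : UP K) - p.2) ↔
      ∀ᶠ i in (UU : Filter ℕ), f i ∈ {z : K | rvEq (V : Set K) (rep l i) (rep x i - rep p.1 i)
        (z - rep p.2 i)} := by
    intro p f
    conv_lhs => rw [← coe_rep l, ← coe_rep x, ← coe_rep p.1, ← coe_rep p.2]
    exact up_rv V (rep l) (fun i => rep x i - rep p.1 i) (fun i => f i - rep p.2 i)
  obtain ⟨f, hf⟩ := saturation (K := K) (ι := g) (fun p i => {z : K | rvEq (V : Set K) (rep l i)
    (rep x i - rep p.1.1 i) (z - rep p.1.2 i)}) (by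
      intro F
      obtain ⟨y, hy⟩ := h (F.image Subtype.val) (by
        intro p hp
        obtain ⟨q, _, rfl⟩ := Finset.mem_image.mp (Finset.mem_coe.mp hp)
        exact q.2)
      refine ⟨rep y, fun p hp => ?_⟩
      have := hy p.1 (Finset.mem_image_of_mem _ hp)
      rw [← coe_rep y] at this
      exact (key p.1 (rep y)).mp this)
  refine ⟨(f : UP K), fun p hp => ?_⟩
  exact (key p f).mpr (hf ⟨p, hp⟩)

/-- The ultrapower of an algebraically closed field is algebraically closed. -/
theorem isAlgClosed_UP [IsAlgClosed K] : IsAlgClosed (UP K) := by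
  apply IsAlgClosed.of_exists_root
  intro p hp hirr
  have hn : p.natDegree ≠ 0 := hirr.natDegree_pos.ne'
  set n := p.natDegree with hnd
  let c : ℕ → ℕ → K := fun j => rep (p.coeff j)
  have hroot : ∀ i, ∃ x : K, (∑ j ∈ Finset.range n, c j i * x ^ j) + x ^ n = 0 := by
    intro i
    let q : K[X] := Polynomial.X ^ n + ∑ j ∈ Finset.range n, Polynomial.C (c j i) * Polynomial.X ^ j
    have hq : q.degree ≠ 0 := by
      have h1 : (∑ j ∈ Finset.range n, Polynomial.C (c j i) * Polynomial.X ^ j : K[X]).degree < n := by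
        rw [Polynomial.degree_lt_iff_coeff_zero]
        intro m hm
        rw [Polynomial.finsetSum_coeff]
        apply Finset.sum_eq_zero
        intro j hj
        rw [Polynomial.coeff_C_mul, Polynomial.coeff_X_pow, if_neg (by
          have := Finset.mem_range.mp hj; omega), mul_zero]
      have h2 : q.degree = n := by
        simp only [q]
        rw [Polynomial.degree_add_eq_left_of_degree_lt (by rwa [Polynomial.degree_X_pow]),
          Polynomial.degree_X_pow]
      rw [h2]
      exact_mod_cast hn
    obtain ⟨x, hx⟩ := IsAlgClosed.exists_root q hq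
    refine ⟨x, ?_⟩
    have := hx.eq_zero
    simp only [q, Polynomial.eval_add, Polynomial.eval_pow, Polynomial.eval_X,
      Polynomial.eval_finsetSum, Polynomial.eval_mul, Polynomial.eval_C] at this
    rw [add_comm]
    exact this
  choose x hx using hroot
  refine ⟨((x : ℕ → K) : UP K), ?_⟩
  rw [Polynomial.eval_eq_sum_range, Finset.sum_range_succ]
  have hlead : p.coeff p.natDegree = 1 := hp
  rw [hlead, one_mul]
  have e : (∑ j ∈ Finset.range n, p.coeff j * ((x : ℕ → K) : UP K) ^ j) + ((x : ℕ → K) : UP K) ^ n =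
      Filter.Germ.coeRingHom (UU : Filter ℕ) ((∑ j ∈ Finset.range n, c j * x ^ j) + x ^ n) := by
    rw [map_add, map_sum]
    congr 1
    apply Finset.sum_congr rfl
    intro j _
    rw [map_mul, map_pow]
    congr 1
    exact (coe_rep _).symm
  rw [e]
  have : (∑ j ∈ Finset.range n, c j * x ^ j) + x ^ n = 0 := by
    ext i
    simp only [Pi.add_apply, Finset.sum_apply, Pi.mul_apply, Pi.pow_apply, Pi.zero_apply]
    exact hx i
  rw [this, map_zero]

end

end Pool.Agent.HM
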