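import Mathlib
import Pool.Agent.W_MP_4ae68b_lc.Transfer
import Pool.Agent.W_MP_4ae68b_lc.UPfacts

set_option autoImplicit false
set_option linter.unusedSimpArgs false
set_option linter.unusedSectionVars false

namespace Pool.Agent.HM

open FirstOrder FirstOrder.Language

theorem finLe_iff {M : Type} {d : ℕ} {S : Set M} : FinLe d S ↔ S.encard ≤ d := by
  constructor
  · intro h
    by_contra hcon
    push Not at hcon
    have h1 : ((d + 1 : ℕ) : ℕ∞) ≤ S.encard := by
      have := Order.add_one_le_of_lt hcon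
      exact_mod_cast this
    obtain ⟨t, ht, htc⟩ := Set.exists_subset_encard_eq h1
    have htf : t.Finite := Set.finite_of_encard_eq_coe htc
    have hf : Fintype t := htf.fintype
    have hcard : Fintype.card t = d + 1 := by
      rw [Set.encard_eq_coe_toFinset_card] at htc
      have := Set.toFinset_card t
      rw [← this]
      exact_mod_cast htc
    let e := (Fintype.equivFinOfCardEq hcard).symm
    obtain ⟨i, j, hij, he⟩ := h (fun i => (e i : M)) (fun i => ht (e i).2)
    exact hij (e.injective (Subtype.ext he))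
  · intro h c hc
    by_contra hcon
    push Not at hcon
    have hinj : Function.Injective c := by
      intro i j hij
      by_contra hne
      exact hcon i j hne hij
    have h1 : (Set.range c).encard ≤ S.encard := Set.encard_le_encard (by
      rintro _ ⟨i, rfl⟩; exact hc i)
    rw [← Set.image_univ, hinj.encard_image, Set.encard_univ, ENat.card_eq_coe_fintype_card,
      Fintype.card_fin] at h1
    have := h1.trans h
    have h2 : d + 1 ≤ d := by exact_mod_cast this
    omega

section

variable {R : ℕ → Type} (O : R 1) {P : Type} {k : ℕ}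

/-- the `δ`-condition as a formula -/
noncomputable def FDel (δ : (Lg R).Formula (P ⊕ Unit)) : (Lg R).Formula (Ctx P k ⊕ Bool) :=
  Formula.iAlls Unit ((δ.relabel (Sum.elim (fun p => Sum.inl (Sum.inl (Sum.inl p)))
            (fun _ => Sum.inr ()) : P ⊕ Unit → (Ctx P k ⊕ Bool) ⊕ Unit)).imp
          (frv O (Term.var (Sum.inl (Sum.inl (Sum.inr (Sum.inl ())))))
            (tsub (Term.var (Sum.inl (Sum.inr false))) (Term.var (Sum.inr ())))
            (tsub (Term.var (Sum.inl (Sum.inr true))) (Term.var (Sum.inr ())))))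

/-- the assignment -/
def big {M : Type} (a : P → M) (l : M) (ξ : Fin k → M) (x y : M) : Ctx P k ⊕ Bool → M :=
  Sum.elim (Sum.elim a (Sum.elim (fun _ => l) ξ)) (fun b => Bool.rec x y b)

variable {M : Type} [Field M] [Interp R M]

theorem realize_FDel (δ : (Lg R).Formula (P ⊕ Unit)) (a : P → M) (l : M) (ξ : Fin k → M) (x y : M) :
    (FDel O δ).Realize (big a l ξ x y) ↔
      ∀ c, δ.Realize (Sum.elim a fun _ => c) → rvEq (pred O M) l (x - c) (y - c) := by
  unfold FDel big
  simp only [Formula.realize_iAlls, Formula.realize_imp, realize_frv,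
    Formula.realize_relabel,
    Term.realize_var, Sum.elim_inl, Sum.elim_inr, forall_unit, realize_tsub]
  have e1 : ∀ c : M, ((fun b => Sum.elim (Sum.elim (Sum.elim a (Sum.elim (fun _ => l) ξ))
      (fun b => Bool.rec x y b)) (fun _ : Unit => c) b) ∘
      (Sum.elim (fun p => Sum.inl (Sum.inl (Sum.inl p)))
            (fun _ => Sum.inr ()) : P ⊕ Unit → (Ctx P k ⊕ Bool) ⊕ Unit)) =
      Sum.elim a (fun _ => c) := by
    intro c
    ext u
    rcases u with p | u <;> rfl
  simp only [e1]

theorem realize_phi (φ : (Lg R).Formula (P ⊕ Fin (k + 2))) (b : Bool) (a : P → M) (l : M)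
    (ξ : Fin k → M) (x y : M) :
    (φ.relabel (asg (fun p => Sum.inl (Sum.inl p)) (Sum.inr b)
              (Sum.inl (Sum.inr (Sum.inl ()))) (fun i => Sum.inl (Sum.inr (Sum.inr i))))).Realize
      (big a l ξ x y) ↔ φ.Realize (asg a (Bool.rec x y b) l ξ) := by
  rw [Formula.realize_relabel, comp_asg]
  rfl

theorem realize_FInv' (φ : (Lg R).Formula (P ⊕ Fin (k + 2))) (a : P → M) (l : M)
    (ξ : Fin k → M) (x y : M) :
    ((FInv O φ).relabel Sum.inl : (Lg R).Formula (Ctx P k ⊕ Bool)).Realize (big a l ξ x y) ↔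
      Inv O φ a l ξ := by
  rw [Formula.realize_relabel, ← realize_FInv]
  rfl

end

/-- Reduction to the ultrapower. -/
theorem prep_of_ultra {R : ℕ → Type} (O : R 1) (K : Type) [Field K] [Interp R K]
    {P : Type} [Finite P] {I : Type} [Countable I] [Nonempty I]
    (δ : I → (Lg R).Formula (P ⊕ Unit)) (d : I → ℕ)
    (hfin : ∀ i (a : P → K), FinLe (d i) {c | (δ i).Realize (Sum.elim a fun _ => c)})
    (k : ℕ) (φ : (Lg R).Formula (P ⊕ Fin (k + 2)))
    (hU : ∀ (a : P → UP K) (l : UP K) (ξ : Fin k → UP K) (x y : UP K), l ≠ 0 →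
      l ∈ pred O (UP K) → Inv O φ a l ξ →
      (∀ i c, (δ i).Realize (Sum.elim a fun _ => c) → rvEq (pred O (UP K)) l (x - c) (y - c)) →
      (φ.Realize (asg a x l ξ) ↔ φ.Realize (asg a y l ξ))) :
    ∃ (δ' : (Lg R).Formula (P ⊕ Unit)) (d' : ℕ),
        (∀ a : P → K, FinLe d' {c | δ'.Realize (Sum.elim a fun _ => c)}) ∧
        ∀ (a : P → K) (l : K) (ξ : Fin k → K) (x y : K), PrepS O φ δ' a l ξ x y := by
  obtain ⟨e, he⟩ := exists_surjective_nat I
  by_contra hcon
  push Not at hcon
  have hbad : ∀ n : ℕ, ∃ (a : P → K) (l : K) (ξ : Fin k → K) (x y : K), l ≠ 0 ∧ l ∈ pred O K ∧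
      Inv O φ a l ξ ∧ (∀ j, j < n → ∀ c, (δ (e j)).Realize (Sum.elim a fun _ => c) →
        rvEq (pred O K) l (x - c) (y - c)) ∧
      ¬ (φ.Realize (asg a x l ξ) ↔ φ.Realize (asg a y l ξ)) := by
    intro n
    obtain ⟨a, l, ξ, x, y, h⟩ := hcon (Formula.iSup fun j : Fin n => δ (e j))
      (∑ j : Fin n, d (e j)) (by
        intro a
        rw [finLe_iff]
        have e1 : {c : K | (Formula.iSup fun j : Fin n => δ (e j)).Realize (Sum.elim a fun _ => c)} =
            ⋃ j ∈ (Finset.univ : Finset (Fin n)), {c | (δ (e j)).Realize (Sum.elim a fun _ => c)} := by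
          ext c
          simp
        rw [e1]
        generalize (Finset.univ : Finset (Fin n)) = s
        classical
        induction s using Finset.induction_on with
        | empty => simp
        | insert j s hj ih =>
          rw [Finset.set_biUnion_insert, Finset.sum_insert hj]
          refine (Set.encard_union_le _ _).trans ?_
          push_cast
          exact add_le_add (finLe_iff.mp (hfin (e j) a)) (by exact_mod_cast ih))
    unfold PrepS at h
    push Not at h
    obtain ⟨h1, h2, h3, h4, h5⟩ := h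
    refine ⟨a, l, ξ, x, y, h1, h2, h3, ?_, ?_⟩
    · intro j hj c hc
      apply h4
      rw [Formula.realize_iSup]
      exact ⟨⟨j, hj⟩, hc⟩
    · intro h6
      rcases h5 with ⟨h7, h8⟩ | ⟨h7, h8⟩
      · exact h8 (h6.mp h7)
      · exact h7 (h6.mpr h8)
  choose a l ξ x y h1 h2 h3 h4 h5 using hbad
  -- pass to the ultrapower
  let aU : P → UP K := fun p => ((fun n => a n p : ℕ → K) : UP K)
  let lU : UP K := ((fun n => l n : ℕ → K) : UP K)
  let ξU : Fin k → UP K := fun i => ((fun n => ξ n i : ℕ → K) : UP K)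
  let xU : UP K := ((fun n => x n : ℕ → K) : UP K)
  let yU : UP K := ((fun n => y n : ℕ → K) : UP K)
  let v : Ctx P k ⊕ Bool → ℕ → K := fun u n => big (a n) (l n) (ξ n) (x n) (y n) u
  have hv : (fun u => ((v u : ℕ → K) : UP K)) = big aU lU ξU xU yU := by
    ext u
    rcases u with (p | (u | i)) | b
    · rfl
    · rfl
    · rfl
    · cases b <;> rfl
  have hlos : ∀ ψ : (Lg R).Formula (Ctx P k ⊕ Bool), ψ.Realize (big aU lU ξU xU yU) ↔
      ∀ᶠ n in (UU : Filter ℕ), ψ.Realize (big (a n) (l n) (ξ n) (x n) (y n)) := by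
    intro ψ
    rw [← hv]
    exact los_formula ψ v
  have g1 : lU ≠ 0 := by
    have := (hlos (∼(Term.equal (Term.var (Sum.inl (Sum.inr (Sum.inl ())))) tzero))).mpr
      (Filter.Eventually.of_forall fun n => by
        rw [Formula.realize_not, Formula.realize_equal, realize_tzero]
        exact h1 n)
    rw [Formula.realize_not, Formula.realize_equal, realize_tzero] at this
    exact this
  have g2 : lU ∈ pred O (UP K) := by
    have := (hlos (fpred O (Term.var (Sum.inl (Sum.inr (Sum.inl ())))))).mpr
      (Filter.Eventually.of_forall fun n => by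
        rw [realize_fpred]
        exact h2 n)
    rw [realize_fpred] at this
    exact this
  have g3 : Inv O φ aU lU ξU := by
    have := (hlos ((FInv O φ).relabel Sum.inl)).mpr
      (Filter.Eventually.of_forall fun n => by
        rw [realize_FInv']
        exact h3 n)
    rwa [realize_FInv'] at this
  have g4 : ∀ i c, (δ i).Realize (Sum.elim aU fun _ => c) →
      rvEq (pred O (UP K)) lU (xU - c) (yU - c) := by
    intro i
    obtain ⟨j, rfl⟩ := he i
    rw [← realize_FDel, hlos]
    have h6 := Filter.eventually_gt_atTop j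
    rw [← Nat.cofinite_eq_atTop] at h6
    filter_upwards [Filter.hyperfilter_le_cofinite h6] with n hn
    rw [realize_FDel]
    exact h4 n j hn
  have g5 := hU aU lU ξU xU yU g1 g2 g3 g4
  rw [show (φ.Realize (asg aU xU lU ξU)) ↔ (φ.relabel (asg (fun p => Sum.inl (Sum.inl p))
    (Sum.inr false) (Sum.inl (Sum.inr (Sum.inl ()))) (fun i => Sum.inl (Sum.inr (Sum.inr i)))) :
    (Lg R).Formula (Ctx P k ⊕ Bool)).Realize
      (big aU lU ξU xU yU) from (realize_phi φ false aU lU ξU xU yU).symm,
    show (φ.Realize (asg aU yU lU ξU)) ↔ (φ.relabel (asg (fun p => Sum.inl (Sum.inl p))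
    (Sum.inr true) (Sum.inl (Sum.inr (Sum.inl ()))) (fun i => Sum.inl (Sum.inr (Sum.inr i)))) :
    (Lg R).Formula (Ctx P k ⊕ Bool)).Realize
      (big aU lU ξU xU yU) from (realize_phi φ true aU lU ξU xU yU).symm,
    ← Formula.realize_iff, hlos] at g5
  obtain ⟨n, hn⟩ := g5.exists
  rw [Formula.realize_iff, realize_phi, realize_phi] at hn
  exact h5 n hn

end Pool.Agent.HM
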