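import Mathlib
import Pool.Agent.W_MP_4ae68b_lc.PrepU

set_option autoImplicit false
set_option linter.unusedSimpArgs false
set_option linter.unusedSectionVars false

namespace Pool.Agent.HM

open FirstOrder FirstOrder.Language
open scoped Polynomial

section lp

variable {M : Type} [Field M]

/-- polynomial with given coefficients -/
noncomputable def lp (cs : List M) : M[X] :=
  cs.foldr (fun c acc => Polynomial.C c + Polynomial.X * acc) 0

theorem lp_cons (c : M) (cs : List M) : lp (c :: cs) = Polynomial.C c + Polynomial.X * lp cs := rfl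

theorem eval_lp (cs : List M) (x : M) :
    (lp cs).eval x = cs.foldr (fun c acc => c + x * acc) 0 := by
  induction cs with
  | nil => simp [lp]
  | cons c cs ih => rw [lp_cons]; simp [ih]

theorem coeff_lp (cs : List M) (k : ℕ) : (lp cs).coeff k = cs.getD k 0 := by
  induction cs generalizing k with
  | nil => simp [lp]
  | cons c cs ih =>
    rw [lp_cons, Polynomial.coeff_add]
    cases k with
    | zero => simp
    | succ k => simp [Polynomial.coeff_C, ih]

theorem natDegree_lp (cs : List M) : (lp cs).natDegree ≤ cs.length := by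
  rw [Polynomial.natDegree_le_iff_coeff_eq_zero]
  intro k hk
  rw [coeff_lp]
  simp [List.getD, List.getElem?_eq_none_iff.mpr hk.le]

theorem lp_eq_zero (cs : List M) : lp cs = 0 ↔ ∀ i : Fin cs.length, cs.get i = 0 := by
  constructor
  · intro h i
    have := congrArg (fun p => p.coeff i) h
    simp only [coeff_lp, Polynomial.coeff_zero] at this
    rw [List.getD_eq_getElem _ _ i.2] at this
    exact this
  · intro h
    ext k
    rw [coeff_lp, Polynomial.coeff_zero]
    by_cases hk : k < cs.length
    · rw [List.getD_eq_getElem _ _ hk]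
      exact h ⟨k, hk⟩
    · rw [List.getD_eq_default]
      omega

theorem exists_lp (q : M[X]) : lp ((List.range (q.natDegree + 1)).map q.coeff) = q := by
  ext k
  rw [coeff_lp]
  by_cases hk : k < q.natDegree + 1
  · rw [List.getD_eq_getElem _ _ (by simpa using hk)]
    simp
  · rw [List.getD_eq_default _ _ (by simpa using hk), Polynomial.coeff_eq_zero_of_natDegree_lt]
    omega

end lp

section

variable {R : ℕ → Type} {C : Type} (cst : C → R 1) {P : Type}

def horner {α : Type} (ts : List ((Lg R).Term α)) (x : (Lg R).Term α) : (Lg R).Term α :=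
  ts.foldr (fun t acc => tadd t (tmul x acc)) tzero

variable {M : Type} [Field M] [Interp R M]

theorem realize_horner {α : Type} (ts : List ((Lg R).Term α)) (x : (Lg R).Term α) (v : α → M) :
    (horner ts x).realize v = (lp (ts.map (fun t => t.realize v))).eval (x.realize v) := by
  induction ts with
  | nil => simp [horner, lp]
  | cons t ts ih =>
    rw [List.map_cons, lp_cons]
    simp only [Polynomial.eval_add, Polynomial.eval_mul, Polynomial.eval_C, Polynomial.eval_X]
    rw [← ih]
    simp [horner]

def rho {F : Type} : P ⊕ F → (P ⊕ Unit) ⊕ F := Sum.elim (fun p => Sum.inl (Sum.inl p)) Sum.inr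

noncomputable def fam (F : Finset C) (ts : List ((Lg R).Term (P ⊕ F))) : (Lg R).Formula (P ⊕ Unit) :=
  Formula.iExs F ((Formula.iInf fun j : F => fpred (cst j.1) (Term.var (Sum.inr j))) ⊓
    (Term.equal (horner (ts.map (fun t => t.relabel rho)) (Term.var (Sum.inl (Sum.inr ())))) tzero ⊓
      ∼(Formula.iInf fun i : Fin ts.length => Term.equal ((ts.get i).relabel rho) tzero)))

theorem realize_fam (F : Finset C) (ts : List ((Lg R).Term (P ⊕ F))) (a : P → M) (x : M) :
    (fam cst F ts).Realize (Sum.elim a fun _ => x) ↔ ∃ b : F → M, (∀ j, b j ∈ pred (cst j.1) M) ∧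
      (lp (ts.map (fun t => t.realize (Sum.elim a b)))).eval x = 0 ∧
      lp (ts.map (fun t => t.realize (Sum.elim a b))) ≠ 0 := by
  unfold fam
  have e1 : ∀ b : F → M, (Sum.elim (Sum.elim a fun _ : Unit => x) b) ∘ (rho : P ⊕ F → _) =
      Sum.elim a b := by
    intro b
    ext u
    rcases u with p | j <;> rfl
  simp only [Formula.realize_iExs, Formula.realize_inf, Formula.realize_iInf, realize_fpred,
    Term.realize_var, Sum.elim_inr, Formula.realize_equal, realize_horner, realize_tzero,
    Formula.realize_not, List.map_map, Function.comp_def, Term.realize_relabel, Sum.elim_inl]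
  simp only [Function.comp_def] at e1
  simp only [e1, lp_eq_zero, ne_eq]
  refine exists_congr fun b => and_congr_right fun _ => and_congr_right fun _ => not_congr ?_
  constructor
  · intro h i
    have hi : i.1 < ts.length := lt_of_lt_of_eq i.2 (List.length_map _)
    have := h ⟨i.1, hi⟩
    simpa using this
  · intro h i
    have := h ⟨i.1, by rw [List.length_map]; exact i.2⟩
    simpa using this

theorem finLe_fam (val : C → M) (hc : ∀ c x, x ∈ pred (cst c) M ↔ x = val c) (F : Finset C)
    (ts : List ((Lg R).Term (P ⊕ F))) (a : P → M) :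
    FinLe ts.length {x | (fam cst F ts).Realize (Sum.elim a fun _ => x)} := by
  classical
  rw [finLe_iff]
  set q := lp (ts.map (fun t => t.realize (Sum.elim a (fun j : F => val j.1)))) with hq
  have hsub : {x | (fam cst F ts).Realize (Sum.elim a fun _ => x)} ⊆ (q.roots.toFinset : Set M) := by
    intro x hx
    obtain ⟨b, hb, h1, h2⟩ := (realize_fam cst F ts a x).mp hx
    have hb' : b = fun j : F => val j.1 := by
      ext j
      exact (hc _ _).mp (hb j)
    rw [hb'] at h1 h2
    simp only [Finset.mem_coe, Multiset.mem_toFinset]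
    exact (Polynomial.mem_roots h2).mpr h1
  refine (Set.encard_le_encard hsub).trans ?_
  rw [Set.encard_coe_eq_coe_finsetCard]
  have h1 : q.roots.toFinset.card ≤ q.natDegree :=
    (Multiset.toFinset_card_le _).trans (Polynomial.card_roots' q)
  have h2 : q.natDegree ≤ ts.length := (natDegree_lp _).trans (by simp)
  exact_mod_cast h1.trans h2

theorem exists_term (val : C → M) (a : P → M) (z : M)
    (hz : z ∈ Subring.closure (Set.range a ∪ Set.range val)) :
    ∃ t : (Lg R).Term (P ⊕ C), t.realize (Sum.elim a val) = z := by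
  induction hz using Subring.closure_induction with
  | mem x hx =>
    rcases hx with ⟨p, rfl⟩ | ⟨c, rfl⟩
    · exact ⟨Term.var (Sum.inl p), rfl⟩
    · exact ⟨Term.var (Sum.inr c), rfl⟩
  | zero => exact ⟨tzero, realize_tzero _⟩
  | one => exact ⟨tone, realize_tone _⟩
  | add x y _ _ hx hy =>
    obtain ⟨s, rfl⟩ := hx
    obtain ⟨t, rfl⟩ := hy
    exact ⟨tadd s t, realize_tadd _ _ _⟩
  | neg x _ hx =>
    obtain ⟨s, rfl⟩ := hx
    exact ⟨tneg s, realize_tneg _ _⟩
  | mul x y _ _ hx hy =>
    obtain ⟨s, rfl⟩ := hx
    obtain ⟨t, rfl⟩ := hy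
    exact ⟨tmul s t, realize_tmul _ _ _⟩

theorem exists_fam (val : C → M) (hc : ∀ c, val c ∈ pred (cst c) M) (a : P → M) (x : M)
    (hx : x ∈ algCl (Set.range a ∪ Set.range val)) :
    ∃ (F : Finset C) (ts : List ((Lg R).Term (P ⊕ F))),
      (fam cst F ts).Realize (Sum.elim a fun _ => x) := by
  classical
  obtain ⟨q, hq0, hq⟩ := hx
  have h1 : ∀ k, ∃ t : (Lg R).Term (P ⊕ C), t.realize (Sum.elim a val) = (q.coeff k : M) :=
    fun k => exists_term val a _ (q.coeff k).2
  choose t ht using h1
  set q' : M[X] := q.map (algebraMap _ M) with hq'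
  have hq'0 : q' ≠ 0 := by
    rw [hq', Polynomial.map_ne_zero_iff]
    · exact hq0
    · exact Subtype.val_injective
  have hq'x : q'.eval x = 0 := by
    rw [hq', Polynomial.eval_map_algebraMap, hq]
  set n := q'.natDegree + 1 with hn
  set F : Finset C := (Finset.range n).biUnion fun k => (t k).varFinset.toRight with hF
  have hmem : ∀ k < n, ∀ c, Sum.inr c ∈ (t k).varFinset → c ∈ F := by
    intro k hk c hc
    rw [hF, Finset.mem_biUnion]
    exact ⟨k, Finset.mem_range.mpr hk, Finset.mem_toRight.mpr hc⟩
  have h2 : ∀ k, ∃ s : (Lg R).Term (P ⊕ F), k < n →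
      s.realize (Sum.elim a (fun j : F => val j.1)) = q'.coeff k := by
    intro k
    by_cases hk : k < n
    · refine ⟨(t k).restrictVar (fun v => match v with
        | ⟨Sum.inl p, _⟩ => Sum.inl p
        | ⟨Sum.inr c, hc⟩ => Sum.inr ⟨c, hmem k hk c hc⟩), fun _ => ?_⟩
      rw [Term.realize_restrictVar (Sum.elim a val), ht, hq', Polynomial.coeff_map]
      · rfl
      · rintro ⟨p | c, hv⟩
        · rfl
        · rfl
    · exact ⟨tzero, fun h => (hk h).elim⟩
  choose s hs using h2
  refine ⟨F, (List.range n).map s, ?_⟩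
  rw [realize_fam]
  refine ⟨fun j => val j.1, fun j => hc _, ?_⟩
  have e : lp (((List.range n).map s).map (fun t => t.realize (Sum.elim a (fun j : F => val j.1)))) =
      q' := by
    rw [List.map_map]
    conv_rhs => rw [← exists_lp q']
    congr 1
    apply List.map_congr_left
    intro k hk
    exact hs k (List.mem_range.mp hk)
  rw [e]
  exact ⟨hq'x, hq'0⟩

/-- The index type of the algebraic families. -/
abbrev Idx (R : ℕ → Type) (C P : Type) : Type := Σ F : Finset C, List ((Lg R).Term (P ⊕ F))

instance : Countable (Σ n, ringFunc n) := by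
  refine Function.Injective.countable (β := ℕ) (f := fun x => match x with
    | ⟨_, ringFunc.add⟩ => 0
    | ⟨_, ringFunc.mul⟩ => 1
    | ⟨_, ringFunc.neg⟩ => 2
    | ⟨_, ringFunc.zero⟩ => 3
    | ⟨_, ringFunc.one⟩ => 4) ?_
  rintro ⟨_, x⟩ ⟨_, y⟩ h
  cases x <;> cases y <;> first | rfl | (simp at h)

instance countable_idx [Countable C] [Countable P] : Countable (Idx R C P) := by
  have : Countable (Σ n, (Lg R).Functions n) := inferInstanceAs (Countable (Σ n, ringFunc n))
  infer_instance

end

end Pool.Agent.HM
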