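import Mathlib
import Pool.Agent.W_MP_4ae68b_lc.Compat

set_option autoImplicit false

namespace Pool.Agent.HM

open Polynomial

variable {N : Type*} [Field N] {Γ : Type*} [LinearOrderedCommGroupWithZero Γ]

/-- A subring of `N × N` (the graph of a partial map) contained in the relation `R`. -/
def Cpt (R : N → N → Prop) (f : Subring (N × N)) : Prop := ∀ p ∈ f, R p.1 p.2

variable {v : Valuation N Γ} {R : N → N → Prop} {l : Γ}

theorem Cpt.fst_eq_zero (h : Compat v R l) {f : Subring (N × N)} (hf : Cpt R f) {p : N × N}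
    (hp : p ∈ f) (h1 : p.1 = 0) : p = 0 := by
  have := (h.eq_zero_iff (hf p hp)).mp h1
  exact Prod.ext h1 this

theorem Cpt.injOn (h : Compat v R l) {f : Subring (N × N)} (hf : Cpt R f) :
    Set.InjOn Prod.fst (f : Set (N × N)) := by
  intro p hp q hq hpq
  have := hf.fst_eq_zero h (f.sub_mem hp hq) (by simp [hpq])
  exact sub_eq_zero.mp this

/-- The evaluation map. -/
noncomputable def ev (g : Subring (N × N)) (z : N × N) : g[X] →+* N × N := eval₂RingHom g.subtype z

/-- first component polynomial -/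
noncomputable def P1 {g : Subring (N × N)} (q : g[X]) : N[X] := q.map ((RingHom.fst N N).comp g.subtype)
/-- second component polynomial -/
noncomputable def P2 {g : Subring (N × N)} (q : g[X]) : N[X] := q.map ((RingHom.snd N N).comp g.subtype)

theorem ev_fst (g : Subring (N × N)) (z : N × N) (q : g[X]) : (ev g z q).1 = (P1 q).eval z.1 := by
  unfold ev P1
  rw [coe_eval₂RingHom, eval_map]
  exact hom_eval₂ q g.subtype (RingHom.fst N N) z

theorem ev_snd (g : Subring (N × N)) (z : N × N) (q : g[X]) : (ev g z q).2 = (P2 q).eval z.2 := by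
  unfold ev P2
  rw [coe_eval₂RingHom, eval_map]
  exact hom_eval₂ q g.subtype (RingHom.snd N N) z

theorem coeff_P1 {g : Subring (N × N)} (q : g[X]) (k : ℕ) : (P1 q).coeff k = (q.coeff k).1.1 := by
  unfold P1; rw [coeff_map]; rfl

theorem coeff_P2 {g : Subring (N × N)} (q : g[X]) (k : ℕ) : (P2 q).coeff k = (q.coeff k).1.2 := by
  unfold P2; rw [coeff_map]; rfl

theorem P1_inj (h : Compat v R l) {g : Subring (N × N)} (hg : Cpt R g) :
    Function.Injective ((RingHom.fst N N).comp g.subtype) := by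
  intro a b hab
  exact Subtype.ext (hg.injOn h a.2 b.2 hab)

theorem natDegree_P1 (h : Compat v R l) {g : Subring (N × N)} (hg : Cpt R g) (q : g[X]) :
    (P1 q).natDegree = q.natDegree :=
  natDegree_map_eq_of_injective (P1_inj h hg) q

theorem P1_eq_zero (h : Compat v R l) {g : Subring (N × N)} (hg : Cpt R g) (q : g[X]) :
    P1 q = 0 ↔ q = 0 := Polynomial.map_eq_zero_iff (P1_inj h hg)

/-- Linear factors suffice. -/
theorem lin (h : Compat v R l) {g : Subring (N × N)} (hg : Cpt R g) (z : N × N)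
    (hz : ∀ p ∈ g, R (z.1 - p.1) (z.2 - p.2)) (n : ℕ)
    (hroot : ∀ q : g[X], 0 < q.natDegree → q.natDegree < n → ∃ r ∈ g, (P1 q).eval r.1 = 0) :
    ∀ (k : ℕ) (q : g[X]), q.natDegree = k → k < n → R (ev g z q).1 (ev g z q).2 := by
  intro k
  induction k with
  | zero =>
    intro q hq _
    obtain ⟨c, rfl⟩ : ∃ c, q = C c := ⟨q.coeff 0, eq_C_of_natDegree_eq_zero hq⟩
    have : ev g z (C c) = c.1 := by simp [ev]
    rw [this]
    exact hg _ c.2
  | succ k ih =>
    intro q hq hk
    obtain ⟨r, hr, hr0⟩ := hroot q (by omega) (by omega)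
    have hqr : q.eval ⟨r, hr⟩ = 0 := by
      have e : ((q.eval ⟨r, hr⟩ : g) : N × N) = ev g r q := by
        unfold ev
        rw [coe_eval₂RingHom]
        have := hom_eval₂ q (RingHom.id g) g.subtype ⟨r, hr⟩
        simp only [eval₂_id, RingHomCompTriple.comp_eq] at this
        exact this
      have h1 : ((q.eval ⟨r, hr⟩ : g) : N × N).1 = 0 := by rw [e, ev_fst, hr0]
      exact Subtype.ext (hg.fst_eq_zero h (q.eval ⟨r, hr⟩ : g).2 h1)
    obtain ⟨S, hS⟩ := dvd_iff_isRoot.mpr hqr
    have hnt : Nontrivial g := by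
      refine ⟨⟨0, 1, ?_⟩⟩
      intro h01
      have := congrArg (fun x : g => x.1.1) h01
      simp at this
    have hS0 : S ≠ 0 := by
      rintro rfl
      rw [mul_zero] at hS
      rw [hS, natDegree_zero] at hq
      omega
    have hSn : S.natDegree = k := by
      have := congrArg natDegree hS
      rw [(monic_X_sub_C _).natDegree_mul' hS0, natDegree_X_sub_C, hq] at this
      omega
    have hev : ev g z q = (z - r) * ev g z S := by
      rw [hS, map_mul]
      congr 1
      simp [ev]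
    rw [hev]
    exact h.mul (hz r hr) (ih S hSn (by omega))

/-- adjoining a point -/
theorem cpt_range (h : Compat v R l) {g : Subring (N × N)} (hg : Cpt R g) (z : N × N)
    (hz : ∀ p ∈ g, R (z.1 - p.1) (z.2 - p.2))
    (hroot : ∀ q : g[X], 0 < q.natDegree → ∃ r ∈ g, (P1 q).eval r.1 = 0) :
    Cpt R (ev g z).range := by
  rintro p ⟨q, rfl⟩
  exact lin h hg z hz (q.natDegree + 1) (fun q hq _ => hroot q hq) q.natDegree q rfl (by omega)

theorem le_range (g : Subring (N × N)) (z : N × N) : g ≤ (ev g z).range := by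
  intro p hp
  exact ⟨C ⟨p, hp⟩, by simp [ev]⟩

theorem mem_range (g : Subring (N × N)) (z : N × N) : z ∈ (ev g z).range := ⟨X, by simp [ev]⟩

/-- closure under fractions -/
def frac (h : Compat v R l) (g : Subring (N × N)) (hg : Cpt R g) : Subring (N × N) where
  carrier := {p | ∃ a ∈ g, ∃ b ∈ g, b.1 ≠ 0 ∧ b.2 ≠ 0 ∧ p = (a.1 / b.1, a.2 / b.2)}
  mul_mem' := by
    rintro _ _ ⟨a, ha, b, hb, hb1, hb2, rfl⟩ ⟨c, hc, d, hd, hd1, hd2, rfl⟩
    refine ⟨a * c, g.mul_mem ha hc, b * d, g.mul_mem hb hd, mul_ne_zero hb1 hd1,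
      mul_ne_zero hb2 hd2, ?_⟩
    ext <;> simp [div_mul_div_comm]
  one_mem' := ⟨1, g.one_mem, 1, g.one_mem, by simp, by simp, by ext <;> simp⟩
  add_mem' := by
    rintro _ _ ⟨a, ha, b, hb, hb1, hb2, rfl⟩ ⟨c, hc, d, hd, hd1, hd2, rfl⟩
    refine ⟨a * d + b * c, g.add_mem (g.mul_mem ha hd) (g.mul_mem hb hc), b * d,
      g.mul_mem hb hd, mul_ne_zero hb1 hd1, mul_ne_zero hb2 hd2, ?_⟩
    ext
    · simp only [Prod.fst_add, Prod.fst_mul]; field_simp
    · simp only [Prod.snd_add, Prod.snd_mul]; field_simp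
  zero_mem' := ⟨0, g.zero_mem, 1, g.one_mem, by simp, by simp, by ext <;> simp⟩
  neg_mem' := by
    rintro _ ⟨a, ha, b, hb, hb1, hb2, rfl⟩
    refine ⟨-a, g.neg_mem ha, b, hb, hb1, hb2, ?_⟩
    ext <;> simp [neg_div]

theorem cpt_frac (h : Compat v R l) (g : Subring (N × N)) (hg : Cpt R g) : Cpt R (frac h g hg) := by
  rintro _ ⟨a, ha, b, hb, hb1, hb2, rfl⟩
  rw [div_eq_mul_inv, div_eq_mul_inv]
  exact h.mul (hg a ha) (h.inv (hg b hb))

theorem le_frac (h : Compat v R l) (g : Subring (N × N)) (hg : Cpt R g) : g ≤ frac h g hg := by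
  intro p hp
  exact ⟨p, hp, 1, g.one_mem, by simp, by simp, by ext <;> simp⟩

end Pool.Agent.HM
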