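import Mathlib
import Pool.Agent.W_MP_4ae68b_lc.Ext

set_option autoImplicit false

namespace Pool.Agent.HM

open Polynomial

variable {N : Type*} [Field N] {Γ : Type*} [LinearOrderedCommGroupWithZero Γ]
variable {v : Valuation N Γ} {R : N → N → Prop} {l : Γ}

theorem eval_mem_of (W : Subfield N) (p : N[X]) (hp : ∀ k, p.coeff k ∈ W) {z : N} (hz : z ∈ W) :
    p.eval z ∈ W := by
  rw [eval_eq_sum_range]
  exact W.sum_mem fun k _ => W.mul_mem (hp k) (W.pow_mem hz k)

/-- One algebraic extension step. -/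
theorem alg_step [IsAlgClosed N] (hchar : ∀ n : ℕ, n ≠ 0 → v (n : N) = 1) (h : Compat v R l)
    (W : Subfield N)
    (hWroot : ∀ p : N[X], p ≠ 0 → (∀ k, p.coeff k ∈ W) → ∀ z, p.eval z = 0 → z ∈ W)
    (hRW : ∀ x ∈ W, ∃ x', R x x') (g : Subring (N × N)) (hg : Cpt R g) (hgW : ∀ p ∈ g, p.1 ∈ W)
    (hginv : ∀ p ∈ g, p⁻¹ ∈ g)
    (hex : ∃ α ∈ W, (∀ p ∈ g, p.1 ≠ α) ∧ ∃ q : g[X], q ≠ 0 ∧ (P1 q).eval α = 0) :
    ∃ g' : Subring (N × N), g ≤ g' ∧ Cpt R g' ∧ (∀ p ∈ g', p.1 ∈ W) ∧ ¬ g' ≤ g := by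
  classical
  have hnt : Nontrivial g := by
    refine ⟨⟨0, 1, ?_⟩⟩
    intro h01
    have := congrArg (fun x : g => x.1.1) h01
    simp at this
  have hexn : ∃ n, ∃ α ∈ W, (∀ p ∈ g, p.1 ≠ α) ∧ ∃ q : g[X], q ≠ 0 ∧ q.natDegree = n ∧
      (P1 q).eval α = 0 := by
    obtain ⟨α, hα, hα2, q, hq, hq2⟩ := hex
    exact ⟨_, α, hα, hα2, q, hq, rfl, hq2⟩
  obtain ⟨α, hαW, hαg, q₀, hq₀, hq₀d, hq₀α⟩ := Nat.find_spec hexn
  have hlow := fun {m : ℕ} => Nat.find_min hexn (m := m)
  set d := Nat.find hexn with hd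
  have low : ∀ q' : g[X], q' ≠ 0 → q'.natDegree < d → ∀ z, (P1 q').eval z = 0 →
      ∃ p ∈ g, p.1 = z := by
    intro q' hq' hq'd z hz
    by_contra hcon
    push Not at hcon
    apply hlow hq'd
    refine ⟨z, ?_, hcon, q', hq', rfl, hz⟩
    apply hWroot (P1 q') ((P1_eq_zero h hg q').not.mpr hq') _ z hz
    intro k
    rw [coeff_P1]
    exact hgW _ (q'.coeff k).2
  -- make it monic
  obtain ⟨q, hqm, hqd, hqα⟩ : ∃ q : g[X], q.Monic ∧ q.natDegree = d ∧ (P1 q).eval α = 0 := by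
    have hc0 : q₀.leadingCoeff ≠ 0 := leadingCoeff_ne_zero.mpr hq₀
    have hc1 : (q₀.leadingCoeff : N × N).1 ≠ 0 := by
      intro h0
      exact hc0 (Subtype.ext (hg.fst_eq_zero h q₀.leadingCoeff.2 h0))
    have hc2 : (q₀.leadingCoeff : N × N).2 ≠ 0 := by
      intro h0
      exact hc1 ((h.eq_zero_iff (hg _ q₀.leadingCoeff.2)).mpr h0)
    set ci : g := ⟨(q₀.leadingCoeff : N × N)⁻¹, hginv _ q₀.leadingCoeff.2⟩ with hci
    have hcc : ci * q₀.leadingCoeff = 1 := by
      apply Subtype.ext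
      ext
      · exact inv_mul_cancel₀ hc1
      · exact inv_mul_cancel₀ hc2
    refine ⟨C ci * q₀, monic_C_mul_of_mul_leadingCoeff_eq_one hcc, ?_, ?_⟩
    · rw [natDegree_C_mul_eq_of_mul_eq_one (show q₀.leadingCoeff * ci = 1 by rw [mul_comm]; exact hcc),
        hq₀d]
    · unfold P1 at hq₀α ⊢
      rw [Polynomial.map_mul, eval_mul, hq₀α, mul_zero]
  have hq0 : q ≠ 0 := hqm.ne_zero
  have hd0 : d ≠ 0 := by
    intro h0
    rw [h0] at hqd
    have : q = 1 := hqm.natDegree_eq_zero.mp hqd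
    rw [this] at hqα
    simp [P1] at hqα
  have hP1d : (P1 q).natDegree = d := by rw [natDegree_P1 h hg, hqd]
  have hd1 : d ≠ 1 := by
    intro h1
    rw [h1] at hqd
    have e := hqm.eq_X_add_C hqd
    rw [e] at hqα
    unfold P1 at hqα
    simp only [Polynomial.map_add, map_X, map_C, eval_add, eval_X, eval_C] at hqα
    refine hαg (-(q.coeff 0 : N × N)) (g.neg_mem (q.coeff 0).2) ?_
    have h2 : (((RingHom.fst N N).comp g.subtype) (q.coeff 0)) = (q.coeff 0 : N × N).1 := rfl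
    rw [h2] at hqα
    rw [Prod.fst_neg]
    linear_combination -hqα
  -- derivative
  have hderP1 : P1 (derivative q) = (P1 q).derivative := by
    unfold P1; rw [derivative_map]
  have hderne : derivative q ≠ 0 := by
    intro h0
    have h1 : (P1 q).derivative = 0 := by rw [← hderP1, h0]; simp [P1]
    have h2 := congrArg (fun p => p.coeff (d - 1)) h1
    simp only [coeff_derivative, coeff_zero] at h2
    have e : d - 1 + 1 = d := by omega
    have h3 : (P1 q).coeff d = 1 := by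
      have := hqm.map ((RingHom.fst N N).comp g.subtype)
      have h4 : (P1 q).leadingCoeff = 1 := this
      rwa [leadingCoeff, hP1d] at h4
    rw [e, h3, one_mul] at h2
    have h5 : ((d : ℕ) : N) = 0 := by
      have : ((d - 1 : ℕ) : N) + 1 = ((d : ℕ) : N) := by
        rw [← Nat.cast_succ, Nat.succ_eq_add_one, e]
      rw [← this]; exact h2
    have h6 := hchar d hd0
    rw [h5, v.map_zero] at h6
    exact zero_ne_one h6
  have hders : (P1 q).derivative.eval α ≠ 0 := by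
    intro h0
    rw [← hderP1] at h0
    obtain ⟨p, hp, hpα⟩ := low _ hderne (by
      rw [← hqd]; exact natDegree_derivative_lt (by rw [hqd]; exact hd0)) α h0
    exact hαg p hp hpα
  -- another root
  have hP1ne : P1 q ≠ 0 := (P1_eq_zero h hg q).not.mpr hq0
  obtain ⟨α₂, hα₂, hα₂ne⟩ : ∃ α₂, (P1 q).eval α₂ = 0 ∧ α₂ ≠ α := by
    obtain ⟨S, hS⟩ := dvd_iff_isRoot.mpr (show IsRoot (P1 q) α from hqα)
    have hS0 : S ≠ 0 := by rintro rfl; rw [mul_zero] at hS; exact hP1ne hS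
    have hSd : S.natDegree + 1 = d := by
      have := congrArg natDegree hS
      rw [natDegree_mul (X_sub_C_ne_zero α) hS0, natDegree_X_sub_C, hP1d] at this
      omega
    have hSα : S.eval α ≠ 0 := by
      intro h0
      apply hders
      rw [hS, derivative_mul, eval_add, eval_mul, eval_mul, h0]
      simp
    obtain ⟨z, hz⟩ := IsAlgClosed.exists_root S (by
      intro h0
      have := natDegree_eq_of_degree_eq_some (n := 0) (by simpa using h0)
      omega)
    refine ⟨z, by rw [hS, eval_mul, hz.eq_zero, mul_zero], ?_⟩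
    rintro rfl
    exact hSα hz
  obtain ⟨α₃, hα₃mem, hα₃min⟩ := Finset.exists_min_image ((P1 q).roots.toFinset.erase α)
    (fun z => v (z - α)) ⟨α₂, by
      rw [Finset.mem_erase, Multiset.mem_toFinset, mem_roots hP1ne]
      exact ⟨hα₂ne, hα₂⟩⟩
  rw [Finset.mem_erase, Multiset.mem_toFinset, mem_roots hP1ne] at hα₃mem
  obtain ⟨hα₃ne, hα₃⟩ := hα₃mem
  have hmin : ∀ z, (P1 q).eval z = 0 → z ≠ α → v (α₃ - α) ≤ v (z - α) := by
    intro z hz hzα
    apply hα₃min
    rw [Finset.mem_erase, Multiset.mem_toFinset, mem_roots hP1ne]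
    exact ⟨hzα, hz⟩
  obtain ⟨c, hc, hvc⟩ := rolle v hchar (P1 q) α hqα hders α₃ hα₃ hα₃ne hmin
  set r := v (α₃ - α) with hr
  obtain ⟨pc, hpc, rfl⟩ := low _ hderne (by
      rw [← hqd]; exact natDegree_derivative_lt (by rw [hqd]; exact hd0)) c (by rw [hderP1]; exact hc)
  -- lifting around a centre
  have key : ∀ p ∈ g, v (α - p.1) ≤ r → ∃ β, (P2 q).eval β = 0 ∧ R (α - p.1) (β - p.2) ∧
      ∀ β', (P2 q).eval β' = 0 → R (α - p.1) (β' - p.2) → β' = β := by
    intro p hp hpr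
    set qs : g[X] := q.comp (X + C ⟨p, hp⟩) with hqs
    have e1 : P1 qs = (P1 q).comp (X + C p.1) := by
      rw [hqs]; unfold P1; rw [map_comp]; simp
    have e2 : P2 qs = (P2 q).comp (X + C p.2) := by
      rw [hqs]; unfold P2; rw [map_comp]; simp
    obtain ⟨x₀, hx₀⟩ := hRW (α - p.1) (W.sub_mem hαW (hgW p hp))
    obtain ⟨β, hβ, hRβ, hβu⟩ := lift_root hchar h (P1 qs) (P2 qs) (by
        intro k
        rw [coeff_P1, coeff_P2]
        exact hg _ (qs.coeff k).2)
      (α - p.1) (sub_ne_zero.mpr (fun h0 => hαg p hp h0.symm))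
      (by rw [e1, eval_comp]; simpa using hqα)
      (by
        rw [e1, derivative_comp, eval_mul]
        simp only [derivative_add, derivative_X, derivative_C, add_zero, eval_one, one_mul,
          eval_comp, eval_add, eval_X, eval_C, sub_add_cancel]
        exact hders)
      (by
        intro z hz hzne
        rw [e1, eval_comp] at hz
        simp only [eval_add, eval_X, eval_C] at hz
        have h1 := hmin (z + p.1) hz (by
          intro h0; apply hzne; rw [← h0]; ring)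
        have e : z + p.1 - α = z - (α - p.1) := by ring
        rw [e] at h1
        exact hpr.trans h1)
      x₀ hx₀
    rw [e2, eval_comp] at hβ
    simp only [eval_add, eval_X, eval_C] at hβ
    refine ⟨β + p.2, hβ, by simpa using hRβ, ?_⟩
    intro β' hβ' hRβ'
    have := hβu (β' - p.2) (by rw [e2, eval_comp]; simpa using hβ') hRβ'
    rw [← this]; ring
  have hvαc : v (α - pc.1) = r := by rw [← hvc, v.map_sub_swap]
  obtain ⟨β, hβ, hRβ, hβu⟩ := key pc hpc hvαc.le
  have hall : ∀ p ∈ g, R (α - p.1) (β - p.2) := by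
    intro p hp
    rcases le_or_gt r (v (α - p.1)) with hge | hlt
    · have e1 : α - p.1 = (α - pc.1) + (pc.1 - p.1) := by ring
      have e2 : β - p.2 = (β - pc.2) + (pc.2 - p.2) := by ring
      rw [e1, e2]
      refine h.add₂ hRβ (hg (pc - p) (g.sub_mem hpc hp)) ?_ ?_
      · rw [← e1, hvαc]; exact hge
      · rw [← e1]
        have e3 : pc.1 - p.1 = (α - p.1) - (α - pc.1) := by ring
        rw [e3]
        exact v.map_sub_le le_rfl (by rw [hvαc]; exact hge)
    · obtain ⟨βp, hβp, hRβp, _⟩ := key p hp hlt.le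
      have : βp = β := by
        apply hβu βp hβp
        have e1 : α - pc.1 = (α - p.1) + (p.1 - pc.1) := by ring
        have e2 : βp - pc.2 = (βp - p.2) + (p.2 - pc.2) := by ring
        rw [e1, e2]
        refine h.add₂ hRβp (hg (p - pc) (g.sub_mem hp hpc)) ?_ ?_
        · rw [← e1, hvαc]; exact hlt.le
        · rw [← e1, hvαc]
          have e3 : p.1 - pc.1 = (α - pc.1) - (α - p.1) := by ring
          rw [e3]
          exact v.map_sub_le hvαc.le hlt.le
      rw [← this]; exact hRβp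
  refine ⟨(ev g (α, β)).range, le_range g _, ?_, ?_, ?_⟩
  · rintro _ ⟨P, rfl⟩
    have hq00 : ev g (α, β) q = 0 := by
      ext
      · rw [ev_fst]; exact hqα
      · rw [ev_snd]; exact hβ
    have hmod := modByMonic_add_div P q
    have e : ev g (α, β) P = ev g (α, β) (P %ₘ q) := by
      conv_lhs => rw [← hmod]
      rw [map_add, map_mul, hq00, zero_mul, add_zero]
    rw [e]
    refine lin h hg (α, β) hall d ?_ _ (P %ₘ q) rfl ?_
    · intro q' hq'0 hq'd
      obtain ⟨z, hz⟩ := IsAlgClosed.exists_root (P1 q') (by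
        intro h0
        have := natDegree_eq_of_degree_eq_some (n := 0) (by simpa using h0)
        rw [natDegree_P1 h hg] at this
        omega)
      obtain ⟨p, hp, hpz⟩ := low q' (by rintro rfl; simp at hq'0) hq'd z hz
      exact ⟨p, hp, by rw [hpz]; exact hz⟩
    · rw [← hqd]
      exact natDegree_modByMonic_lt P hqm (by rintro rfl; simp [P1] at hqα)
  · rintro _ ⟨P, rfl⟩
    rw [ev_fst]
    exact eval_mem_of W _ (fun k => by rw [coeff_P1]; exact hgW _ (P.coeff k).2) hαW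
  · intro hle
    exact hαg _ (hle (mem_range g (α, β))) rfl

/-- The forth property. -/
theorem forth [IsAlgClosed N] (hchar : ∀ n : ℕ, n ≠ 0 → v (n : N) = 1) (h : Compat v R l)
    (W : Subfield N) (hWc : (W : Set N).Countable)
    (hWroot : ∀ p : N[X], p ≠ 0 → (∀ k, p.coeff k ∈ W) → ∀ z, p.eval z = 0 → z ∈ W)
    (hRW : ∀ x ∈ W, ∃ x', R x x')
    (hsat : ∀ (x : N) (g : Set (N × N)), g.Countable →
      (∀ F : Finset (N × N), (F : Set (N × N)) ⊆ g → ∃ y, ∀ p ∈ F, R (x - p.1) (y - p.2)) →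
      ∃ y, ∀ p ∈ g, R (x - p.1) (y - p.2))
    (f : Subring (N × N)) (hf : Cpt R f) (hfW : ∀ p ∈ f, p.1 ∈ W) :
    ∃ g : Subring (N × N), f ≤ g ∧ Cpt R g ∧ (∀ p ∈ g, p.1 ∈ W) ∧ (∀ a ∈ W, ∃ b, (a, b) ∈ g) := by
  classical
  obtain ⟨g, hfg, hgmax⟩ := zorn_le_nonempty₀
    {g : Subring (N × N) | Cpt R g ∧ ∀ p ∈ g, p.1 ∈ W} (by
      intro c hc hchain y hy
      refine ⟨sSup c, ⟨?_, ?_⟩, fun z hz => le_sSup hz⟩
      · intro p hp
        rw [Subring.mem_sSup_of_directedOn ⟨y, hy⟩ hchain.directedOn] at hp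
        obtain ⟨s, hs, hps⟩ := hp
        exact (hc hs).1 p hps
      · intro p hp
        rw [Subring.mem_sSup_of_directedOn ⟨y, hy⟩ hchain.directedOn] at hp
        obtain ⟨s, hs, hps⟩ := hp
        exact (hc hs).2 p hps) f ⟨hf, hfW⟩
  obtain ⟨hg, hgW⟩ := hgmax.prop
  have hmax : ∀ g' : Subring (N × N), g ≤ g' → Cpt R g' → (∀ p ∈ g', p.1 ∈ W) → g' ≤ g :=
    fun g' h1 h2 h3 => hgmax.le_of_ge ⟨h2, h3⟩ h1
  refine ⟨g, hfg, hg, hgW, ?_⟩
  have hginv : ∀ p ∈ g, p⁻¹ ∈ g := by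
    have := hmax (frac h g hg) (le_frac h g hg) (cpt_frac h g hg) (by
      rintro _ ⟨a, ha, b, hb, _, _, rfl⟩
      exact W.div_mem (hgW a ha) (hgW b hb))
    intro p hp
    by_cases hp1 : p.1 = 0
    · have : p = 0 := hg.fst_eq_zero h hp hp1
      rw [this]
      have e : (0 : N × N)⁻¹ = 0 := by ext <;> simp
      rw [e]; exact g.zero_mem
    · have hp2 : p.2 ≠ 0 := fun h0 => hp1 ((h.eq_zero_iff (hg p hp)).mpr h0)
      exact this ⟨1, g.one_mem, p, hp, hp1, hp2, by ext <;> simp⟩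
  by_contra hcon
  push Not at hcon
  obtain ⟨x, hxW, hx⟩ := hcon
  have halg : ∀ α ∈ W, ∀ q : g[X], q ≠ 0 → (P1 q).eval α = 0 → ∃ p ∈ g, p.1 = α := by
    by_contra hcon2
    push Not at hcon2
    obtain ⟨α, hα, q, hq, hqα, hαg⟩ := hcon2
    obtain ⟨g', h1, h2, h3, h4⟩ := alg_step hchar h W hWroot hRW g hg hgW hginv
      ⟨α, hα, hαg, q, hq, hqα⟩
    exact h4 (hmax g' h1 h2 h3)
  have hgc : (g : Set (N × N)).Countable := by
    apply Set.countable_of_injective_of_countable_image (hg.injOn h)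
    refine hWc.mono ?_
    rintro _ ⟨p, hp, rfl⟩
    exact hgW p hp
  obtain ⟨y, hy⟩ := hsat x g hgc (by
    intro F hF
    rcases F.eq_empty_or_nonempty with rfl | hne
    · exact ⟨0, by simp⟩
    obtain ⟨p₀, hp₀, hp₀min⟩ := Finset.exists_min_image F (fun p => v (x - p.1)) hne
    obtain ⟨x₀, hx₀⟩ := hRW (x - p₀.1) (W.sub_mem hxW (hgW _ (hF hp₀)))
    refine ⟨p₀.2 + x₀, ?_⟩
    intro p hp
    have e1 : x - p.1 = (x - p₀.1) + (p₀.1 - p.1) := by ring
    have e2 : p₀.2 + x₀ - p.2 = x₀ + (p₀.2 - p.2) := by ring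
    rw [e1, e2]
    refine h.add₂ hx₀ (hg (p₀ - p) (g.sub_mem (hF hp₀) (hF hp))) ?_ ?_
    · rw [← e1]; exact hp₀min p hp
    · rw [← e1]
      have e3 : p₀.1 - p.1 = (x - p.1) - (x - p₀.1) := by ring
      rw [e3]
      exact v.map_sub_le le_rfl (hp₀min p hp))
  have hcpt := cpt_range h hg (x, y) hy (by
    intro q hq
    obtain ⟨z, hz⟩ := IsAlgClosed.exists_root (P1 q) (by
      intro h0
      have := natDegree_eq_of_degree_eq_some (n := 0) (by simpa using h0)
      rw [natDegree_P1 h hg] at this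
      omega)
    have hq0 : q ≠ 0 := by rintro rfl; simp at hq
    have hzW : z ∈ W := by
      apply hWroot (P1 q) ((P1_eq_zero h hg q).not.mpr hq0) _ z hz
      intro k
      rw [coeff_P1]
      exact hgW _ (q.coeff k).2
    obtain ⟨p, hp, hpz⟩ := halg z hzW q hq0 hz
    exact ⟨p, hp, by rw [hpz]; exact hz⟩)
  have := hmax _ (le_range g (x, y)) hcpt (by
    rintro _ ⟨P, rfl⟩
    rw [ev_fst]
    exact eval_mem_of W _ (fun k => by rw [coeff_P1]; exact hgW _ (P.coeff k).2) hxW)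
  exact hx y (this (mem_range g (x, y)))

end Pool.Agent.HM
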