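import Mathlib
import Pool.Agent.W_MP_4ae68b_lc.Forth
import Pool.Agent.W_MP_4ae68b_lc.EF
import Pool.Agent.W_MP_4ae68b_lc.Fam

set_option autoImplicit false
set_option linter.unusedSectionVars false

namespace Pool.Agent.HM

open FirstOrder FirstOrder.Language
open scoped Polynomial

section general

variable {N : Type} [Field N] {Γ : Type} [LinearOrderedCommGroupWithZero Γ]
variable {v : Valuation N Γ} {R : N → N → Prop} {l : Γ}

/-- the graph with the coordinates swapped -/
def swapS (f : Subring (N × N)) : Subring (N × N) := f.comap (RingEquiv.prodComm : N × N ≃+* N × N).toRingHom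

theorem mem_swapS {f : Subring (N × N)} {p : N × N} : p ∈ swapS f ↔ (p.2, p.1) ∈ f := Iff.rfl

/-- the diagonal of a subfield -/
def diagS (E : Subfield N) : Subring (N × N) where
  carrier := {p | p.1 ∈ E ∧ p.2 = p.1}
  mul_mem' {a b} ha hb := ⟨E.mul_mem ha.1 hb.1, by
    rw [Prod.snd_mul, Prod.fst_mul, ha.2, hb.2]⟩
  one_mem' := ⟨E.one_mem, rfl⟩
  add_mem' {a b} ha hb := ⟨E.add_mem ha.1 hb.1, by
    rw [Prod.snd_add, Prod.fst_add, ha.2, hb.2]⟩
  zero_mem' := ⟨E.zero_mem, rfl⟩
  neg_mem' {a} ha := ⟨E.neg_mem ha.1, by rw [Prod.snd_neg, Prod.fst_neg, ha.2]⟩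

theorem countable_of_dom (h : Compat v R l) {f : Subring (N × N)} (hf : Cpt R f) {W : Set N}
    (hW : W.Countable) (hfW : ∀ p ∈ f, p.1 ∈ W) : (f : Set (N × N)).Countable := by
  apply Set.countable_of_injective_of_countable_image (hf.injOn h)
  refine hW.mono ?_
  rintro _ ⟨p, hp, rfl⟩
  exact hfW p hp

/-- One step forth in a saturated model. -/
theorem forth_one [IsAlgClosed N] (hchar : ∀ n : ℕ, n ≠ 0 → v (n : N) = 1) (h : Compat v R l)
    (hR : ∀ x, ∃ x', R x x')
    (hsat : ∀ (x : N) (g : Set (N × N)), g.Countable →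
      (∀ F : Finset (N × N), (F : Set (N × N)) ⊆ g → ∃ y, ∀ p ∈ F, R (x - p.1) (y - p.2)) →
      ∃ y, ∀ p ∈ g, R (x - p.1) (y - p.2))
    (f : Subring (N × N)) (hf : Cpt R f) (hfc : (f : Set (N × N)).Countable) (b : N) :
    ∃ g : Subring (N × N), f ≤ g ∧ Cpt R g ∧ (g : Set (N × N)).Countable ∧ ∃ c, (b, c) ∈ g := by
  have hs : (Prod.fst '' (f : Set (N × N)) ∪ {b}).Countable :=
    (hfc.image _).union (Set.countable_singleton b)
  set W := algCl (Prod.fst '' (f : Set (N × N)) ∪ {b}) with hW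
  have hsub := subset_algCl (Prod.fst '' (f : Set (N × N)) ∪ {b})
  obtain ⟨g, h1, h2, h3, h4⟩ := forth hchar h W (countable_algCl hs) (algCl_root _)
    (fun x _ => hR x) hsat f hf (fun p hp => hsub (Or.inl ⟨p, hp, rfl⟩))
  exact ⟨g, h1, h2, countable_of_dom h h2 (countable_algCl hs) h3, h4 b (hsub (Or.inr rfl))⟩

/-- Adjoining a pair over the diagonal of an algebraically closed subfield. -/
theorem adjoin_pair [IsAlgClosed N] (h : Compat v R l) (s : Set N) (hs : s.Countable)
    (hrefl : ∀ x, R x x) (x y : N) (hxy : ∀ c ∈ algCl s, R (x - c) (y - c)) :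
    ∃ f : Subring (N × N), Cpt R f ∧ (f : Set (N × N)).Countable ∧ diagS (algCl s) ≤ f ∧
      (x, y) ∈ f := by
  have hcd : Cpt R (diagS (algCl s)) := by
    intro p hp
    rw [hp.2]; exact hrefl _
  have hcpt := cpt_range h hcd (x, y) (by
    intro p hp
    show R (x - p.1) (y - p.2)
    rw [hp.2]
    exact hxy p.1 hp.1) (by
    intro q hq
    obtain ⟨z, hz⟩ := IsAlgClosed.exists_root (P1 q) (by
      intro h0
      have := Polynomial.natDegree_eq_of_degree_eq_some (n := 0) (by simpa using h0)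
      rw [natDegree_P1 h hcd] at this
      omega)
    have hq0 : q ≠ 0 := by rintro rfl; simp at hq
    have hzW : z ∈ algCl s := by
      apply algCl_root s (P1 q) ((P1_eq_zero h hcd q).not.mpr hq0) _ z hz
      intro k
      rw [coeff_P1]
      exact (q.coeff k).2.1
    exact ⟨(z, z), ⟨hzW, rfl⟩, hz⟩)
  refine ⟨_, hcpt, ?_, le_range _ _, mem_range _ _⟩
  have hs' : (s ∪ {x}).Countable := hs.union (Set.countable_singleton x)
  refine countable_of_dom h hcpt (countable_algCl hs') ?_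
  rintro _ ⟨Q, rfl⟩
  rw [ev_fst]
  have hmono : (algCl s : Set N) ⊆ algCl (s ∪ {x}) := by
    intro c hc
    obtain ⟨q, hq0, hq⟩ := hc
    refine algCl_root _ (q.map (algebraMap _ N)) ?_ ?_ c ?_
    · rw [Polynomial.map_ne_zero_iff]
      · exact hq0
      · exact Subtype.val_injective
    · intro k
      rw [Polynomial.coeff_map]
      have h1 : ((q.coeff k : Subring.closure s) : N) ∈ Subring.closure (algCl (s ∪ {x}) : Set N) :=
        Subring.closure_mono (Set.subset_union_left.trans (subset_algCl _)) (q.coeff k).2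
      have h2 : Subring.closure (algCl (s ∪ {x}) : Set N) ≤ (algCl (s ∪ {x})).toSubring :=
        Subring.closure_le.mpr (fun _ h => h)
      exact h2 h1
    · rw [Polynomial.eval_map_algebraMap, hq]
  exact eval_mem_of (algCl (s ∪ {x})) _ (fun k => by
    rw [coeff_P1]; exact hmono (Q.coeff k).2.1) (subset_algCl _ (Or.inr rfl))

end general

theorem rvEq_symm {N : Type} [Field N] (V : ValuationSubring N) {l x y : N} (hl : l ≠ 0)
    (hlV : l ∈ V) (h : rvEq (V : Set N) l x y) : rvEq (V : Set N) l y x := by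
  have hv := (compat_rv V l hl hlV).val h
  rw [rvEq_iff] at h ⊢
  rcases h with ⟨h1, h2⟩ | ⟨h1, h2, h3⟩
  · exact Or.inl ⟨h2, h1⟩
  · refine Or.inr ⟨h2, h1, ?_⟩
    rw [← hv, Valuation.map_sub_swap]
    exact h3

theorem rvEq_refl {N : Type} [Field N] (V : ValuationSubring N) {l : N} (hl : l ≠ 0) (x : N) :
    rvEq (V : Set N) l x x := by
  rw [rvEq_iff]
  by_cases hx : x = 0
  · exact Or.inl ⟨hx, hx⟩
  · refine Or.inr ⟨hx, hx, ?_⟩
    rw [sub_self, map_zero]
    exact mul_pos (zero_lt_iff.mpr ((map_ne_zero _).mpr hl)) (zero_lt_iff.mpr ((map_ne_zero _).mpr hx))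

theorem rvEq_one {N : Type} [Field N] (V : ValuationSubring N) {l x y : N}
    (hlV : l ∈ V) (h : rvEq (V : Set N) l x y) : rvEq (V : Set N) 1 x y := by
  rw [rvEq_iff] at h ⊢
  rcases h with h | ⟨h1, h2, h3⟩
  · exact Or.inl h
  · refine Or.inr ⟨h1, h2, lt_of_lt_of_le h3 (mul_le_mul' ?_ le_rfl)⟩
    rw [map_one]
    exact (V.valuation_le_one_iff l).mpr hlV

/-- The system of countable compatible subrings for `rv_λ` in the ultrapower. -/
def Sys {K : Type} [Field K] (V : ValuationSubring K) (l : UP K) : Set (Subring (UP K × UP K)) :=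
  {f | Cpt (rvEq ((upV V : ValuationSubring (UP K)) : Set (UP K)) l) f ∧ (f : Set (UP K × UP K)).Countable}

section

variable {K : Type} [Field K] [IsAlgClosed K] [CharZero K] (V : ValuationSubring K)
  (hres : ∀ n : ℕ, (n : K)⁻¹ ∈ V) (l : UP K) (hl : l ≠ 0) (hlV : l ∈ upV V)

include hres in
theorem hres_UP (n : ℕ) : ((n : UP K))⁻¹ ∈ upV V := by
  have : ((n : UP K))⁻¹ = (((fun _ => (n : K)⁻¹) : ℕ → K) : UP K) := rfl
  rw [this, mem_upV]
  exact Filter.Eventually.of_forall fun _ => hres n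

include hres in
theorem hchar_UP (n : ℕ) (hn : n ≠ 0) : (upV V).valuation (n : UP K) = 1 := by
  have := charZero_UP (K := K)
  exact hchar_of (upV V) (hres_UP V hres) n hn

include hres hl hlV in
theorem sys_forth (f : Subring (UP K × UP K)) (hf : f ∈ Sys V l) (b : UP K) :
    ∃ g ∈ Sys V l, f ≤ g ∧ ∃ c, (b, c) ∈ g := by
  have := isAlgClosed_UP (K := K)
  obtain ⟨g, h1, h2, h3, h4⟩ := forth_one (hchar_UP V hres) (compat_rv (upV V) l hl hlV)
    (fun x => ⟨x, rvEq_refl _ hl x⟩) (fun x g hg h => sat_rv V l x g hg h) f hf.1 hf.2 b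
  exact ⟨g, ⟨h2, h3⟩, h1, h4⟩

include hl hlV in
theorem swap_sys {f : Subring (UP K × UP K)} (hf : f ∈ Sys V l) : swapS f ∈ Sys V l := by
  refine ⟨fun p hp => rvEq_symm (upV V) hl hlV (hf.1 _ hp), ?_⟩
  have : (swapS f : Set (UP K × UP K)) = Prod.swap '' (f : Set (UP K × UP K)) := by
    ext p
    simp only [SetLike.mem_coe, mem_swapS, Set.mem_image, Prod.exists]
    constructor
    · intro h
      exact ⟨p.2, p.1, h, rfl⟩
    · rintro ⟨a, b, h, rfl⟩
      exact h
  rw [this]
  exact hf.2.image _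

include hres hl hlV in
theorem sys_back (f : Subring (UP K × UP K)) (hf : f ∈ Sys V l) (b : UP K) :
    ∃ g ∈ Sys V l, f ≤ g ∧ ∃ c, (c, b) ∈ g := by
  obtain ⟨g, hg, hfg, c, hc⟩ := sys_forth V hres l hl hlV (swapS f) (swap_sys V l hl hlV hf) b
  exact ⟨swapS g, swap_sys V l hl hlV hg, fun p hp => hfg (show (p.2, p.1) ∈ swapS f from hp),
    c, hc⟩

include hres hl hlV in
theorem sys_forth_finset (s : Finset (UP K)) (f : Subring (UP K × UP K)) (hf : f ∈ Sys V l) :
    ∃ g ∈ Sys V l, f ≤ g ∧ ∀ b ∈ s, ∃ c, (b, c) ∈ g := by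
  classical
  induction s using Finset.induction_on with
  | empty => exact ⟨f, hf, le_rfl, by simp⟩
  | insert b s hb ih =>
    obtain ⟨g, hg, hfg, h⟩ := ih
    obtain ⟨g', hg', hgg', c, hc⟩ := sys_forth V hres l hl hlV g hg b
    refine ⟨g', hg', hfg.trans hgg', ?_⟩
    intro b' hb'
    rcases Finset.mem_insert.mp hb' with rfl | hb'
    · exact ⟨c, hc⟩
    · obtain ⟨c', hc'⟩ := h b' hb'
      exact ⟨c', hgg' hc'⟩

end

theorem pred_UP {R : ℕ → Type} (O : R 1) {K : Type} [Field K] [Interp R K] (V : ValuationSubring K)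
    (hV : pred O K = V) : pred O (UP K) = ((upV V : ValuationSubring (UP K)) : Set (UP K)) := by
  ext x
  rw [← coe_rep x]
  show Interp.rel 1 O (fun _ => ((rep x : ℕ → K) : UP K)) ↔ _
  rw [rel_coe O (fun _ => rep x)]
  have : ∀ i, (Interp.rel 1 O (fun _ => rep x i)) ↔ rep x i ∈ V := by
    intro i
    have h1 : rep x i ∈ pred O K ↔ rep x i ∈ (V : Set K) := by rw [hV]
    exact h1
  simp only [this]
  rfl

/-- An algebraically closed valued field of residue characteristic zero with additional structure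
on `RV` is `ω`-h-minimal. -/
theorem main1 {R : ℕ → Type} (O : R 1) (K : Type) [Field K] [Interp R K] [IsAlgClosed K]
    [CharZero K] (V : ValuationSubring K) (hV : pred O K = V) (hres : ∀ n : ℕ, (n : K)⁻¹ ∈ V)
    (hinv : ∀ (n : ℕ) (r : R n) (v w : Fin n → K), (∀ i, rvEq (V : Set K) 1 (v i) (w i)) →
      (Interp.rel n r v ↔ Interp.rel n r w)) : OmegaHMinimal O K := by
  apply omegaHMinimal_of O K (by rw [hV]; exact V.zero_mem) (by rw [hV]; exact V.one_mem)
  intro P _ k φ
  have hne : Nonempty (Idx R Empty P) := ⟨⟨∅, []⟩⟩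
  have hcP : Countable P := Finite.to_countable
  apply prep_of_ultra O K (I := Idx R Empty P) (fun i => fam (Empty.elim) i.1 i.2)
    (fun i => i.2.length) (fun i a => finLe_fam _ Empty.elim (fun c => c.elim) _ _ a) k φ
  intro a l ξ x y hl hlO hInv hδ
  rw [pred_UP O V hV] at hlO hδ
  have hlV : l ∈ upV V := hlO
  have := isAlgClosed_UP (K := K)
  have hcomp := compat_rv (upV V) l hl hlV
  set s : Set (UP K) := Set.range a ∪ Set.range (Empty.elim : Empty → UP K) with hs
  have hsc : s.Countable := (Set.countable_range a).union (Set.countable_range _)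
  have hxy : ∀ c ∈ algCl s, rvEq ((upV V : ValuationSubring (UP K)) : Set (UP K)) l (x - c) (y - c) := by
    intro c hc
    obtain ⟨F, ts, hF⟩ := exists_fam (R := R) (fun c : Empty => c.elim) (Empty.elim : Empty → UP K)
      (fun c => c.elim) a c hc
    have e : (fun c : Empty => (c.elim : R 1)) = Empty.elim := by ext c; exact c.elim
    rw [e] at hF
    exact hδ ⟨F, ts⟩ c hF
  obtain ⟨f, hf1, hf2, hf3, hf4⟩ := adjoin_pair hcomp s hsc (fun x => rvEq_refl _ hl x) x y hxy
  have hrel : ∀ f ∈ Sys V l, ∀ (n : ℕ) (r : R n) (v w : Fin n → UP K), (∀ i, (v i, w i) ∈ f) →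
      (Interp.rel n r v ↔ Interp.rel n r w) := by
    intro f hf n r v w hvw
    have h1 : ∀ i, rvEq ((upV V : ValuationSubring (UP K)) : Set (UP K)) 1 (v i) (w i) := fun i =>
      rvEq_one _ hlV (hf.1 _ (hvw i))
    have h2 : ∀ i, ∀ᶠ j in (UU : Filter ℕ), rvEq (V : Set K) 1 (rep (v i) j) (rep (w i) j) := by
      intro i
      have h3 := h1 i
      rw [← coe_rep (v i), ← coe_rep (w i)] at h3
      exact (up_rv V (fun _ => 1) (rep (v i)) (rep (w i))).mp h3
    have h3 := Filter.eventually_all.mpr h2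
    have h4 : ∀ᶠ j in (UU : Filter ℕ), (Interp.rel n r (fun i => rep (v i) j) ↔
        Interp.rel n r (fun i => rep (w i) j)) := by
      filter_upwards [h3] with j hj
      exact hinv n r _ _ hj
    show (∀ᶠ j in (UU : Filter ℕ), Interp.rel n r (fun i => rep (v i) j)) ↔
      (∀ᶠ j in (UU : Filter ℕ), Interp.rel n r (fun i => rep (w i) j))
    constructor
    · intro h5
      filter_upwards [h4, h5] with j h6 h7
      exact h6.mp h7
    · intro h5
      filter_upwards [h4, h5] with j h6 h7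
      exact h6.mpr h7
  classical
  obtain ⟨g, hg, hfg, hgs⟩ := sys_forth_finset V hres l hl hlV
    (insert l (Finset.univ.image ξ)) f ⟨hf1, hf2⟩
  obtain ⟨l', hl'⟩ := hgs l (Finset.mem_insert_self _ _)
  have hξ : ∀ i, ∃ c, (ξ i, c) ∈ g := fun i =>
    hgs (ξ i) (Finset.mem_insert_of_mem (Finset.mem_image_of_mem _ (Finset.mem_univ i)))
  choose ξ' hξ' using hξ
  have hef := ef_formula (Sys V l) (fun f hf p hp => hcomp.eq_zero_iff (hf.1 p hp)) hrel
    (sys_forth V hres l hl hlV) (sys_back V hres l hl hlV) φ g hg (asg a x l ξ) (asg a y l' ξ') (by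
      rintro (p | i)
      · exact hfg (hf3 ⟨subset_algCl s (Or.inl ⟨p, rfl⟩), rfl⟩)
      · refine Fin.cases ?_ (fun i => ?_) i
        · exact hfg hf4
        · refine Fin.cases ?_ (fun i => ?_) i
          · exact hl'
          · exact hξ' i)
  rw [hef]
  exact (hInv l' ξ' (by
    rw [pred_UP O V hV, veq_iff]
    exact (hcomp.val (hg.1 _ hl')).symm) (fun i => by
    rw [pred_UP O V hV]
    exact hg.1 _ (hξ' i)) y).symm

end Pool.Agent.HM
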