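import Mathlib
import Pool.Agent.W_MP_4ae68b_lc.Sys1

set_option autoImplicit false
set_option linter.unusedSectionVars false

namespace Pool.Agent.HM

open scoped Polynomial

/-- Angular component and residue maps. -/
structure AC {N κ : Type} [Field N] [Field κ] (V : ValuationSubring N) (ac res : N → κ) : Prop where
  ac_zero : ac 0 = 0
  ac_one : ac 1 = 1
  ac_mul : ∀ x y, ac (x * y) = ac x * ac y
  ac_ne : ∀ x, x ≠ 0 → ac x ≠ 0
  res_add : ∀ x y, V.valuation x ≤ 1 → V.valuation y ≤ 1 → res (x + y) = res x + res y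
  res_unit : ∀ x, V.valuation x = 1 → res x = ac x
  res_lt : ∀ x, V.valuation x < 1 → res x = 0
  surj : ∀ r, r ≠ 0 → ∃ x, V.valuation x = 1 ∧ ac x = r

namespace AC

variable {N κ : Type} [Field N] [Field κ] {V : ValuationSubring N} {ac res : N → κ}

theorem res_zero (H : AC V ac res) : res 0 = 0 := H.res_lt 0 (by simp)

theorem res_neg (H : AC V ac res) (x : N) (hx : V.valuation x ≤ 1) : res (-x) = - res x := by
  have := H.res_add x (-x) hx (by rwa [Valuation.map_neg])
  rw [add_neg_cancel, H.res_zero] at this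
  exact (neg_eq_of_add_eq_zero_right this.symm).symm

theorem ac_inv (H : AC V ac res) (x : N) : ac x⁻¹ = (ac x)⁻¹ := by
  by_cases hx : x = 0
  · rw [hx, inv_zero, H.ac_zero, inv_zero]
  · have := H.ac_mul x x⁻¹
    rw [mul_inv_cancel₀ hx, H.ac_one] at this
    exact eq_inv_of_mul_eq_one_right this.symm

theorem ac_eq_zero (H : AC V ac res) (x : N) : ac x = 0 ↔ x = 0 := by
  constructor
  · intro h
    by_contra hx
    exact H.ac_ne x hx h
  · rintro rfl
    exact H.ac_zero

/-- same leading term -/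
theorem ac_eq_of_lt (H : AC V ac res) (x y : N) (h : V.valuation (x - y) < V.valuation x) :
    ac y = ac x := by
  have hx : x ≠ 0 := by
    rintro rfl
    rw [map_zero] at h
    exact absurd h (not_lt.mpr zero_le)
  have hvx : 0 < V.valuation x := zero_lt_iff.mpr ((map_ne_zero _).mpr hx)
  have hε : V.valuation ((x - y) / x) < 1 := by
    rw [map_div₀, div_lt_one₀ hvx]; exact h
  have e : y = x * (1 + -((x - y) / x)) := by field_simp; ring
  have hv1 : V.valuation (1 + -((x - y) / x)) = 1 := by
    rw [Valuation.map_add_eq_of_lt_left, map_one]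
    rw [Valuation.map_neg, map_one]; exact hε
  have h1 : res (1 + -((x - y) / x)) = 1 := by
    rw [H.res_add _ _ (by rw [map_one]) (by rw [Valuation.map_neg]; exact hε.le),
      H.res_neg _ hε.le, H.res_lt _ hε, neg_zero, add_zero, H.res_unit 1 (map_one _), H.ac_one]
  rw [H.res_unit _ hv1] at h1
  rw [e, H.ac_mul, h1, mul_one]

theorem lt_of_ac_eq (H : AC V ac res) (x y : N) (hx : x ≠ 0) (hv : V.valuation x = V.valuation y)
    (h : ac x = ac y) : V.valuation (x - y) < V.valuation x := by
  have hvx : 0 < V.valuation x := zero_lt_iff.mpr ((map_ne_zero _).mpr hx)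
  have hz : V.valuation (y / x) = 1 := by rw [map_div₀, ← hv, div_self hvx.ne']
  have hac : ac (y / x) = 1 := by
    rw [div_eq_mul_inv, H.ac_mul, H.ac_inv, ← h, mul_inv_cancel₀ (H.ac_ne x hx)]
  have h1 : res (1 + -(y / x)) = 0 := by
    rw [H.res_add _ _ (by rw [map_one]) (by rw [Valuation.map_neg]; exact hz.le),
      H.res_neg _ hz.le, H.res_unit _ hz, hac, H.res_unit 1 (map_one _), H.ac_one, add_neg_cancel]
  have hle : V.valuation (1 + -(y / x)) ≤ 1 :=
    Valuation.map_add_le _ (by rw [map_one]) (by rw [Valuation.map_neg]; exact hz.le)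
  have hlt : V.valuation (1 + -(y / x)) < 1 := by
    refine lt_of_le_of_ne hle fun h2 => ?_
    rw [H.res_unit _ h2, H.ac_eq_zero] at h1
    rw [h1, map_zero] at h2
    exact zero_ne_one h2
  have e : x - y = x * (1 + -(y / x)) := by field_simp; ring
  rw [e, map_mul]
  calc V.valuation x * V.valuation (1 + -(y / x)) < V.valuation x * 1 :=
        mul_lt_mul_of_pos_left hlt hvx
    _ = _ := mul_one _

/-- leading term relation with respect to a partial isomorphism of the residue field -/
def Rh (V : ValuationSubring N) (ac : N → κ) (h : Subring (κ × κ)) (x x' : N) : Prop :=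
  V.valuation x = V.valuation x' ∧ (ac x, ac x') ∈ h

theorem compat (H : AC V ac res) (h : Subring (κ × κ)) (hz : ∀ p ∈ h, p.1 = 0 ↔ p.2 = 0)
    (hinv : ∀ p ∈ h, p⁻¹ ∈ h) : Compat V.valuation (Rh V ac h) 1 := by
  have hfun : ∀ {r s t : κ}, (r, s) ∈ h → (r, t) ∈ h → s = t := by
    intro r s t h1 h2
    have := (hz _ (h.sub_mem h1 h2)).mp (by simp)
    simpa [sub_eq_zero] using this
  have hAeq : ∀ m x, m ≠ 0 → V.valuation x = V.valuation m → ac m * res (x / m) = ac x := by
    intro m x hm hx
    have hvm : V.valuation m ≠ 0 := (map_ne_zero _).mpr hm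
    have : V.valuation (x / m) = 1 := by rw [map_div₀, hx, div_self hvm]
    rw [H.res_unit _ this, ← H.ac_mul, mul_div_cancel₀ _ hm]
  have hAlt : ∀ m x, V.valuation x < V.valuation m → ac m * res (x / m) = 0 := by
    intro m x hx
    have hvm : 0 < V.valuation m := lt_of_le_of_lt zero_le hx
    have : V.valuation (x / m) < 1 := by rw [map_div₀, div_lt_one₀ hvm]; exact hx
    rw [H.res_lt _ this, mul_zero]
  have hdiv : ∀ m x, m ≠ 0 → V.valuation x ≤ V.valuation m → V.valuation (x / m) ≤ 1 := by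
    intro m x hm hx
    rw [map_div₀, div_le_one₀ (zero_lt_iff.mpr ((map_ne_zero _).mpr hm))]; exact hx
  refine ⟨⟨rfl, ?_⟩, ⟨rfl, ?_⟩, fun h => h.1, ?_, ?_, ?_, ?_, ?_, le_rfl⟩
  · rw [H.ac_zero]; exact h.zero_mem
  · rw [H.ac_one]; exact h.one_mem
  · rintro x x' y y' ⟨h1, h2⟩ ⟨h3, h4⟩
    refine ⟨by rw [map_mul, map_mul, h1, h3], ?_⟩
    rw [H.ac_mul, H.ac_mul]
    exact h.mul_mem h2 h4
  · rintro x x' ⟨h1, h2⟩
    refine ⟨by rw [map_inv₀, map_inv₀, h1], ?_⟩
    rw [H.ac_inv, H.ac_inv]
    exact hinv _ h2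
  · refine ⟨fun m =>
      { carrier := {p | m = 0 ∨ (V.valuation p.1 ≤ V.valuation m ∧ V.valuation p.2 ≤ V.valuation m ∧
          (ac m * res (p.1 / m), ac m * res (p.2 / m)) ∈ h)}
        add_mem' := ?_
        zero_mem' := ?_
        neg_mem' := ?_ }, ?_⟩
    · rintro a b (ha | ⟨ha1, ha2, ha3⟩) hb
      · exact Or.inl ha
      · rcases hb with hb | ⟨hb1, hb2, hb3⟩
        · exact Or.inl hb
        · by_cases hm : m = 0
          · exact Or.inl hm
          right
          refine ⟨Valuation.map_add_le _ ha1 hb1, Valuation.map_add_le _ ha2 hb2, ?_⟩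
          rw [Prod.fst_add, Prod.snd_add, add_div, add_div,
            H.res_add _ _ (hdiv m _ hm ha1) (hdiv m _ hm hb1),
            H.res_add _ _ (hdiv m _ hm ha2) (hdiv m _ hm hb2), mul_add, mul_add]
          exact h.add_mem ha3 hb3
    · right
      refine ⟨by simp, by simp, ?_⟩
      simp only [Prod.fst_zero, Prod.snd_zero, zero_div, H.res_zero, mul_zero]
      exact h.zero_mem
    · rintro a (ha | ⟨ha1, ha2, ha3⟩)
      · exact Or.inl ha
      · by_cases hm : m = 0
        · exact Or.inl hm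
        right
        refine ⟨by rw [Prod.fst_neg, Valuation.map_neg]; exact ha1,
          by rw [Prod.snd_neg, Valuation.map_neg]; exact ha2, ?_⟩
        rw [Prod.fst_neg, Prod.snd_neg, neg_div, neg_div, H.res_neg _ (hdiv m _ hm ha1),
          H.res_neg _ (hdiv m _ hm ha2), mul_neg, mul_neg]
        exact h.neg_mem ha3
    · intro m hm
      refine ⟨?_, ?_, ?_⟩
      · rintro x x' ⟨h1, h2⟩ hxm
        right
        refine ⟨hxm, by rw [← h1]; exact hxm, ?_⟩
        simp only
        rcases lt_or_eq_of_le hxm with hlt | heq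
        · rw [hAlt m x hlt, hAlt m x' (by rw [← h1]; exact hlt)]
          exact h.zero_mem
        · rw [hAeq m x hm heq, hAeq m x' hm (by rw [← h1]; exact heq)]
          exact h2
      · rintro x x' hx hxm
        rcases hx with hx | ⟨h1, h2, h3⟩
        · exact (hm hx).elim
        simp only at h1 h2 h3
        rw [hAeq m x hm hxm] at h3
        have hx0 : x ≠ 0 := by
          rintro rfl
          rw [map_zero] at hxm
          exact ((map_ne_zero V.valuation).mpr hm) hxm.symm
        have h4 : ac m * res (x' / m) ≠ 0 := fun h0 => H.ac_ne x hx0 ((hz _ h3).mpr h0)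
        have h5 : V.valuation x' = V.valuation m := by
          refine le_antisymm h2 ?_
          by_contra hlt
          push Not at hlt
          exact h4 (hAlt m x' hlt)
        rw [hAeq m x' hm h5] at h3
        exact ⟨by rw [hxm, h5], h3⟩
      · intro x' hx
        rcases hx with hx | ⟨h1, h2, h3⟩
        · exact (hm hx).elim
        simp only at h1 h2 h3
        rw [zero_div, H.res_zero, mul_zero] at h3
        have h4 : ac m * res (x' / m) = 0 := (hz _ h3).mp rfl
        rw [one_mul]
        refine lt_of_le_of_ne h2 fun h5 => ?_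
        rw [hAeq m x' hm h5, H.ac_eq_zero] at h4
        rw [h4, map_zero] at h5
        exact ((map_ne_zero V.valuation).mpr hm) h5.symm
  · rintro x x' x'' ⟨h1, h2⟩ h3
    rw [one_mul] at h3
    refine ⟨?_, ?_⟩
    · rw [h1]
      have e : x'' = x' - (x' - x'') := by ring
      rw [e]
      exact (Valuation.map_sub_eq_of_lt_left _ h3).symm
    · rw [H.ac_eq_of_lt x' x'' h3]
      exact h2
  · rintro x x' x'' ⟨h1, h2⟩ ⟨h3, h4⟩ hx
    have hx' : x' ≠ 0 := by
      rintro rfl
      rw [map_zero, map_eq_zero] at h1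
      exact hx h1
    exact H.lt_of_ac_eq x' x'' hx' (by rw [← h1, h3]) (hfun h2 h4)

/-- existence of images -/
theorem exists_image (H : AC V ac res) (h : Subring (κ × κ)) (hz : ∀ p ∈ h, p.1 = 0 ↔ p.2 = 0)
    (x : N) (r : κ) (hr : (ac x, r) ∈ h) : ∃ x', Rh V ac h x x' := by
  by_cases hx : x = 0
  · refine ⟨0, ?_⟩
    rw [hx]
    exact ⟨rfl, by rw [H.ac_zero]; exact h.zero_mem⟩
  · have hr0 : r ≠ 0 := fun h0 => H.ac_ne x hx ((hz _ hr).mpr h0)
    obtain ⟨u, hu1, hu2⟩ := H.surj (r / ac x) (div_ne_zero hr0 (H.ac_ne x hx))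
    refine ⟨x * u, by rw [map_mul, hu1, mul_one], ?_⟩
    rw [H.ac_mul, hu2, mul_div_cancel₀ _ (H.ac_ne x hx)]
    exact hr

end AC

end Pool.Agent.HM
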