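import Mathlib
import Pool.Agent.W_MP_4ae68b_lc.AC

set_option autoImplicit false
set_option linter.unusedSectionVars false

namespace Pool.Agent.HM

open FirstOrder FirstOrder.Language Filter
open scoped Polynomial

section

variable {K κ : Type} [Field K] [Field κ] (V : ValuationSubring K) (ac res : K → κ)

/-- the induced map on ultrapowers -/
noncomputable def acU (ac : K → κ) : UP K → UP κ := Filter.Germ.map ac

theorem acU_coe (ac : K → κ) (f : ℕ → K) : acU ac (f : UP K) = ((fun i => ac (f i) : ℕ → κ) : UP κ) :=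
  rfl

theorem coe_one_eq : ((fun _ => (1 : K) : ℕ → K) : UP K) = 1 := rfl

theorem val_eq_one_iff (f : ℕ → K) : (upV V).valuation (f : UP K) = 1 ↔
    ∀ᶠ i in (UU : Filter ℕ), V.valuation (f i) = 1 := by
  have := up_eq V f (fun _ => 1)
  rw [coe_one_eq, map_one] at this
  simpa using this

theorem val_lt_one_iff (f : ℕ → K) : (upV V).valuation (f : UP K) < 1 ↔
    ∀ᶠ i in (UU : Filter ℕ), V.valuation (f i) < 1 := by
  have := up_lt V f (fun _ => 1)
  rw [coe_one_eq, map_one] at this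
  simpa using this

theorem val_le_one_iff' (f : ℕ → K) : (upV V).valuation (f : UP K) ≤ 1 ↔
    ∀ᶠ i in (UU : Filter ℕ), V.valuation (f i) ≤ 1 := by
  have := up_le V f (fun _ => 1)
  rw [coe_one_eq, map_one] at this
  simpa using this

variable {V ac res}

theorem AC_UP (H : AC V ac res) : AC (upV V) (acU ac) (acU res) where
  ac_zero := by
    rw [← Filter.Germ.coe_zero, show ((0 : ℕ → K)) = fun _ => 0 from rfl, acU_coe]
    simp only [H.ac_zero]; rfl
  ac_one := by
    rw [← coe_one_eq, acU_coe]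
    simp only [H.ac_one]; rfl
  ac_mul x y := by
    induction x, y using Filter.Germ.inductionOn₂ with
    | h f g =>
      show acU ac ((f * g : ℕ → K) : UP K) = _
      rw [acU_coe, acU_coe, acU_coe]
      simp only [Pi.mul_apply, H.ac_mul]; rfl
  ac_ne x hx := by
    induction x using Filter.Germ.inductionOn with
    | h f =>
      intro h0
      apply hx
      rw [acU_coe, coe_eq_zero] at h0
      rw [coe_eq_zero]
      filter_upwards [h0] with i hi
      exact (H.ac_eq_zero _).mp hi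
  res_add x y hx hy := by
    induction x, y using Filter.Germ.inductionOn₂ with
    | h f g =>
      rw [val_le_one_iff'] at hx hy
      show acU res ((f + g : ℕ → K) : UP K) = _
      rw [acU_coe, acU_coe, acU_coe, ← Filter.Germ.coe_add, Filter.Germ.coe_eq]
      filter_upwards [hx, hy] with i h1 h2
      exact H.res_add _ _ h1 h2
  res_unit x hx := by
    induction x using Filter.Germ.inductionOn with
    | h f =>
      rw [val_eq_one_iff] at hx
      rw [acU_coe, acU_coe, Filter.Germ.coe_eq]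
      filter_upwards [hx] with i h1
      exact H.res_unit _ h1
  res_lt x hx := by
    induction x using Filter.Germ.inductionOn with
    | h f =>
      rw [val_lt_one_iff] at hx
      rw [acU_coe, coe_eq_zero]
      filter_upwards [hx] with i h1
      exact H.res_lt _ h1
  surj r hr := by
    induction r using Filter.Germ.inductionOn with
    | h f =>
      have h1 : ∀ r : κ, ∃ x : K, r ≠ 0 → V.valuation x = 1 ∧ ac x = r := by
        intro r
        by_cases h0 : r = 0
        · exact ⟨0, fun h => (h h0).elim⟩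
        · obtain ⟨x, hx⟩ := H.surj r h0
          exact ⟨x, fun _ => hx⟩
      choose s hs using h1
      have h2 : ∀ᶠ i in (UU : Filter ℕ), f i ≠ 0 := by
        rw [ne_eq, coe_eq_zero, ← Ultrafilter.eventually_not] at hr
        exact hr
      refine ⟨((fun i => s (f i) : ℕ → K) : UP K), ?_, ?_⟩
      · rw [val_eq_one_iff]
        filter_upwards [h2] with i hi
        exact (hs _ hi).1
      · rw [acU_coe, Filter.Germ.coe_eq]
        filter_upwards [h2] with i hi
        exact (hs _ hi).2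

/-- saturation -/
theorem sat_Rh (h : Subring (UP κ × UP κ)) (hfun : ∀ {r s t : UP κ}, (r, s) ∈ h → (r, t) ∈ h → s = t)
    (x : UP K) (g : Set (UP K × UP K)) (hg : g.Countable)
    (hF : ∀ F : Finset (UP K × UP K), (F : Set (UP K × UP K)) ⊆ g →
      ∃ y, ∀ p ∈ F, AC.Rh (upV V) (acU ac) h (x - p.1) (y - p.2)) :
    ∃ y, ∀ p ∈ g, AC.Rh (upV V) (acU ac) h (x - p.1) (y - p.2) := by
  classical
  have hcg : Countable g := hg.to_subtype
  have hex : ∀ p : g, ∃ r : UP κ, (acU ac (x - p.1.1), r) ∈ h := by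
    intro p
    obtain ⟨y, hy⟩ := hF {p.1} (by simp)
    exact ⟨_, (hy p.1 (by simp)).2⟩
  choose r hr using hex
  have key : ∀ (p : g) (f : ℕ → K),
      AC.Rh (upV V) (acU ac) h (x - p.1.1) ((f : UP K) - p.1.2) ↔
      ∀ᶠ i in (UU : Filter ℕ), f i ∈ {z : K | V.valuation (rep x i - rep p.1.1 i) =
        V.valuation (z - rep p.1.2 i) ∧ ac (z - rep p.1.2 i) = rep (r p) i} := by
    intro p f
    have e1 : AC.Rh (upV V) (acU ac) h (x - p.1.1) ((f : UP K) - p.1.2) ↔
        (upV V).valuation (x - p.1.1) = (upV V).valuation ((f : UP K) - p.1.2) ∧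
        acU ac ((f : UP K) - p.1.2) = r p := by
      constructor
      · rintro ⟨h1, h2⟩
        exact ⟨h1, hfun h2 (hr p)⟩
      · rintro ⟨h1, h2⟩
        exact ⟨h1, by rw [h2]; exact hr p⟩
    rw [e1]
    have e2 : x - p.1.1 = ((fun i => rep x i - rep p.1.1 i : ℕ → K) : UP K) := by
      conv_lhs => rw [← coe_rep x, ← coe_rep p.1.1]
      rfl
    have e3 : (f : UP K) - p.1.2 = ((fun i => f i - rep p.1.2 i : ℕ → K) : UP K) := by
      conv_lhs => rw [← coe_rep p.1.2]
      rfl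
    rw [e2, e3, up_eq, acU_coe]
    conv_lhs => rw [← coe_rep (r p)]
    rw [Filter.Germ.coe_eq]
    exact Filter.eventually_and.symm
  obtain ⟨f, hf⟩ := saturation (K := K) (ι := g) (fun p i => {z : K | V.valuation
    (rep x i - rep p.1.1 i) = V.valuation (z - rep p.1.2 i) ∧ ac (z - rep p.1.2 i) = rep (r p) i}) (by
      intro F
      obtain ⟨y, hy⟩ := hF (F.image Subtype.val) (by
        intro p hp
        obtain ⟨q, _, rfl⟩ := Finset.mem_image.mp (Finset.mem_coe.mp hp)
        exact q.2)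
      refine ⟨rep y, fun p hp => ?_⟩
      have := hy p.1 (Finset.mem_image_of_mem _ hp)
      rw [← coe_rep y] at this
      exact (key p (rep y)).mp this)
  exact ⟨(f : UP K), fun p hp => (key ⟨p, hp⟩ f).mpr (hf ⟨p, hp⟩)⟩

end

section

variable {K κ : Type} [Field K] [Field κ] (V : ValuationSubring K) (ac : K → κ)
  (Vk : ValuationSubring κ) (l : UP κ)

/-- Pairs of compatible partial isomorphisms. -/
structure Good (f : Subring (UP K × UP K)) (h : Subring (UP κ × UP κ)) : Prop where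
  hS : h ∈ Sys Vk l
  hinv : ∀ p ∈ h, p⁻¹ ∈ h
  fC : Cpt (AC.Rh (upV V) (acU ac) h) f
  fc : (f : Set (UP K × UP K)).Countable

variable {V ac Vk l} {res : K → κ}
variable [IsAlgClosed K] [CharZero K] [IsAlgClosed κ] [CharZero κ]
variable (H : AC V ac res) (hres : ∀ n : ℕ, (n : K)⁻¹ ∈ V) (hresk : ∀ n : ℕ, (n : κ)⁻¹ ∈ Vk)
variable (hl : l ≠ 0) (hlV : l ∈ upV Vk)

include hl hlV in
theorem sys_hz {h : Subring (UP κ × UP κ)} (hS : h ∈ Sys Vk l) : ∀ p ∈ h, p.1 = 0 ↔ p.2 = 0 :=
  fun p hp => (compat_rv (upV Vk) l hl hlV).eq_zero_iff (hS.1 p hp)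

include hresk hl hlV in
/-- Extension of `h` to an inverse-closed graph containing a countable set in its domain. -/
theorem complete_h (h : Subring (UP κ × UP κ)) (hS : h ∈ Sys Vk l) (s : Set (UP κ))
    (hs : s.Countable) : ∃ h' ∈ Sys Vk l, h ≤ h' ∧ (∀ p ∈ h', p⁻¹ ∈ h') ∧
      ∀ b ∈ s, ∃ c, (b, c) ∈ h' := by
  have := isAlgClosed_UP (K := κ)
  have hcomp := compat_rv (upV Vk) l hl hlV
  have hsc : (Prod.fst '' (h : Set (UP κ × UP κ)) ∪ s).Countable := (hS.2.image _).union hs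
  have hsub := subset_algCl (Prod.fst '' (h : Set (UP κ × UP κ)) ∪ s)
  obtain ⟨g, h1, h2, h3, h4⟩ := forth (hchar_UP Vk hresk) hcomp
    (algCl (Prod.fst '' (h : Set (UP κ × UP κ)) ∪ s)) (countable_algCl hsc) (algCl_root _)
    (fun x _ => ⟨x, rvEq_refl _ hl x⟩) (fun x g hg h => sat_rv Vk l x g hg h) h hS.1
    (fun p hp => hsub (Or.inl ⟨p, hp, rfl⟩))
  have hg : g ∈ Sys Vk l := ⟨h2, countable_of_dom hcomp h2 (countable_algCl hsc) h3⟩
  refine ⟨g, hg, h1, ?_, fun b hb => h4 b (hsub (Or.inr hb))⟩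
  intro p hp
  by_cases hp1 : p.1 = 0
  · have : p = 0 := h2.fst_eq_zero hcomp hp hp1
    rw [this]
    have e : (0 : UP κ × UP κ)⁻¹ = 0 := by ext <;> simp
    rw [e]; exact g.zero_mem
  · obtain ⟨c, hc⟩ := h4 p.1⁻¹ ((algCl _).inv_mem (h3 p hp))
    have h5 : (p.1 * p.1⁻¹, p.2 * c) ∈ g := g.mul_mem hp hc
    rw [mul_inv_cancel₀ hp1] at h5
    have h6 := (sys_hz hl hlV hg _ (g.sub_mem h5 g.one_mem)).mp (by simp)
    simp only [Prod.snd_sub, Prod.snd_one, sub_eq_zero] at h6
    have h7 : c = p.2⁻¹ := eq_inv_of_mul_eq_one_right h6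
    have : p⁻¹ = (p.1⁻¹, c) := by rw [h7]; rfl
    rw [this]; exact hc

theorem Good.mono {f : Subring (UP K × UP K)} {h h' : Subring (UP κ × UP κ)}
    (hG : Good V ac Vk l f h) (hS : h' ∈ Sys Vk l) (hinv : ∀ p ∈ h', p⁻¹ ∈ h') (hh : h ≤ h') :
    Good V ac Vk l f h' :=
  ⟨hS, hinv, fun p hp => ⟨(hG.fC p hp).1, hh (hG.fC p hp).2⟩, hG.fc⟩

include hresk hl hlV in
theorem good_forth_h {f : Subring (UP K × UP K)} {h : Subring (UP κ × UP κ)}
    (hG : Good V ac Vk l f h) (s : Set (UP κ)) (hs : s.Countable) :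
    ∃ h', h ≤ h' ∧ Good V ac Vk l f h' ∧ ∀ b ∈ s, ∃ c, (b, c) ∈ h' := by
  obtain ⟨h', h1, h2, h3, h4⟩ := complete_h hresk hl hlV h hG.hS s hs
  exact ⟨h', h2, hG.mono h1 h3 h2, h4⟩

include hl hlV in
theorem Good.swap {f : Subring (UP K × UP K)} {h : Subring (UP κ × UP κ)}
    (hG : Good V ac Vk l f h) : Good V ac Vk l (swapS f) (swapS h) := by
  refine ⟨swap_sys Vk l hl hlV hG.hS, fun p hp => hG.hinv _ hp, ?_, ?_⟩
  · intro p hp
    have := hG.fC _ hp
    exact ⟨this.1.symm, this.2⟩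
  · have : (swapS f : Set (UP K × UP K)) = Prod.swap '' (f : Set (UP K × UP K)) := by
      ext p
      simp only [SetLike.mem_coe, mem_swapS, Set.mem_image, Prod.exists]
      constructor
      · intro h
        exact ⟨p.2, p.1, h, rfl⟩
      · rintro ⟨a, b, h, rfl⟩
        exact h
    rw [this]
    exact hG.fc.image _

theorem swap_swap_le {N : Type} [Field N] {f g : Subring (N × N)} (h : swapS f ≤ g) : f ≤ swapS g :=
  fun p hp => h (show (p.2, p.1) ∈ swapS f from hp)

include hresk hl hlV in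
theorem good_back_h {f : Subring (UP K × UP K)} {h : Subring (UP κ × UP κ)}
    (hG : Good V ac Vk l f h) (b : UP κ) :
    ∃ h', h ≤ h' ∧ Good V ac Vk l f h' ∧ ∃ c, (c, b) ∈ h' := by
  obtain ⟨h', h1, h2, h3⟩ := good_forth_h hresk hl hlV (hG.swap hl hlV) {b} (Set.countable_singleton b)
  obtain ⟨c, hc⟩ := h3 b rfl
  exact ⟨swapS h', swap_swap_le h1, h2.swap hl hlV, c, hc⟩

include H hres hresk hl hlV in
theorem good_forth_f {f : Subring (UP K × UP K)} {h : Subring (UP κ × UP κ)}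
    (hG : Good V ac Vk l f h) (b : UP K) :
    ∃ f' h', f ≤ f' ∧ h ≤ h' ∧ Good V ac Vk l f' h' ∧ ∃ c, (b, c) ∈ f' := by
  have := isAlgClosed_UP (K := K)
  have hsc : (Prod.fst '' (f : Set (UP K × UP K)) ∪ {b}).Countable :=
    (hG.fc.image _).union (Set.countable_singleton b)
  set W := algCl (Prod.fst '' (f : Set (UP K × UP K)) ∪ {b}) with hW
  have hWc : (W : Set (UP K)).Countable := countable_algCl hsc
  have hsub := subset_algCl (Prod.fst '' (f : Set (UP K × UP K)) ∪ {b})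
  obtain ⟨h', h1, h2, h3⟩ := good_forth_h hresk hl hlV hG (acU ac '' (W : Set (UP K))) (hWc.image _)
  have hz := sys_hz hl hlV h2.hS
  have hfun : ∀ {r s t : UP κ}, (r, s) ∈ h' → (r, t) ∈ h' → s = t := by
    intro r s t h1 h2
    have := (hz _ (h'.sub_mem h1 h2)).mp (by simp)
    simpa [sub_eq_zero] using this
  have hcomp := (AC_UP H).compat h' hz h2.hinv
  obtain ⟨g, g1, g2, g3, g4⟩ := forth (hchar_UP V hres) hcomp W hWc (algCl_root _)
    (by
      intro x hx
      obtain ⟨r, hr⟩ := h3 (acU ac x) ⟨x, hx, rfl⟩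
      exact (AC_UP H).exists_image h' hz x r hr)
    (fun x g hg h => sat_Rh h' hfun x g hg h) f h2.fC
    (fun p hp => hsub (Or.inl ⟨p, hp, rfl⟩))
  exact ⟨g, h', g1, h1, ⟨h2.hS, h2.hinv, g2, countable_of_dom hcomp g2 hWc g3⟩, g4 b (hsub (Or.inr rfl))⟩

include H hres hresk hl hlV in
theorem good_back_f {f : Subring (UP K × UP K)} {h : Subring (UP κ × UP κ)}
    (hG : Good V ac Vk l f h) (b : UP K) :
    ∃ f' h', f ≤ f' ∧ h ≤ h' ∧ Good V ac Vk l f' h' ∧ ∃ c, (c, b) ∈ f' := by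
  obtain ⟨f', h', h1, h2, h3, c, hc⟩ := good_forth_f H hres hresk hl hlV (hG.swap hl hlV) b
  exact ⟨swapS f', swapS h', swap_swap_le h1, swap_swap_le h2, h3.swap hl hlV, c, hc⟩

include H hres hresk hl hlV in
theorem good_forth_fin {n : ℕ} (ρ : Fin n → UP K) {f : Subring (UP K × UP K)}
    {h : Subring (UP κ × UP κ)} (hG : Good V ac Vk l f h) :
    ∃ f' h', f ≤ f' ∧ h ≤ h' ∧ Good V ac Vk l f' h' ∧ ∀ i, ∃ c, (ρ i, c) ∈ f' := by
  have key : ∀ s : Finset (Fin n), ∃ f' h', f ≤ f' ∧ h ≤ h' ∧ Good V ac Vk l f' h' ∧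
      ∀ i ∈ s, ∃ c, (ρ i, c) ∈ f' := by
    intro s
    classical
    induction s using Finset.induction_on with
    | empty => exact ⟨f, h, le_rfl, le_rfl, hG, by simp⟩
    | insert i s hi ih =>
      obtain ⟨f', h', h1, h2, h3, h4⟩ := ih
      obtain ⟨f'', h'', g1, g2, g3, c, hc⟩ := good_forth_f H hres hresk hl hlV h3 (ρ i)
      refine ⟨f'', h'', h1.trans g1, h2.trans g2, g3, ?_⟩
      intro j hj
      rcases Finset.mem_insert.mp hj with rfl | hj
      · exact ⟨c, hc⟩
      · obtain ⟨c', hc'⟩ := h4 j hj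
        exact ⟨c', g1 hc'⟩
  obtain ⟨f', h', h1, h2, h3, h4⟩ := key Finset.univ
  exact ⟨f', h', h1, h2, h3, fun i => h4 i (Finset.mem_univ i)⟩

end

end Pool.Agent.HM
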