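import Mathlib
import Pool.Agent.W_MP_4ae68b_lc.Sys2
import Pool.Agent.W_MP_4ae68b_lc.Ind

set_option autoImplicit false
set_option linter.unusedSectionVars false

namespace Pool.Agent.HM

open FirstOrder FirstOrder.Language Filter
open scoped Polynomial

/-- Three unary relation symbols. -/
inductive Rel3 : ℕ → Type
  | O : Rel3 1
  | Oc : Rel3 1
  | S : Rel3 1

theorem rel_pred {R : ℕ → Type} {M : Type} [Interp R M] (r : R 1) (v : Fin 1 → M) :
    Interp.rel 1 r v ↔ v 0 ∈ pred r M := by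
  have : v = fun _ => v 0 := by
    ext i
    rw [Subsingleton.elim i 0]
  conv_lhs => rw [this]
  rfl

/-- total residue map -/
noncomputable def resT {K : Type} [Field K] (V : ValuationSubring K) (x : K) : ResF V := by
  classical
  exact if h : x ∈ V then IsLocalRing.residue V ⟨x, h⟩ else 0

section

variable {K : Type} [Field K]

theorem mem_pull (V : ValuationSubring K) {n : ℕ} (D : Set (Fin n → ResF V)) (x : Fin n → K)
    (hx : ∀ i, x i ∈ V) : x ∈ pull V D ↔ (fun i => resT V (x i)) ∈ D := by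
  have e : (fun i => resT V (x i)) = fun i => IsLocalRing.residue V ⟨x i, hx i⟩ := by
    ext i
    unfold resT
    rw [dif_pos (hx i)]
  rw [e]
  constructor
  · rintro ⟨h, h2⟩
    exact h2
  · intro h
    exact ⟨hx, h⟩

variable [Interp Rel3 K] (V VO : ValuationSubring K) (Vk : ValuationSubring (ResF V)) (ac : K → ResF V)

/-- The structures considered. -/
structure Set3 : Prop where
  H : AC V ac (resT V)
  hO : pred Rel3.O K = VO
  hOc : pred Rel3.Oc K = V
  hS : pred Rel3.S K = {x | ac x = 1}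
  hVO : ∀ x, x ∈ VO ↔ x ∈ V ∧ (V.valuation x = 1 → ac x ∈ Vk)
  hres : ∀ n : ℕ, (n : K)⁻¹ ∈ V
  hresk : ∀ n : ℕ, (n : ResF V)⁻¹ ∈ Vk

variable {V VO Vk ac}

theorem pred_S_UP (T : Set3 V VO Vk ac) : pred Rel3.S (UP K) = {x | acU ac x = 1} := by
  ext x
  induction x using Filter.Germ.inductionOn with
  | h f =>
    show Interp.rel 1 Rel3.S (fun _ => ((f : ℕ → K) : UP K)) ↔ acU ac (f : UP K) = 1
    rw [rel_coe Rel3.S (fun _ => f), acU_coe, ← coe_one_eq, Filter.Germ.coe_eq]
    have : ∀ i, (Interp.rel 1 Rel3.S (fun _ => f i)) ↔ ac (f i) = 1 := by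
      intro i
      have h1 : f i ∈ pred Rel3.S K ↔ f i ∈ {x | ac x = 1} := by rw [T.hS]
      exact h1
    simp only [this]
    rfl

theorem hVO_UP (T : Set3 V VO Vk ac) (x : UP K) : x ∈ upV VO ↔
    x ∈ upV V ∧ ((upV V).valuation x = 1 → acU ac x ∈ upV Vk) := by
  induction x using Filter.Germ.inductionOn with
  | h f =>
    rw [mem_upV, mem_upV, val_eq_one_iff, acU_coe, mem_upV, ← Ultrafilter.eventually_imp,
      ← Filter.eventually_and]
    simp only [T.hVO]

variable [IsAlgClosed K] [CharZero K] [IsAlgClosed (ResF V)] [CharZero (ResF V)]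
variable {l : UP (ResF V)} (hl : l ≠ 0) (hlV : l ∈ upV Vk)

include hl hlV in
theorem good_rel (T : Set3 V VO Vk ac) {f : Subring (UP K × UP K)}
    {h : Subring (UP (ResF V) × UP (ResF V))} (hG : Good V ac Vk l f h) (n : ℕ) (r : Rel3 n)
    (v w : Fin n → UP K) (hvw : ∀ i, (v i, w i) ∈ f) : Interp.rel n r v ↔ Interp.rel n r w := by
  have hz := sys_hz hl hlV hG.hS
  have hOc : ∀ p ∈ f, p.1 ∈ upV V ↔ p.2 ∈ upV V := by
    intro p hp
    rw [← ValuationSubring.valuation_le_one_iff, ← ValuationSubring.valuation_le_one_iff,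
      (hG.fC p hp).1]
  cases r with
  | O =>
    rw [rel_pred, rel_pred, pred_UP Rel3.O VO T.hO]
    show v 0 ∈ upV VO ↔ w 0 ∈ upV VO
    rw [hVO_UP T, hVO_UP T]
    have h1 := hG.fC _ (hvw 0)
    have h2 := hOc _ (hvw 0)
    simp only at h2
    rw [h2]
    refine and_congr_right fun _ => ?_
    rw [show (upV V).valuation (v 0) = (upV V).valuation (w 0) from h1.1]
    refine imp_congr_right fun _ => ?_
    have h3 := (compat_rv (upV Vk) l hl hlV).val (hG.hS.1 _ h1.2)
    rw [← ValuationSubring.valuation_le_one_iff, ← ValuationSubring.valuation_le_one_iff]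
    simp only at h3
    rw [h3]
  | Oc =>
    rw [rel_pred, rel_pred, pred_UP Rel3.Oc V T.hOc]
    exact hOc _ (hvw 0)
  | S =>
    rw [rel_pred, rel_pred, pred_S_UP T]
    show acU ac (v 0) = 1 ↔ acU ac (w 0) = 1
    have h1 := (hG.fC _ (hvw 0)).2
    have h2 := hz _ (h.sub_mem h1 h.one_mem)
    simp only [Prod.fst_sub, Prod.snd_sub, Prod.fst_one, Prod.snd_one, sub_eq_zero] at h2
    exact h2

include hl hlV in
theorem efK (T : Set3 V VO Vk ac) {α : Type} (φ : (Lg Rel3).Formula α) {f : Subring (UP K × UP K)}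
    {h : Subring (UP (ResF V) × UP (ResF V))} (hG : Good V ac Vk l f h) (v w : α → UP K)
    (hvw : ∀ i, (v i, w i) ∈ f) : φ.Realize v ↔ φ.Realize w := by
  refine ef_formula {f | ∃ h, Good V ac Vk l f h} ?_ ?_ ?_ ?_ φ f ⟨h, hG⟩ v w hvw
  · rintro f ⟨h, hG⟩ p hp
    exact ((AC_UP T.H).compat h (sys_hz hl hlV hG.hS) hG.hinv).eq_zero_iff (hG.fC p hp)
  · rintro f ⟨h, hG⟩ n r v w hvw
    exact good_rel hl hlV T hG n r v w hvw
  · rintro f ⟨h, hG⟩ b
    obtain ⟨f', h', h1, _, h3, h4⟩ := good_forth_f T.H T.hres T.hresk hl hlV hG b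
    exact ⟨f', ⟨h', h3⟩, h1, h4⟩
  · rintro f ⟨h, hG⟩ b
    obtain ⟨f', h', h1, _, h3, h4⟩ := good_back_f T.H T.hres T.hresk hl hlV hG b
    exact ⟨f', ⟨h', h3⟩, h1, h4⟩

/-- Truth of an induced relation in the ultrapower through representatives. -/
theorem ind_rel_iff {B : Set K} {n : ℕ} (D : IndRel Rel3 V B n)
    (φ : (Lg Rel3).Formula (B ⊕ Fin n))
    (hφ : pull V D.1 = {x | φ.Realize (Sum.elim (fun a => a.1) x)})
    (v : Fin n → UP (ResF V)) (ρ : Fin n → UP K) (h1 : ∀ i, (upV V).valuation (ρ i) ≤ 1)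
    (h2 : ∀ i, acU (resT V) (ρ i) = v i) :
    Interp.rel n D v ↔ φ.Realize (Sum.elim (fun a => ((fun _ => a.1 : ℕ → K) : UP K)) ρ) := by
  have e1 : v = fun i => ((fun j => resT V (rep (ρ i) j) : ℕ → ResF V) : UP (ResF V)) := by
    ext i
    rw [← h2 i, ← coe_rep (ρ i), acU_coe, coe_rep]
  have e2 : (Sum.elim (fun a => ((fun _ => a.1 : ℕ → K) : UP K)) ρ :
      B ⊕ Fin n → UP K) = fun u =>
      ((Sum.elim (fun a _ => a.1) (fun i => rep (ρ i)) u : ℕ → K) : UP K) := by
    ext u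
    rcases u with a | i
    · rfl
    · exact (coe_rep _).symm
  rw [e1, rel_coe D (fun i j => resT V (rep (ρ i) j)), e2, los_formula]
  have h3 : ∀ᶠ j in (UU : Filter ℕ), ∀ i, rep (ρ i) j ∈ V := by
    rw [Filter.eventually_all]
    intro i
    have := h1 i
    rw [← coe_rep (ρ i), val_le_one_iff'] at this
    filter_upwards [this] with j hj
    exact (V.valuation_le_one_iff _).mp hj
  have h4 : ∀ᶠ j in (UU : Filter ℕ), ((Interp.rel n D fun i => resT V (rep (ρ i) j)) ↔
      φ.Realize (fun u => (Sum.elim (fun a _ => a.1) (fun i => rep (ρ i)) u :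
        ℕ → K) j)) := by
    filter_upwards [h3] with j hj
    have h5 : (fun i => rep (ρ i) j) ∈ pull V D.1 ↔ (fun i => rep (ρ i) j) ∈
        {x | φ.Realize (Sum.elim (fun a => a.1) x)} := by rw [hφ]
    rw [mem_pull V D.1 _ hj] at h5
    have e3 : (fun u => (Sum.elim (fun a _ => a.1) (fun i => rep (ρ i)) u : ℕ → K) j) =
        Sum.elim (fun a : B => a.1) (fun i => rep (ρ i) j) := by
      ext u
      rcases u with a | i <;> rfl
    rw [e3]
    exact h5
  constructor
  · intro h5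
    filter_upwards [h4, h5] with j h6 h7
    exact h6.mp h7
  · intro h5
    filter_upwards [h4, h5] with j h6 h7
    exact h6.mpr h7

theorem exists_lift (H : AC V ac (resT V)) (r : UP (ResF V)) : ∃ ρ : UP K,
    (upV V).valuation ρ ≤ 1 ∧ acU (resT V) ρ = r ∧ acU ac ρ = r := by
  by_cases hr : r = 0
  · refine ⟨0, by simp, ?_, ?_⟩
    · rw [(AC_UP H).res_zero, hr]
    · rw [(AC_UP H).ac_zero, hr]
  · obtain ⟨x, hx1, hx2⟩ := (AC_UP H).surj r hr
    exact ⟨x, hx1.le, by rw [(AC_UP H).res_unit _ hx1, hx2], hx2⟩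

include hl hlV in
theorem good_ind_rel (T : Set3 V VO Vk ac) {f : Subring (UP K × UP K)}
    {h : Subring (UP (ResF V) × UP (ResF V))} (hG : Good V ac Vk l f h) {B : Set K}
    (hdiag : ∀ x ∈ B, (((fun _ => x : ℕ → K) : UP K), ((fun _ => x : ℕ → K) : UP K)) ∈ f) (n : ℕ)
    (D : IndRel Rel3 V B n) (v w : Fin n → UP (ResF V)) (hvw : ∀ i, (v i, w i) ∈ h) :
    Interp.rel n D v ↔ Interp.rel n D w := by
  obtain ⟨φ, hφ⟩ := Set.definable_iff_exists_formula_sum.mp D.2
  have hlift := fun i => exists_lift T.H (v i)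
  choose ρ hρ1 hρ2 hρ3 using hlift
  obtain ⟨f', h', g1, g2, g3, g4⟩ := good_forth_fin T.H T.hres T.hresk hl hlV ρ hG
  choose ρ' hρ' using g4
  have hz := sys_hz hl hlV g3.hS
  have hval : ∀ i, (upV V).valuation (ρ i) = (upV V).valuation (ρ' i) := fun i =>
    (g3.fC _ (hρ' i)).1
  have hres' : ∀ i, acU (resT V) (ρ' i) = w i := by
    intro i
    rcases lt_or_eq_of_le (hρ1 i) with hlt | heq
    · have h0 : v i = 0 := by rw [← hρ2 i, (AC_UP T.H).res_lt _ hlt]
      have h1 : ρ i = 0 := by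
        rw [← (AC_UP T.H).ac_eq_zero, hρ3 i, h0]
      have h2 : w i = 0 := (hz _ (g2 (hvw i))).mp h0
      rw [(AC_UP T.H).res_lt _ (by rw [← hval i]; exact hlt), h2]
    · rw [(AC_UP T.H).res_unit _ (by rw [← hval i]; exact heq)]
      have h1 := (g3.fC _ (hρ' i)).2
      simp only at h1
      rw [hρ3 i] at h1
      have h2 := (hz _ (h'.sub_mem h1 (g2 (hvw i)))).mp (by simp)
      simpa [sub_eq_zero] using h2
  rw [ind_rel_iff D φ hφ v ρ hρ1 hρ2,
    ind_rel_iff D φ hφ w ρ' (fun i => by rw [← hval i]; exact hρ1 i) hres']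
  refine efK hl hlV T φ g3 _ _ ?_
  rintro (a | i)
  · exact g1 (hdiag a.1 a.2)
  · exact hρ' i

/-- elements of the ring generated by `B` are values of terms -/
theorem exists_termB (B : Set K) (x : K) (hx : x ∈ Subring.closure B) :
    ∃ τ : (Lg Rel3).Term B, τ.realize (fun b => b.1) = x := by
  induction hx using Subring.closure_induction with
  | mem x hx => exact ⟨Term.var ⟨x, hx⟩, rfl⟩
  | zero => exact ⟨tzero, by simp⟩
  | one => exact ⟨tone, by simp⟩
  | add x y _ _ h1 h2 =>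
    obtain ⟨a, rfl⟩ := h1
    obtain ⟨b, rfl⟩ := h2
    exact ⟨tadd a b, by simp⟩
  | neg x _ h1 =>
    obtain ⟨a, rfl⟩ := h1
    exact ⟨tneg a, by simp⟩
  | mul x y _ _ h1 h2 =>
    obtain ⟨a, rfl⟩ := h1
    obtain ⟨b, rfl⟩ := h2
    exact ⟨tmul a b, by simp⟩

/-- constants -/
theorem const_definable (T : Set3 V VO Vk ac) (B : Set K) (x : K) (hx : x ∈ Subring.closure B) :
    B.Definable (Lg Rel3) (pull V {v : Fin 1 → ResF V | v 0 = ac x}) := by
  have hOc := T.hOc
  obtain ⟨τ, hτ⟩ := exists_termB B x hx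
  have hτ' : ∀ z : Fin 1 → K, (τ.relabel Sum.inl : (Lg Rel3).Term (B ⊕ Fin 1)).realize
      (Sum.elim (fun b => b.1) z) = x := by
    intro z
    rw [Term.realize_relabel]
    exact hτ
  rw [Set.definable_iff_exists_formula_sum]
  have hpull : ∀ z : Fin 1 → K, z ∈ pull V {v : Fin 1 → ResF V | v 0 = ac x} ↔
      z 0 ∈ V ∧ resT V (z 0) = ac x := by
    intro z
    constructor
    · intro h
      have hz : ∀ i, z i ∈ V := h.1
      exact ⟨hz 0, (mem_pull V _ z hz).mp h⟩
    · rintro ⟨h1, h2⟩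
      have hz : ∀ i, z i ∈ V := fun i => by rw [Subsingleton.elim i 0]; exact h1
      exact (mem_pull V _ z hz).mpr h2
  by_cases hx0 : x = 0
  · refine ⟨fvlt Rel3.Oc (Term.var (Sum.inr 0)) tone, ?_⟩
    ext z
    rw [hpull z, hx0, T.H.ac_zero]
    simp only [Set.mem_ofPred_eq, Term.realize_var, Sum.elim_inr,
      realize_fvlt, realize_tone, hOc, vlt_iff, map_one]
    constructor
    · rintro ⟨h1, h2⟩
      refine lt_of_le_of_ne ((V.valuation_le_one_iff _).mpr h1) fun h3 => ?_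
      rw [T.H.res_unit _ h3] at h2
      rw [(T.H.ac_eq_zero _).mp h2, map_zero] at h3
      exact zero_ne_one h3
    · intro h1
      exact ⟨(V.valuation_le_one_iff _).mp h1.le, T.H.res_lt _ h1⟩
  · refine ⟨Formula.iExs Unit (fpred Rel3.S last ⊓ fveq Rel3.Oc last (up (τ.relabel Sum.inl)) ⊓
      fvlt Rel3.Oc (tsub (up (τ.relabel Sum.inl)) (tmul (up (Term.var (Sum.inr 0))) last))
        (up (τ.relabel Sum.inl))), ?_⟩
    ext z
    rw [hpull z]
    simp only [Set.mem_ofPred_eq, Formula.realize_iExs, Formula.realize_inf, realize_fpred,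
      realize_last, T.hS, realize_fvlt, realize_fveq, realize_tsub, realize_up, hτ',
      Term.realize_var, Sum.elim_inr, realize_tmul, hOc, vlt_iff, veq_iff, exists_unit]
    have hvx : 0 < V.valuation x := zero_lt_iff.mpr ((map_ne_zero _).mpr hx0)
    constructor
    · rintro ⟨h1, h2⟩
      have hz1 : V.valuation (z 0) = 1 := by
        refine le_antisymm ((V.valuation_le_one_iff _).mpr h1) (not_lt.mp fun h3 => ?_)
        rw [T.H.res_lt _ h3] at h2
        exact T.H.ac_ne x hx0 h2.symm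
      rw [T.H.res_unit _ hz1] at h2
      obtain ⟨y, hy1, hy2⟩ := T.H.surj (ac x)⁻¹ (inv_ne_zero (T.H.ac_ne x hx0))
      refine ⟨x * y, ⟨?_, ?_⟩, ?_⟩
      · show ac (x * y) = 1
        rw [T.H.ac_mul, hy2, mul_inv_cancel₀ (T.H.ac_ne x hx0)]
      · rw [map_mul, hy1, mul_one]
      · have e1 : V.valuation (z 0 * (x * y)) = V.valuation x := by
          rw [map_mul, map_mul, hy1, hz1, one_mul, mul_one]
        refine T.H.lt_of_ac_eq x _ hx0 e1.symm ?_
        rw [T.H.ac_mul, T.H.ac_mul, hy2, h2, mul_inv_cancel₀ (T.H.ac_ne x hx0), mul_one]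
    · rintro ⟨w, ⟨h1, h2⟩, h3⟩
      have h1' : ac w = 1 := h1
      have e1 : ac (z 0 * w) = ac x := T.H.ac_eq_of_lt _ _ h3
      rw [T.H.ac_mul, h1', mul_one] at e1
      have e2 : V.valuation (z 0 * w) = V.valuation x := by
        have := Valuation.map_sub_eq_of_lt_right V.valuation h3
        rw [sub_sub_cancel_left, Valuation.map_neg] at this
        exact this
      rw [map_mul, h2] at e2
      have e3 : V.valuation (z 0) = 1 := by
        have := mul_right_cancel₀ hvx.ne' (e2.trans (one_mul _).symm)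
        exact this
      exact ⟨(V.valuation_le_one_iff _).mp e3.le, by rw [T.H.res_unit _ e3, e1]⟩

end

end Pool.Agent.HM
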