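import Mathlib
import Pool.Agent.W_MP_4ae68b_lc.Main2

set_option autoImplicit false
set_option linter.unusedSectionVars false

namespace Pool.Agent.HM

open FirstOrder FirstOrder.Language Filter
open scoped Polynomial

section

variable {K : Type} [Field K] [Interp Rel3 K] (V VO : ValuationSubring K)
  (Vk : ValuationSubring (ResF V)) (ac : K → ResF V)

/-- the diagonal of the constants -/
noncomputable def constHom (K : Type) [Field K] : K →+* UP K :=
  (Filter.Germ.coeRingHom (UU : Filter ℕ)).comp (Pi.constRingHom ℕ K)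

theorem constHom_apply {K : Type} [Field K] (x : K) : constHom K x = ((fun _ => x : ℕ → K) : UP K) :=
  rfl

/-- The induced structure on the residue field is `ω`-h-minimal. -/
theorem main2 [IsAlgClosed K] [CharZero K] [IsAlgClosed (ResF V)] [CharZero (ResF V)] [Countable K]
    (T : Set3 V VO Vk ac) (B : Set K) (Ob : IndRel Rel3 V B 1) (hOb : Ob.1 = {v | v 0 ∈ Vk}) :
    OmegaHMinimal Ob (ResF V) := by
  have hV : pred Ob (ResF V) = Vk := by
    ext x
    show (fun _ => x) ∈ Ob.1 ↔ x ∈ Vk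
    rw [hOb]; rfl
  have hcκ : Countable (ResF V) := by
    have : Countable V := inferInstanceAs (Countable {x // x ∈ V})
    exact (IsLocalRing.residue_surjective (R := V)).countable
  let C := {r : ResF V // B.Definable (Lg Rel3) (pull V {v : Fin 1 → ResF V | v 0 = r})}
  let cst : C → IndRel Rel3 V B 1 := fun r => ⟨{v | v 0 = r.1}, r.2⟩
  have hcst : ∀ (c : C) (x : ResF V), x ∈ pred (cst c) (ResF V) ↔ x = c.1 := fun c x => Iff.rfl
  apply omegaHMinimal_of Ob (ResF V) (by rw [hV]; exact Vk.zero_mem) (by rw [hV]; exact Vk.one_mem)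
  intro P _ k φ
  have hne : Nonempty (Idx (IndRel Rel3 V B) C P) := ⟨⟨∅, []⟩⟩
  have hcP : Countable P := Finite.to_countable
  apply prep_of_ultra Ob (ResF V) (I := Idx (IndRel Rel3 V B) C P)
    (fun i => fam cst i.1 i.2)
    (fun i => i.2.length) (fun i a => finLe_fam cst (fun c => c.1) hcst _ _ a) k φ
  intro a l ξ x y hl hlO hInv hδ
  rw [pred_UP Ob Vk hV] at hlO hδ
  have hlV : l ∈ upV Vk := hlO
  have := isAlgClosed_UP (K := ResF V)
  have hcomp := compat_rv (upV Vk) l hl hlV
  set val : C → UP (ResF V) := fun c => ((fun _ => c.1 : ℕ → ResF V) : UP (ResF V)) with hval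
  set s : Set (UP (ResF V)) := Set.range a ∪ Set.range val with hs
  have hsc : s.Countable := (Set.countable_range a).union (Set.countable_range _)
  have hcstU : ∀ c, val c ∈ pred (cst c) (UP (ResF V)) := by
    intro c
    show Interp.rel 1 (cst c) (fun _ => ((fun _ => c.1 : ℕ → ResF V) : UP (ResF V)))
    rw [rel_coe (cst c) (fun _ _ => c.1)]
    exact Filter.Eventually.of_forall fun _ => (hcst c c.1).mpr rfl
  have hxy : ∀ c ∈ algCl s, rvEq ((upV Vk : ValuationSubring (UP (ResF V))) :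
      Set (UP (ResF V))) l (x - c) (y - c) := by
    intro c hc
    obtain ⟨F, ts, hF⟩ := exists_fam cst val hcstU a c hc
    exact hδ ⟨F, ts⟩ c hF
  obtain ⟨h1, h11, h12, h13, h14⟩ := adjoin_pair hcomp s hsc (fun x => rvEq_refl _ hl x) x y hxy
  obtain ⟨h2, h21, h22, h23, _⟩ := complete_h T.hresk hl hlV h1 ⟨h11, h12⟩ ∅ Set.countable_empty
  set f0 : Subring (UP K × UP K) := (Subring.closure B).map ((constHom K).prod (constHom K)) with hf0
  have hG : Good V ac Vk l f0 h2 := by
    refine ⟨h21, h23, ?_, ?_⟩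
    · rintro _ ⟨x, hx, rfl⟩
      refine ⟨rfl, h22 (h13 ⟨?_, rfl⟩)⟩
      exact subset_algCl s (Or.inr ⟨⟨ac x, const_definable T B x hx⟩, rfl⟩)
    · exact (Set.to_countable _).image _
  have hdiag : ∀ x ∈ B, (((fun _ => x : ℕ → K) : UP K), ((fun _ => x : ℕ → K) : UP K)) ∈ f0 :=
    fun x hx => ⟨x, Subring.subset_closure hx, rfl⟩
  obtain ⟨h3, h31, h32, h33⟩ := good_forth_h T.hresk hl hlV hG ({l} ∪ Set.range ξ)
    ((Set.countable_singleton l).union (Set.countable_range ξ))
  obtain ⟨l', hl'⟩ := h33 l (Or.inl rfl)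
  have hξ : ∀ i, ∃ c, (ξ i, c) ∈ h3 := fun i => h33 (ξ i) (Or.inr ⟨i, rfl⟩)
  choose ξ' hξ' using hξ
  have hef := ef_formula {h | Good V ac Vk l f0 h}
    (fun h hh p hp => sys_hz hl hlV hh.hS p hp)
    (by
      rintro h hf n r v w hvw
      exact good_ind_rel hl hlV T hf hdiag n r v w hvw)
    (by
      rintro h hf b
      obtain ⟨h', g1, g2, g3⟩ := good_forth_h T.hresk hl hlV hf {b} (Set.countable_singleton b)
      exact ⟨h', g2, g1, g3 b rfl⟩)
    (by
      rintro h hf b
      obtain ⟨h', g1, g2, g3⟩ := good_back_h T.hresk hl hlV hf b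
      exact ⟨h', g2, g1, g3⟩) φ h3 h32 (asg a x l ξ) (asg a y l' ξ') (by
      rintro (p | i)
      · exact h31 (h22 (h13 ⟨subset_algCl s (Or.inl ⟨p, rfl⟩), rfl⟩))
      · refine Fin.cases ?_ (fun i => ?_) i
        · exact h31 (h22 h14)
        · refine Fin.cases ?_ (fun i => ?_) i
          · exact hl'
          · exact hξ' i)
  rw [hef]
  exact (hInv l' ξ' (by
    rw [pred_UP Ob Vk hV, veq_iff]
    exact (hcomp.val (h32.hS.1 _ hl')).symm) (fun i => by
    rw [pred_UP Ob Vk hV]
    exact h32.hS.1 _ (hξ' i)) y).symm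

end

end Pool.Agent.HM
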