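import Mathlib
import Pool.Agent.W_MP_4ae68b_lc.Main3

set_option autoImplicit false
set_option linter.unusedSectionVars false

namespace Pool.Agent.HM

open FirstOrder FirstOrder.Language Filter
open scoped Polynomial

section

variable {K : Type} [Field K] [Interp Rel3 K] {V VO : ValuationSubring K}
  {Vk : ValuationSubring (ResF V)} {ac : K → ResF V}

theorem coarse (T : Set3 V VO Vk ac) {a b : K} (h : V.valuation a < V.valuation b) :
    VO.valuation a < VO.valuation b := by
  have hvb : 0 < V.valuation b := lt_of_le_of_lt zero_le h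
  have hb : b ≠ 0 := (map_ne_zero V.valuation).mp hvb.ne'
  have hvb' : 0 < VO.valuation b := zero_lt_iff.mpr ((map_ne_zero _).mpr hb)
  by_cases ha : a = 0
  · rw [ha, map_zero]; exact hvb'
  have h1 : V.valuation (a / b) < 1 := by rw [map_div₀, div_lt_one₀ hvb]; exact h
  have h2 : a / b ∈ VO := by
    rw [T.hVO]
    exact ⟨(V.valuation_le_one_iff _).mp h1.le, fun h3 => absurd h3 h1.ne⟩
  have h3 : (a / b)⁻¹ ∉ VO := by
    intro h4
    rw [T.hVO] at h4
    have h5 := (V.valuation_le_one_iff _).mpr h4.1
    rw [map_inv₀, inv_le_one₀ (by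
      rw [zero_lt_iff]; exact (map_ne_zero _).mpr (div_ne_zero ha hb))] at h5
    exact absurd h1 (not_lt.mpr h5)
  have h4 : VO.valuation (a / b) < 1 := by
    refine lt_of_le_of_ne ((VO.valuation_le_one_iff _).mpr h2) fun h5 => h3 ?_
    rw [← VO.valuation_le_one_iff, map_inv₀, h5, inv_one]
  rwa [map_div₀, div_lt_one₀ hvb'] at h4

theorem coarse_eq (T : Set3 V VO Vk ac) {a b : K} (h : VO.valuation a = VO.valuation b) :
    V.valuation a = V.valuation b := by
  rcases lt_trichotomy (V.valuation a) (V.valuation b) with h1 | h1 | h1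
  · exact absurd h (coarse T h1).ne
  · exact h1
  · exact absurd h (coarse T h1).ne'

/-- The coarse structure is `ω`-h-minimal. -/
theorem coarse_hmin [IsAlgClosed K] [CharZero K] (T : Set3 V VO Vk ac) :
    OmegaHMinimal Rel3.Oc K := by
  apply main1 Rel3.Oc K V T.hOc T.hres
  intro n r v w hvw
  have hcomp := compat_rv V 1 one_ne_zero V.one_mem
  have hval : ∀ i, V.valuation (v i) = V.valuation (w i) := fun i => hcomp.val (hvw i)
  have hac : ∀ i, ac (v i) = ac (w i) := by
    intro i
    have := hvw i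
    rw [rvEq_iff] at this
    rcases this with ⟨h1, h2⟩ | ⟨_, _, h3⟩
    · rw [h1, h2]
    · rw [map_one, one_mul] at h3
      exact (T.H.ac_eq_of_lt _ _ h3).symm
  have hmem : ∀ i, v i ∈ V ↔ w i ∈ V := by
    intro i
    rw [← V.valuation_le_one_iff, ← V.valuation_le_one_iff, hval i]
  cases r with
  | O =>
    rw [rel_pred, rel_pred, T.hO]
    show v 0 ∈ VO ↔ w 0 ∈ VO
    rw [T.hVO, T.hVO, hmem, hval, hac]
  | Oc =>
    rw [rel_pred, rel_pred, T.hOc]
    exact hmem 0
  | S =>
    rw [rel_pred, rel_pred, T.hS]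
    show ac (v 0) = 1 ↔ ac (w 0) = 1
    rw [hac]

/-- The fine structure is not `ω`-h-minimal. -/
theorem fine_not_hmin (T : Set3 V VO Vk ac) (t u : K) (ht : VO.valuation t < 1)
    (ht1 : V.valuation t = 1) (hu : V.valuation u < 1) (hu0 : u ≠ 0) :
    ¬ OmegaHMinimal Rel3.O K := by
  intro hmin
  have hO := T.hO
  have ht0 : t ≠ 0 := by
    rintro rfl
    rw [map_zero] at ht1
    exact zero_ne_one ht1
  have hmod := hmin K rfl 1 one_ne_zero (by rw [hO]; exact VO.one_mem) {t} 0 (fun i => i.elim0)
    {x | ∃ s, ac s = 1 ∧ VO.valuation (x - s) < VO.valuation (t * s)} (by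
      refine ⟨{z | ∃ s, ac s = 1 ∧ VO.valuation (z 0 - s) < VO.valuation (t * s)}, ?_, ?_⟩
      · rw [Set.definable_iff_exists_formula_sum]
        refine ⟨Formula.iExs Unit (fpred Rel3.S last ⊓ fvlt Rel3.O
          (tsub (up (Term.var (Sum.inr 0))) last)
          (tmul (up (Term.var (Sum.inl ⟨t, rfl⟩))) last)), ?_⟩
        ext z
        simp only [Set.mem_ofPred_eq, Formula.realize_iExs, Formula.realize_inf, realize_fpred,
          realize_last, T.hS, realize_fvlt, realize_tsub, realize_up, Term.realize_var,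
          Sum.elim_inr, realize_tmul, Sum.elim_inl, hO, vlt_iff, exists_unit]
      · intro l' b _ _ x
        rfl)
  obtain ⟨C, hCf, _, hC⟩ := hmod
  rw [hO] at hC
  -- choose a power of `u` whose value is not a value of an element of `C`
  have hvu : 0 < V.valuation u := zero_lt_iff.mpr ((map_ne_zero _).mpr hu0)
  have hinj : Function.Injective (fun n : ℕ => V.valuation u ^ n) :=
    (pow_right_strictAnti₀ hvu hu).injective
  obtain ⟨n, hn⟩ : ∃ n : ℕ, V.valuation u ^ n ∉ V.valuation '' C := by
    by_contra hcon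
    push Not at hcon
    have : (Set.range fun n : ℕ => V.valuation u ^ n).Finite :=
      (hCf.image V.valuation).subset (by rintro _ ⟨n, rfl⟩; exact hcon n)
    exact Set.infinite_range_of_injective hinj this
  obtain ⟨w, hw1, hw2⟩ := T.H.surj (ac (u ^ n))⁻¹ (inv_ne_zero (T.H.ac_ne _ (pow_ne_zero n hu0)))
  set s := u ^ n * w with hs
  have hacs : ac s = 1 := by
    rw [hs, T.H.ac_mul, hw2, mul_inv_cancel₀ (T.H.ac_ne _ (pow_ne_zero n hu0))]
  have hvs : V.valuation s = V.valuation u ^ n := by rw [hs, map_mul, hw1, mul_one, map_pow]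
  have hs0 : s ≠ 0 := by
    rintro h0
    rw [h0, T.H.ac_zero] at hacs
    exact zero_ne_one hacs
  have hVOs : 0 < VO.valuation s := zero_lt_iff.mpr ((map_ne_zero _).mpr hs0)
  have hts : VO.valuation (t * s) < VO.valuation s := by
    rw [map_mul]
    calc VO.valuation t * VO.valuation s < 1 * VO.valuation s := mul_lt_mul_of_pos_right ht hVOs
      _ = _ := one_mul _
  have hsC : ∀ c ∈ C, VO.valuation s ≤ VO.valuation (s - c) := by
    intro c hc
    rcases lt_trichotomy (V.valuation c) (V.valuation s) with h | h | h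
    · exact (Valuation.map_sub_eq_of_lt_left _ (coarse T h)).ge
    · exact (hn ⟨c, hc, by rw [h, hvs]⟩).elim
    · rw [Valuation.map_sub_eq_of_lt_right _ (coarse T h)]
      exact (coarse T h).le
  have hprep := hC s (s + t * s) (by
    intro c hc
    rw [rvEq_iff, map_one, one_mul]
    have h1 : VO.valuation (s - c - (s + t * s - c)) < VO.valuation (s - c) := by
      have e : s - c - (s + t * s - c) = -(t * s) := by ring
      rw [e, Valuation.map_neg]
      exact lt_of_lt_of_le hts (hsC c hc)
    refine Or.inr ⟨?_, ?_, h1⟩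
    · intro h0
      rw [h0, map_zero] at h1
      exact absurd h1 (not_lt.mpr zero_le)
    · intro h0
      rw [h0, sub_zero] at h1
      exact lt_irrefl _ h1)
  have hsX : s ∈ {x | ∃ s, ac s = 1 ∧ VO.valuation (x - s) < VO.valuation (t * s)} :=
    ⟨s, hacs, by
      rw [sub_self, map_zero]
      exact zero_lt_iff.mpr ((map_ne_zero _).mpr (mul_ne_zero ht0 hs0))⟩
  obtain ⟨s', hs'1, hs'2⟩ := hprep.mp hsX
  have hs'0 : s' ≠ 0 := by
    rintro rfl
    rw [T.H.ac_zero] at hs'1
    exact zero_ne_one hs'1
  have hVOs' : 0 < VO.valuation s' := zero_lt_iff.mpr ((map_ne_zero _).mpr hs'0)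
  have h1 : VO.valuation (s + t * s) = VO.valuation s := Valuation.map_add_eq_of_lt_left _ hts
  have h2 : VO.valuation (s + t * s - s') < VO.valuation s' := by
    refine lt_trans hs'2 ?_
    rw [map_mul]
    calc VO.valuation t * VO.valuation s' < 1 * VO.valuation s' := mul_lt_mul_of_pos_right ht hVOs'
      _ = _ := one_mul _
  have h3 : VO.valuation s' = VO.valuation s := by
    have e : s + t * s = (s + t * s - s') + s' := by ring
    rw [← h1, e, Valuation.map_add_eq_of_lt_right _ h2]
  have h4 : V.valuation (s - s') < V.valuation s :=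
    T.H.lt_of_ac_eq s s' hs0 (coarse_eq T h3.symm) (by rw [hacs, hs'1])
  have h5 : V.valuation (s - s') < V.valuation (t * s) := by rw [map_mul, ht1, one_mul]; exact h4
  have h6 := coarse T h5
  have h7 : VO.valuation (s + t * s - s') = VO.valuation (t * s) := by
    have e : s + t * s - s' = (s - s') + t * s := by ring
    rw [e, Valuation.map_add_eq_of_lt_right _ h6]
  rw [h7] at hs'2
  have e1 : VO.valuation (t * s') = VO.valuation (t * s) := by
    rw [VO.valuation.map_mul t s', VO.valuation.map_mul t s, h3]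
  have hs'3 : VO.valuation (t * s) < VO.valuation (t * s') := hs'2
  rw [e1] at hs'3
  exact lt_irrefl _ hs'3

end

end Pool.Agent.HM
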