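import Mathlib
import Pool.Agent.W_MP_4ae68b_lc.Neg

set_option autoImplicit false
set_option linter.unusedSectionVars false

namespace Pool.Agent.HM

open FirstOrder FirstOrder.Language Filter Cardinal
open scoped Polynomial

theorem countable_ratFunc (k : Type) [Field k] [Countable k] : Countable (RatFunc k) := by
  rw [← Cardinal.mk_le_aleph0_iff]
  refine (IsLocalization.cardinalMk_le (L := RatFunc k) (nonZeroDivisors k[X])).trans ?_
  refine Polynomial.cardinalMk_le_max.trans ?_
  rw [max_le_iff]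
  exact ⟨Cardinal.mk_le_aleph0_iff.mpr inferInstance, le_rfl⟩

theorem countable_algClosure (k : Type) [Field k] [Countable k] : Countable (AlgebraicClosure k) := by
  rw [← Cardinal.mk_le_aleph0_iff]
  refine (Algebra.IsAlgebraic.cardinalMk_le_max k (AlgebraicClosure k)).trans ?_
  rw [max_le_iff]
  exact ⟨Cardinal.mk_le_aleph0_iff.mpr inferInstance, le_rfl⟩

/-- A valuation ring containing a subfield `k`, with a given transcendental element in its maximal
ideal. -/
theorem exists_val {k K : Type} [Field k] [Field K] [Algebra k K] (u : K) (hu : Transcendental k u) :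
    ∃ V : ValuationSubring K, (∀ a : k, algebraMap k K a ∈ V) ∧ V.valuation u < 1 := by
  set A : Subring K := (Polynomial.aeval (R := k) u).toRingHom.range with hA
  have huA : u ∈ A := ⟨Polynomial.X, by simp⟩
  set I : Ideal A := Ideal.span {⟨u, huA⟩} with hI
  have hI1 : I ≠ ⊤ := by
    intro h
    rw [Ideal.eq_top_iff_one, hI, Ideal.mem_span_singleton'] at h
    obtain ⟨⟨_, p, rfl⟩, hp⟩ := h
    have h1 := congrArg Subtype.val hp
    have h2 : Polynomial.aeval u (p * Polynomial.X - 1) = 0 := by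
      rw [map_sub, map_mul, map_one, Polynomial.aeval_X, sub_eq_zero]
      exact h1
    have h3 := (transcendental_iff.mp hu) _ h2
    have h4 := congrArg (Polynomial.eval 0) h3
    simp at h4
  obtain ⟨B, hB1, hB2⟩ := Ideal.image_subset_nonunits_valuationSubring I hI1
  refine ⟨B, fun a => hB1 ⟨Polynomial.C a, by simp⟩, ?_⟩
  rw [← B.mem_nonunits_iff]
  exact hB2 ⟨⟨u, huA⟩, Ideal.subset_span rfl, rfl⟩

theorem isAlgClosed_resF {K : Type} [Field K] [IsAlgClosed K] (V : ValuationSubring K) :
    IsAlgClosed (ResF V) := by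
  apply IsAlgClosed.of_exists_root
  intro p hp hirr
  obtain ⟨q, hq1, hq2, hq3⟩ := Polynomial.lifts_and_natDegree_eq_and_monic
    (f := IsLocalRing.residue V) (p := p) (by
      rw [Polynomial.lifts_iff_coeff_lifts]
      intro n
      obtain ⟨x, hx⟩ := IsLocalRing.residue_surjective (R := V) (p.coeff n)
      exact ⟨x, hx⟩) hp
  have hdeg : 0 < p.natDegree := hirr.natDegree_pos
  have hqm : (q.map (algebraMap V K)).Monic := hq3.map _
  have hqd : (q.map (algebraMap V K)).degree ≠ 0 := by
    rw [hq3.degree_map, Polynomial.degree_eq_natDegree hq3.ne_zero, hq2]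
    exact_mod_cast hdeg.ne'
  obtain ⟨x, hx⟩ := IsAlgClosed.exists_root _ hqd
  have hint : IsIntegral V x := ⟨q, hq3, by rw [← Polynomial.eval_map]; exact hx⟩
  obtain ⟨y, rfl⟩ := IsIntegrallyClosed.isIntegral_iff.mp hint
  refine ⟨IsLocalRing.residue V y, ?_⟩
  rw [← hq1, Polynomial.eval_map, Polynomial.eval₂_at_apply]
  have h1 : algebraMap V K (q.eval y) = 0 := by
    rw [Polynomial.IsRoot.def, Polynomial.eval_map, Polynomial.eval₂_at_apply] at hx
    exact hx
  have h2 : q.eval y = 0 := by
    apply (injective_iff_map_eq_zero (algebraMap V K)).mp (IsFractionRing.injective V K)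
    exact h1
  rw [h2, map_zero]

theorem pow_surj {κ : Type} [Field κ] [IsAlgClosed κ] {m : ℕ} (hm : m ≠ 0) (a : κˣ) :
    ∃ b : κˣ, b ^ m = a := by
  obtain ⟨z, hz⟩ := IsAlgClosed.exists_pow_nat_eq (a : κ) (Nat.pos_of_ne_zero hm)
  have hz0 : z ≠ 0 := by
    rintro rfl
    rw [zero_pow hm] at hz
    exact a.ne_zero hz.symm
  exact ⟨Units.mk0 z hz0, Units.ext (by rw [Units.val_pow_eq_pow_val]; exact hz)⟩

theorem zpow_surj {κ : Type} [Field κ] [IsAlgClosed κ] {n : ℤ} (hn : n ≠ 0) (a : κˣ) :
    ∃ b : κˣ, b ^ n = a := by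
  obtain ⟨m, rfl | rfl⟩ := Int.eq_nat_or_neg n
  · obtain ⟨b, hb⟩ := pow_surj (m := m) (by exact_mod_cast hn) a
    exact ⟨b, by rw [zpow_natCast]; exact hb⟩
  · obtain ⟨b, hb⟩ := pow_surj (m := m) (by
      rintro rfl
      simp at hn) a
    exact ⟨b⁻¹, by rw [zpow_neg, zpow_natCast, inv_pow, inv_inv]; exact hb⟩

/-- A homomorphism extending the residue map on units. -/
theorem exists_hom {K : Type} [Field K] (V : ValuationSubring K) [IsAlgClosed (ResF V)] :
    ∃ φ : Kˣ →* (ResF V)ˣ, ∀ x : V.unitGroup, φ x = V.unitGroupToResidueFieldUnits x := by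
  have hroot : ∀ {n : ℤ}, n ≠ 0 → Function.Surjective (fun a : Additive (ResF V)ˣ => n • a) := by
    intro n hn a
    obtain ⟨b, hb⟩ := zpow_surj hn (Additive.toMul a)
    exact ⟨Additive.ofMul b, hb⟩
  let hdiv : DivisibleBy (Additive (ResF V)ˣ) ℤ := divisibleByOfSMulRightSurj _ _ hroot
  obtain ⟨φ, hφ⟩ := (Module.Baer.of_divisible (Additive (ResF V)ˣ)).extension_property_addMonoidHom
    (MonoidHom.toAdditive V.unitGroup.subtype) Subtype.val_injective
    (MonoidHom.toAdditive V.unitGroupToResidueFieldUnits)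
  refine ⟨MonoidHom.toAdditive.symm φ, fun x => ?_⟩
  exact DFunLike.congr_fun hφ (Additive.ofMul x)

theorem resT_of_mem {K : Type} [Field K] (V : ValuationSubring K) {x : K} (hx : x ∈ V) :
    resT V x = IsLocalRing.residue V ⟨x, hx⟩ := by
  unfold resT
  rw [dif_pos hx]

/-- Angular components exist when the residue field is algebraically closed. -/
theorem exists_ac {K : Type} [Field K] (V : ValuationSubring K) [IsAlgClosed (ResF V)] :
    ∃ ac : K → ResF V, AC V ac (resT V) := by
  classical
  obtain ⟨φ, hφ⟩ := exists_hom V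
  have hac : ∀ x (h : x ≠ 0), (if h : x = 0 then (0 : ResF V) else (φ (Units.mk0 x h) : ResF V)) =
      φ (Units.mk0 x h) := fun x h => dif_neg h
  have hunit : ∀ x, V.valuation x = 1 →
      resT V x = if h : x = 0 then (0 : ResF V) else (φ (Units.mk0 x h) : ResF V) := by
    intro x hx
    have hx0 : x ≠ 0 := by
      rintro rfl
      rw [map_zero] at hx
      exact zero_ne_one hx
    have hxV : x ∈ V := (V.valuation_le_one_iff _).mp hx.le
    rw [hac x hx0, resT_of_mem V hxV]
    have hxu : Units.mk0 x hx0 ∈ V.unitGroup := by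
      rw [ValuationSubring.mem_unitGroup_iff]
      exact hx
    have h1 := congrArg Units.val (hφ ⟨Units.mk0 x hx0, hxu⟩)
    rw [ValuationSubring.coe_unitGroupToResidueFieldUnits_apply] at h1
    exact h1.symm
  refine ⟨fun x => if h : x = 0 then 0 else (φ (Units.mk0 x h) : ResF V), ?_, ?_, ?_, ?_, ?_, hunit,
    ?_, ?_⟩
  · exact dif_pos rfl
  · show (if h : (1 : K) = 0 then (0 : ResF V) else (φ (Units.mk0 1 h) : ResF V)) = 1
    rw [hac 1 one_ne_zero, Units.mk0_one, map_one, Units.val_one]
  · intro x y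
    by_cases hx : x = 0
    · subst hx
      show (if h : (0 : K) * y = 0 then (0 : ResF V) else _) = (if h : (0 : K) = 0 then (0 : ResF V) else _) * _
      rw [dif_pos (zero_mul y), dif_pos rfl, zero_mul]
    by_cases hy : y = 0
    · subst hy
      show (if h : x * (0 : K) = 0 then (0 : ResF V) else _) = _ * (if h : (0 : K) = 0 then (0 : ResF V) else _)
      rw [dif_pos (mul_zero x), dif_pos rfl, mul_zero]
    show (if h : x * y = 0 then (0 : ResF V) else (φ (Units.mk0 (x * y) h) : ResF V)) =
      (if h : x = 0 then (0 : ResF V) else (φ (Units.mk0 x h) : ResF V)) *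
      (if h : y = 0 then (0 : ResF V) else (φ (Units.mk0 y h) : ResF V))
    rw [hac _ (mul_ne_zero hx hy), hac _ hx, hac _ hy, Units.mk0_mul, map_mul, Units.val_mul]
  · intro x hx
    show (if h : x = 0 then (0 : ResF V) else (φ (Units.mk0 x h) : ResF V)) ≠ 0
    rw [hac x hx]
    exact Units.ne_zero _
  · intro x y hx hy
    rw [V.valuation_le_one_iff] at hx hy
    rw [resT_of_mem V hx, resT_of_mem V hy, resT_of_mem V (V.add_mem _ _ hx hy), ← map_add]
    rfl
  · intro x hx
    rw [resT_of_mem V ((V.valuation_le_one_iff _).mp hx.le)]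
    rw [IsLocalRing.residue_eq_zero_iff, V.valuation_lt_one_iff]
    exact hx
  · intro r hr
    obtain ⟨x, rfl⟩ := IsLocalRing.residue_surjective (R := V) r
    have hx1 : V.valuation x = 1 := by
      rw [← V.valuation_eq_one_iff]
      by_contra hcon
      apply hr
      rw [IsLocalRing.residue_eq_zero_iff]
      exact hcon
    refine ⟨x, hx1, ?_⟩
    have h1 := hunit x hx1
    rw [resT_of_mem V x.2] at h1
    exact h1.symm

/-- The composite of `V` with a valuation ring of its residue field. -/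
noncomputable def compV {K : Type} [Field K] (V : ValuationSubring K) (Vk : ValuationSubring (ResF V)) :
    ValuationSubring K where
  carrier := {x | x ∈ V ∧ resT V x ∈ Vk}
  mul_mem' := by
    rintro x y ⟨hx, hx'⟩ ⟨hy, hy'⟩
    refine ⟨V.mul_mem _ _ hx hy, ?_⟩
    rw [resT_of_mem V hx] at hx'
    rw [resT_of_mem V hy] at hy'
    rw [resT_of_mem V (V.mul_mem _ _ hx hy)]
    have := Vk.mul_mem _ _ hx' hy'
    rw [← map_mul] at this
    exact this
  one_mem' := by
    refine ⟨V.one_mem, ?_⟩
    rw [resT_of_mem V V.one_mem]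
    have := Vk.one_mem
    rw [← map_one (IsLocalRing.residue V)] at this
    exact this
  add_mem' := by
    rintro x y ⟨hx, hx'⟩ ⟨hy, hy'⟩
    refine ⟨V.add_mem _ _ hx hy, ?_⟩
    rw [resT_of_mem V hx] at hx'
    rw [resT_of_mem V hy] at hy'
    rw [resT_of_mem V (V.add_mem _ _ hx hy)]
    have := Vk.add_mem _ _ hx' hy'
    rw [← map_add] at this
    exact this
  zero_mem' := by
    refine ⟨V.zero_mem, ?_⟩
    rw [resT_of_mem V V.zero_mem]
    have := Vk.zero_mem
    rw [← map_zero (IsLocalRing.residue V)] at this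
    exact this
  neg_mem' := by
    rintro x ⟨hx, hx'⟩
    refine ⟨V.neg_mem _ hx, ?_⟩
    rw [resT_of_mem V hx] at hx'
    rw [resT_of_mem V (V.neg_mem _ hx)]
    have := Vk.neg_mem _ hx'
    rw [← map_neg] at this
    exact this
  mem_or_inv_mem' := by
    intro x
    show (x ∈ V ∧ resT V x ∈ Vk) ∨ (x⁻¹ ∈ V ∧ resT V x⁻¹ ∈ Vk)
    have hlt : ∀ y : K, V.valuation y < 1 → y ∈ V ∧ resT V y ∈ Vk := by
      intro y hy
      have hyV : y ∈ V := (V.valuation_le_one_iff _).mp hy.le
      refine ⟨hyV, ?_⟩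
      rw [resT_of_mem V hyV, (IsLocalRing.residue_eq_zero_iff _).mpr]
      · exact Vk.zero_mem
      · rw [V.valuation_lt_one_iff]; exact hy
    rcases lt_trichotomy (V.valuation x) 1 with h | h | h
    · exact Or.inl (hlt x h)
    · have hx0 : x ≠ 0 := by
        rintro rfl
        rw [map_zero] at h
        exact zero_ne_one h
      have hxV : x ∈ V := (V.valuation_le_one_iff _).mp h.le
      have hxV' : x⁻¹ ∈ V := (V.valuation_le_one_iff _).mp (by rw [map_inv₀, h, inv_one])
      have hmul : resT V x * resT V x⁻¹ = 1 := by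
        rw [resT_of_mem V hxV, resT_of_mem V hxV', ← map_mul, ← map_one (IsLocalRing.residue V)]
        congr 1
        exact Subtype.ext (mul_inv_cancel₀ hx0)
      rcases Vk.mem_or_inv_mem (resT V x) with h1 | h1
      · exact Or.inl ⟨hxV, h1⟩
      · refine Or.inr ⟨hxV', ?_⟩
        rwa [eq_inv_of_mul_eq_one_right hmul]
    · have hx0 : 0 < V.valuation x := lt_trans zero_lt_one h
      refine Or.inr (hlt _ ?_)
      rw [map_inv₀]
      exact (inv_lt_one₀ hx0).mpr h

theorem mem_compV {K : Type} [Field K] (V : ValuationSubring K) (Vk : ValuationSubring (ResF V))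
    (x : K) : x ∈ compV V Vk ↔ x ∈ V ∧ resT V x ∈ Vk := Iff.rfl

theorem hVO_compV {K : Type} [Field K] (V : ValuationSubring K) (Vk : ValuationSubring (ResF V))
    {ac : K → ResF V} (H : AC V ac (resT V)) (x : K) :
    x ∈ compV V Vk ↔ x ∈ V ∧ (V.valuation x = 1 → ac x ∈ Vk) := by
  rw [mem_compV]
  constructor
  · rintro ⟨h1, h2⟩
    exact ⟨h1, fun h3 => by rw [← H.res_unit x h3]; exact h2⟩
  · rintro ⟨h1, h2⟩
    refine ⟨h1, ?_⟩
    rcases lt_or_eq_of_le ((V.valuation_le_one_iff _).mpr h1) with h3 | h3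
    · rw [H.res_lt x h3]; exact Vk.zero_mem
    · rw [H.res_unit x h3]; exact h2 h3

/-- The interpretation of the three predicates. -/
@[reducible] def interp3 {K : Type} [Field K] (VO V : ValuationSubring K) (ac : K → ResF V) : Interp Rel3 K where
  rel n r := match n, r with
    | _, Rel3.O => fun v => v 0 ∈ VO
    | _, Rel3.Oc => fun v => v 0 ∈ V
    | _, Rel3.S => fun v => ac (v 0) = 1

theorem ratFunc_X_eval (p : ℚ[X]) (g : ℚ →+* RatFunc ℚ)
    (h : Polynomial.eval₂ g RatFunc.X p = 0) : p = 0 := by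
  have e : g = (RatFunc.instAlgebraOfPolynomial ℚ ℚ).algebraMap := Subsingleton.elim _ _
  rw [e] at h
  by_contra hp
  exact RatFunc.transcendental_X (K := ℚ) ⟨p, hp, h⟩

/-- Existence of the example. -/
theorem exists_example : ∃ (K : Type) (_ : Field K) (_ : IsAlgClosed K) (_ : CharZero K)
    (_ : Countable K) (V : ValuationSubring K) (_ : IsAlgClosed (ResF V)) (_ : CharZero (ResF V))
    (Vk : ValuationSubring (ResF V)) (ac : K → ResF V) (t u : K), AC V ac (resT V) ∧
    (∀ n : ℕ, (n : K)⁻¹ ∈ V) ∧ (∀ n : ℕ, (n : ResF V)⁻¹ ∈ Vk) ∧ V.valuation t = 1 ∧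
    (compV V Vk).valuation t < 1 ∧ V.valuation u < 1 ∧ u ≠ 0 := by
  let F0 := RatFunc ℚ
  let F1 := RatFunc F0
  let K := AlgebraicClosure F1
  have hc0 : Countable F0 := countable_ratFunc ℚ
  have hc1 : Countable F1 := countable_ratFunc F0
  have hcK : Countable K := countable_algClosure F1
  have hch0 : CharZero F0 := charZero_of_injective_algebraMap (algebraMap ℚ F0).injective
  have hch1 : CharZero F1 := charZero_of_injective_algebraMap (algebraMap F0 F1).injective
  have hchK : CharZero K := charZero_of_injective_algebraMap (algebraMap F1 K).injective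
  let u : K := algebraMap F1 K RatFunc.X
  have hu : Transcendental F0 u :=
    (transcendental_algebraMap_iff (algebraMap F1 K).injective).mpr RatFunc.transcendental_X
  obtain ⟨V, hV1, hV2⟩ := exists_val u hu
  have halg : IsAlgClosed (ResF V) := isAlgClosed_resF V
  let j : F0 →+* ResF V := (IsLocalRing.residue V).comp ((algebraMap F0 K).codRestrict V hV1)
  have hj : ∀ a, j a = resT V (algebraMap F0 K a) := by
    intro a
    rw [resT_of_mem V (hV1 a)]
    rfl
  have hch : CharZero (ResF V) := charZero_of_injective_ringHom j.injective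
  let tb : ResF V := j RatFunc.X
  have htb : Transcendental ℚ tb := by
    intro halg
    obtain ⟨p, hp0, hp⟩ := halg
    rw [Polynomial.aeval_def] at hp
    have e : algebraMap ℚ (ResF V) = j.comp (algebraMap ℚ F0) := Subsingleton.elim _ _
    rw [e, ← Polynomial.hom_eval₂] at hp
    exact hp0 (ratFunc_X_eval _ _ ((map_eq_zero_iff _ j.injective).mp hp))
  obtain ⟨Vk, hk1, hk2⟩ := exists_val tb htb
  obtain ⟨ac, hac⟩ := exists_ac V
  let t : K := algebraMap F0 K RatFunc.X
  have ht0 : t ≠ 0 := by
    intro h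
    exact RatFunc.X_ne_zero ((map_eq_zero_iff _ (algebraMap F0 K).injective).mp h)
  have htinv : t⁻¹ = algebraMap F0 K (RatFunc.X)⁻¹ := (map_inv₀ _ _).symm
  refine ⟨K, inferInstance, inferInstance, hchK, hcK, V, halg, hch, Vk, ac, t, u, hac, ?_, ?_, ?_,
    ?_, hV2, ?_⟩
  · intro n
    have := hV1 ((n : F0)⁻¹)
    rwa [map_inv₀, map_natCast] at this
  · intro n
    have := hk1 ((n : ℚ)⁻¹)
    rwa [map_inv₀, map_natCast] at this
  · have h1 : V.valuation t ≤ 1 := (V.valuation_le_one_iff _).mpr (hV1 _)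
    have h2 : V.valuation t⁻¹ ≤ 1 := by
      rw [htinv]
      exact (V.valuation_le_one_iff _).mpr (hV1 _)
    refine le_antisymm h1 ?_
    have h3 : V.valuation t * V.valuation t⁻¹ = 1 := by
      rw [← map_mul, mul_inv_cancel₀ ht0, map_one]
    calc (1 : _) = V.valuation t * V.valuation t⁻¹ := h3.symm
      _ ≤ V.valuation t * 1 := by gcongr
      _ = _ := mul_one _
  · rw [← ValuationSubring.mem_nonunits_iff, ValuationSubring.mem_nonunits_iff_or]
    right
    intro h
    rw [mem_compV] at h
    have h1 := h.2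
    rw [htinv, ← hj, map_inv₀] at h1
    rw [← ValuationSubring.mem_nonunits_iff, ValuationSubring.mem_nonunits_iff_or] at hk2
    rcases hk2 with h2 | h2
    · exact RatFunc.X_ne_zero ((map_eq_zero_iff _ j.injective).mp h2)
    · exact h2 h1
  · intro h
    exact RatFunc.X_ne_zero ((map_eq_zero_iff _ (algebraMap F1 K).injective).mp h)

end Pool.Agent.HM
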